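import Pool.Agent.S2C.Stmts

/-!
# Module S2C_AVG: one step of the random chain, one half
-/

set_option autoImplicit false

namespace Pool.Agent.S2C

open Finset
open Pool.Agent.NBC (St)

section

/-! ### indicators -/

open Classical in
/-- The indicator of a proposition. -/
noncomputable def avg_ind (p : Prop) : ℝ := if p then 1 else 0

theorem avg_ind_true {p : Prop} (h : p) : avg_ind p = 1 := if_pos h

theorem avg_ind_false {p : Prop} (h : ¬ p) : avg_ind p = 0 := if_neg h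

theorem avg_ind_nonneg (p : Prop) : 0 ≤ avg_ind p := by
  by_cases h : p
  · rw [avg_ind_true h]
    exact zero_le_one
  · rw [avg_ind_false h]

theorem avg_ind_le {p q : Prop} (h : p → q) : avg_ind p ≤ avg_ind q := by
  by_cases hp : p
  · rw [avg_ind_true hp, avg_ind_true (h hp)]
  · rw [avg_ind_false hp]
    exact avg_ind_nonneg q

theorem avg_ind_le3 {p q r s : Prop} (h : p → q ∨ r ∨ s) :
    avg_ind p ≤ avg_ind q + avg_ind r + avg_ind s := by
  have hq := avg_ind_nonneg q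
  have hr := avg_ind_nonneg r
  have hs := avg_ind_nonneg s
  by_cases hp : p
  · rw [avg_ind_true hp]
    rcases h hp with h1 | h1 | h1
    · rw [avg_ind_true h1]
      linarith
    · rw [avg_ind_true h1]
      linarith
    · rw [avg_ind_true h1]
      linarith
  · rw [avg_ind_false hp]
    linarith

theorem avg_card {α : Type} [Fintype α] (p : α → Prop) [DecidablePred p] :
    (((univ : Finset α).filter p).card : ℝ) = ∑ a, avg_ind (p a) := by
  rw [Finset.natCast_card_filter]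
  refine Finset.sum_congr rfl fun a _ => ?_
  by_cases h : p a
  · rw [if_pos h, avg_ind_true h]
  · rw [if_neg h, avg_ind_false h]

/-! ### sums -/

theorem avg_split {n K : ℕ} {Xp : Type} [Fintype Xp] (f : (Fin n → Fin K × Xp) → ℝ) :
    ∑ y, f y = ∑ κ : Fin n → Fin K, ∑ t : Fin n → Xp, f fun c => (κ c, t c) := by
  rw [← Fintype.sum_prod_type']
  let e : (Fin n → Fin K × Xp) ≃ (Fin n → Fin K) × (Fin n → Xp) :=
    { toFun := fun y => (fun c => (y c).1, fun c => (y c).2)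
      invFun := fun z c => (z.1 c, z.2 c)
      left_inv := fun y => rfl
      right_inv := fun z => rfl }
  exact Fintype.sum_equiv e _ _ fun y => rfl

variable {M n K g m l : ℕ} {Xn Xp : Type}

/-- Averaging again over the positive tests of the windows `e (c, κ c)`. -/
theorem avg_pos [Fintype Xn] [Fintype Xp] [Nonempty Xp] (hR : Stmt_RSM) (hM : g + n * K ≤ M)
    (hinj : ∀ ω : Ply M Xn Xp, Function.Injective (cel hM ω)) (κ : Fin n → Fin K)
    (F : Ply M Xn Xp → (Fin n → Xp) → ℝ)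
    (hF : ∀ (π : Equiv.Perm (Fin M)) (χ : Fin M → Xn) (τ τ' : Fin M → Xp) (x : Fin n → Xp),
      (∀ w, (∀ z, cel (Xn := Xn) (Xp := Xp) hM (π, χ, τ) z ≠ w) → τ w = τ' w) →
        F (π, χ, τ) x = F (π, χ, τ') x) :
    ∑ ω : Ply M Xn Xp, ∑ x : Fin n → Xp, F ω x =
      (Fintype.card Xp : ℝ) ^ n * ∑ ω : Ply M Xn Xp, F ω fun c => ω.2.2 (cel hM ω (c, κ c)) := by
  rw [Fintype.sum_prod_type, Fintype.sum_prod_type, Finset.mul_sum]
  refine Finset.sum_congr rfl fun π _ => ?_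
  rw [Fintype.sum_prod_type, Fintype.sum_prod_type, Finset.mul_sum]
  refine Finset.sum_congr rfl fun χ _ => ?_
  have h := hR (Fin n) (Fin M) Xp
    (fun c => cel (Xn := Xn) (Xp := Xp) hM (π, χ, fun _ => Classical.arbitrary Xp) (c, κ c))
    (fun a b hab => congrArg Prod.fst (hinj _ hab)) (fun x f => F (π, χ, f) x)
    (fun x f f' hff => hF π χ f f' x fun w hw => hff w fun a => hw (a, κ a))
  rw [Fintype.card_fin] at h
  exact h

/-- Averaging again over the neutral tests of the windows of the cells. -/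
theorem avg_neu [Fintype Xn] [Fintype Xp] [Nonempty Xn] (hR : Stmt_RSM) (hM : g + n * K ≤ M)
    (hinj : ∀ ω : Ply M Xn Xp, Function.Injective (cel hM ω))
    (F : Ply M Xn Xp → (Fin n × Fin K → Xn) → ℝ)
    (hF : ∀ (π : Equiv.Perm (Fin M)) (χ χ' : Fin M → Xn) (τ : Fin M → Xp) (x : Fin n × Fin K → Xn),
      (∀ w, (∀ z, cel (Xn := Xn) (Xp := Xp) hM (π, χ, τ) z ≠ w) → χ w = χ' w) →
        F (π, χ, τ) x = F (π, χ', τ) x) :
    ∑ ω : Ply M Xn Xp, ∑ x : Fin n × Fin K → Xn, F ω x =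
      (Fintype.card (Fin n × Fin K → Xn) : ℝ) *
        ∑ ω : Ply M Xn Xp, F ω fun x => ω.2.1 (cel hM ω x) := by
  rw [Fintype.sum_prod_type, Fintype.sum_prod_type, Finset.mul_sum]
  refine Finset.sum_congr rfl fun π _ => ?_
  rw [Fintype.sum_prod_type, Fintype.sum_prod_type, Finset.sum_comm,
    Finset.sum_comm (f := fun (χ : Fin M → Xn) (τ : Fin M → Xp) =>
      F (π, χ, τ) fun x => ((π, χ, τ) : Ply M Xn Xp).2.1 (cel hM (π, χ, τ) x)), Finset.mul_sum]
  refine Finset.sum_congr rfl fun τ _ => ?_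
  have h := hR (Fin n × Fin K) (Fin M) Xn
    (fun c => cel (Xn := Xn) (Xp := Xp) hM (π, fun _ => Classical.arbitrary Xn, τ) c)
    (fun a b hab => hinj _ hab) (fun x f => F (π, f, τ) x)
    (fun x f f' hff => hF π f f' τ x fun w hw => hff w fun a => hw a)
  rw [← Nat.cast_pow] at h
  rw [Fintype.card_fun]
  exact h

/-- The change of the permutation. -/
def avg_eq (σ : Equiv.Perm (Fin M)) : Ply M Xn Xp ≃ Ply M Xn Xp :=
  (Equiv.mulRight σ).prodCongr (Equiv.refl _)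

theorem avg_comp [Fintype Xn] [Fintype Xp] (σ : Equiv.Perm (Fin M)) (F : Ply M Xn Xp → ℝ) :
    ∑ ω : Ply M Xn Xp, F (ω.1 * σ, ω.2) = ∑ ω : Ply M Xn Xp, F ω :=
  Equiv.sum_comp (avg_eq σ) F

end

theorem AVG_thm : Stmt_AVG := by
  intro hR hC M n K m Xn Xp _ _ _ _ δ₁ δ₂ S0 Q X hn hK hyp1 hyp2 hQ g l hg hl
  have hM : g + n * K ≤ M := by omega
  obtain ⟨C0, C0', C1, C2, C3⟩ := hC M n K m g l Xn Xp hM hn hK hg hl
  have hinj : ∀ ω : Ply M Xn Xp, Function.Injective (cel hM ω) := fun ω => (C0 ω).1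
  rw [avg_card, avg_card, avg_card]
  set L : ℝ := ∑ ω : Ply M Xn Xp, avg_ind (¬ X (conf m ω g (l + n - 1)) (conf m ω g (l + n)))
    with hL
  set T1 : ℝ := ∑ ω : Ply M Xn Xp, avg_ind (¬ Q (conf m ω g l) (conf m ω (g + n * K) l)) with hT1
  set T2 : ℝ := ∑ ω : Ply M Xn Xp,
    avg_ind (¬ Q (conf m ω g (l + n - 1)) (conf m ω (g + n * K) (l + n - 1))) with hT2
  set N : ℝ := (Fintype.card (Ply M Xn Xp) : ℝ) with hN
  -- the three indicators
  let f1 : Ply M Xn Xp → (Fin n → Fin K × Xp) → ℝ := fun ω y =>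
    avg_ind (¬ S0 (conf m ω g l) (put (cel hM ω) (sA y) (conf m ω g l)))
  let f2 : Ply M Xn Xp → (Fin n × Fin K → Xn) → ℝ := fun ω χ =>
    avg_ind (¬ Q (conf m ω g l) (put (cel hM ω) (sN χ) (conf m ω g l)))
  let f3 : Ply M Xn Xp → (Fin n → Fin K × Xp) → Fin n → (Fin n × Fin K → Xn) → ℝ :=
    fun ω y i χ => avg_ind (S0 (conf m ω g l) (put (cel hM ω) (sA y) (conf m ω g l)) ∧
      Q (put (cel hM ω) (sM y i) (conf m ω g l)) (put (cel hM ω) (sB y i χ) (conf m ω g l)) ∧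
      ¬ X (put (cel hM ω) (sM y i) (conf m ω g l)) (put (cel hM ω) (sA y) (conf m ω g l)))
  -- one pair `(κ, i)`
  have step : ∀ (κ : Fin n → Fin K) (i : Fin n), L ≤
      (∑ ω : Ply M Xn Xp, f1 ω fun c => (κ c, ω.2.2 (cel hM ω (c, κ c)))) + T2 +
      ∑ ω : Ply M Xn Xp, f3 ω (fun c => (κ c, ω.2.2 (cel hM ω (c, κ c)))) i
        fun x => ω.2.1 (cel hM ω x) := by
    intro κ i
    obtain ⟨σ, h1⟩ := C1 κ i
    obtain ⟨σ', h2⟩ := C2 κ i
    have e1 : L = ∑ ω : Ply M Xn Xp,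
        avg_ind (¬ X (conf m (ω.1 * σ, ω.2) g (l + n - 1)) (conf m (ω.1 * σ, ω.2) g (l + n))) :=
      (avg_comp σ fun ω => avg_ind (¬ X (conf m ω g (l + n - 1)) (conf m ω g (l + n)))).symm
    have e2 : T2 = ∑ ω : Ply M Xn Xp, avg_ind (¬ Q (conf m (ω.1 * σ', ω.2) g (l + n - 1))
        (conf m (ω.1 * σ', ω.2) (g + n * K) (l + n - 1))) :=
      (avg_comp σ' fun ω =>
        avg_ind (¬ Q (conf m ω g (l + n - 1)) (conf m ω (g + n * K) (l + n - 1)))).symm
    rw [e1, e2, ← Finset.sum_add_distrib, ← Finset.sum_add_distrib]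
    refine Finset.sum_le_sum fun ω _ => ?_
    refine avg_ind_le3 ?_
    intro hX
    rw [← (h1 ω).1, ← (h1 ω).2] at hX
    by_cases hS : S0 (conf m ω g l)
        (put (cel hM ω) (sA fun c => (κ c, ω.2.2 (cel hM ω (c, κ c)))) (conf m ω g l))
    · right
      by_cases hq : Q (conf m (ω.1 * σ', ω.2) g (l + n - 1))
          (conf m (ω.1 * σ', ω.2) (g + n * K) (l + n - 1))
      · right
        refine ⟨hS, ?_, hX⟩
        have h3 := hQ _ _ _ (h2 ω).2.1 (h2 ω).2.2 hq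
        rw [← (h2 ω).1] at h3
        exact h3
      · left
        exact hq
    · left
      exact hS
  -- the cardinalities
  have cxp : (0 : ℝ) < (Fintype.card Xp : ℝ) ^ n := by
    have : (0 : ℝ) < Fintype.card Xp := by exact_mod_cast Fintype.card_pos
    positivity
  have cχ : (0 : ℝ) < (Fintype.card (Fin n × Fin K → Xn) : ℝ) := by
    exact_mod_cast Fintype.card_pos
  have cK : (0 : ℝ) < (K : ℝ) ^ n := by
    have : (0 : ℝ) < (K : ℝ) := by exact_mod_cast hK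
    positivity
  have cn : (0 : ℝ) < (n : ℝ) := by exact_mod_cast hn
  have cy : (Fintype.card (Fin n → Fin K × Xp) : ℝ) = (K : ℝ) ^ n * (Fintype.card Xp : ℝ) ^ n := by
    rw [Fintype.card_fun, Fintype.card_prod, Fintype.card_fin, Fintype.card_fin]
    push_cast
    rw [mul_pow]
  have hR1 : ∀ (π : Equiv.Perm (Fin M)) (χ : Fin M → Xn) (τ τ' : Fin M → Xp),
      (∀ w, (∀ z, cel (Xn := Xn) (Xp := Xp) hM (π, χ, τ) z ≠ w) → τ w = τ' w) →
        conf m (π, χ, τ) g l = conf m (π, χ, τ') g l := fun π χ τ τ' h =>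
    C0' π χ χ τ τ' fun w hw => ⟨rfl, h w hw⟩
  have hR2 : ∀ (π : Equiv.Perm (Fin M)) (χ χ' : Fin M → Xn) (τ : Fin M → Xp),
      (∀ w, (∀ z, cel (Xn := Xn) (Xp := Xp) hM (π, χ, τ) z ≠ w) → χ w = χ' w) →
        conf m (π, χ, τ) g l = conf m (π, χ', τ) g l := fun π χ χ' τ h =>
    C0' π χ χ' τ τ fun w hw => ⟨h w hw, rfl⟩
  have hc1 : ∀ (π : Equiv.Perm (Fin M)) (χ : Fin M → Xn) (τ τ' : Fin M → Xp),
      cel (Xn := Xn) (Xp := Xp) hM (π, χ, τ) = cel (Xn := Xn) (Xp := Xp) hM (π, χ, τ') :=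
    fun _ _ _ _ => rfl
  have hc2 : ∀ (π : Equiv.Perm (Fin M)) (χ χ' : Fin M → Xn) (τ : Fin M → Xp),
      cel (Xn := Xn) (Xp := Xp) hM (π, χ, τ) = cel (Xn := Xn) (Xp := Xp) hM (π, χ', τ) :=
    fun _ _ _ _ => rfl
  -- the first term
  have k1 : ∑ κ : Fin n → Fin K,
      ∑ ω : Ply M Xn Xp, f1 ω (fun c => (κ c, ω.2.2 (cel hM ω (c, κ c)))) ≤
      (K : ℝ) ^ n * (4 * T1 + δ₁ * N) := by
    have a1 : (Fintype.card Xp : ℝ) ^ n * ∑ κ : Fin n → Fin K,
        ∑ ω : Ply M Xn Xp, f1 ω (fun c => (κ c, ω.2.2 (cel hM ω (c, κ c)))) =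
        ∑ ω : Ply M Xn Xp, ∑ y, f1 ω y := by
      rw [Finset.mul_sum]
      simp only [avg_split]
      rw [Finset.sum_comm (s := (univ : Finset (Ply M Xn Xp)))]
      refine Finset.sum_congr rfl fun κ _ => ?_
      refine (avg_pos hR hM hinj κ (fun ω t => f1 ω fun c => (κ c, t c)) ?_).symm
      intro π χ τ τ' x h
      simp only [f1]
      rw [hR1 π χ τ τ' h, hc1 π χ τ τ']
    have a2 : ∑ ω : Ply M Xn Xp, ∑ χ, f2 ω χ =
        (Fintype.card (Fin n × Fin K → Xn) : ℝ) * T1 := by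
      rw [avg_neu hR hM hinj f2 (by
        intro π χ χ' τ x h
        simp only [f2]
        rw [hR2 π χ χ' τ h, hc2 π χ χ' τ])]
      congr 1
      refine Finset.sum_congr rfl fun ω _ => ?_
      simp only [f2]
      rw [C3 ω]
    have a3 : ∀ ω : Ply M Xn Xp, ∑ y, f1 ω y ≤
        (4 * (∑ χ, f2 ω χ) / (Fintype.card (Fin n × Fin K → Xn) : ℝ) + δ₁) *
          ((K : ℝ) ^ n * (Fintype.card Xp : ℝ) ^ n) := by
      intro ω
      have h := hyp1 (conf m ω g l) (cel hM ω) (hinj ω) (C0 ω).2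
      rw [avg_card, avg_card, cy] at h
      exact h
    have a4 := Finset.sum_le_sum fun (ω : Ply M Xn Xp) (_ : ω ∈ univ) => a3 ω
    rw [← a1, ← Finset.sum_mul, Finset.sum_add_distrib, ← Finset.sum_div, ← Finset.mul_sum, a2,
      Finset.sum_const, Finset.card_univ, nsmul_eq_mul] at a4
    have a5 : 4 * ((Fintype.card (Fin n × Fin K → Xn) : ℝ) * T1) /
        (Fintype.card (Fin n × Fin K → Xn) : ℝ) = 4 * T1 := by
      field_simp
    rw [a5] at a4
    refine le_of_mul_le_mul_left (a4.trans (le_of_eq ?_)) cxp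
    rw [hN]
    ring
  -- the third term
  have k3 : ∑ κ : Fin n → Fin K, ∑ i : Fin n,
      ∑ ω : Ply M Xn Xp, f3 ω (fun c => (κ c, ω.2.2 (cel hM ω (c, κ c)))) i
        (fun x => ω.2.1 (cel hM ω x)) ≤ (K : ℝ) ^ n * n * (δ₂ * N) := by
    have a1 : ((Fintype.card (Fin n × Fin K → Xn) : ℝ) * (Fintype.card Xp : ℝ) ^ n) *
        ∑ κ : Fin n → Fin K, ∑ i : Fin n,
        ∑ ω : Ply M Xn Xp, f3 ω (fun c => (κ c, ω.2.2 (cel hM ω (c, κ c)))) i
          (fun x => ω.2.1 (cel hM ω x)) =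
        ∑ ω : Ply M Xn Xp, ∑ y, ∑ i, ∑ χ, f3 ω y i χ := by
      simp only [avg_split]
      rw [Finset.sum_comm (s := (univ : Finset (Ply M Xn Xp))), Finset.mul_sum]
      refine Finset.sum_congr rfl fun κ _ => ?_
      have b1 : ∀ ω : Ply M Xn Xp, ∑ t : Fin n → Xp, ∑ i, ∑ χ, f3 ω (fun c => (κ c, t c)) i χ =
          ∑ i, ∑ χ, ∑ t : Fin n → Xp, f3 ω (fun c => (κ c, t c)) i χ := by
        intro ω
        rw [Finset.sum_comm]
        refine Finset.sum_congr rfl fun i _ => ?_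
        rw [Finset.sum_comm]
      simp only [b1]
      rw [Finset.sum_comm (s := (univ : Finset (Ply M Xn Xp))), Finset.mul_sum]
      refine Finset.sum_congr rfl fun i _ => ?_
      rw [avg_neu hR hM hinj (fun ω χ => ∑ t : Fin n → Xp, f3 ω (fun c => (κ c, t c)) i χ) (by
        intro π χ χ' τ x h
        simp only [f3]
        rw [hR2 π χ χ' τ h, hc2 π χ χ' τ]),
        avg_pos hR hM hinj κ (fun ω t => f3 ω (fun c => (κ c, t c)) i
          fun x => ω.2.1 (cel hM ω x)) (by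
        intro π χ τ τ' x h
        simp only [f3]
        rw [hR1 π χ τ τ' h, hc1 π χ τ τ'])]
      ring
    have a3 : ∀ ω : Ply M Xn Xp, ∑ y, ∑ i, ∑ χ, f3 ω y i χ ≤
        δ₂ * (((K : ℝ) ^ n * (Fintype.card Xp : ℝ) ^ n) *
          (n * (Fintype.card (Fin n × Fin K → Xn) : ℝ))) := by
      intro ω
      have h := hyp2 (conf m ω g l) (cel hM ω) (hinj ω) (C0 ω).2
      rw [avg_card, Fintype.card_prod, Fintype.card_prod, Nat.cast_mul, Nat.cast_mul, cy,
        Fintype.card_fin, Fintype.sum_prod_type] at h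
      refine le_trans (le_of_eq ?_) h
      refine Finset.sum_congr rfl fun y _ => ?_
      rw [Fintype.sum_prod_type]
    have a4 := Finset.sum_le_sum fun (ω : Ply M Xn Xp) (_ : ω ∈ univ) => a3 ω
    rw [← a1, Finset.sum_const, Finset.card_univ, nsmul_eq_mul] at a4
    refine le_of_mul_le_mul_left (a4.trans (le_of_eq ?_)) (mul_pos cχ cxp)
    rw [hN]
    ring
  -- the sum over all pairs
  have hs := Finset.sum_le_sum fun (κ : Fin n → Fin K) (_ : κ ∈ univ) =>
    Finset.sum_le_sum fun (i : Fin n) (_ : i ∈ univ) => step κ i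
  simp only [Finset.sum_add_distrib, Finset.sum_const, Finset.card_univ, nsmul_eq_mul,
    Fintype.card_fin, Fintype.card_fun, Nat.cast_pow] at hs
  rw [← Finset.mul_sum] at hs
  have hnK : (0 : ℝ) < (K : ℝ) ^ n * n := mul_pos cK cn
  refine le_of_mul_le_mul_left ?_ hnK
  have k1' := mul_le_mul_of_nonneg_left k1 cn.le
  nlinarith [hs, k1', k3]

end Pool.Agent.S2C
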