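import Pool.Agent.S2C.Stmts

/-!
# CFA: the configurations and the cells
-/

set_option autoImplicit false

namespace Pool.Agent.S2C

open Finset
open Pool.Agent.NBC (St)

namespace CFAX

open Classical in
/-- The involution which exchanges `a c` and `b c`. -/
theorem exists_swap {ι α : Type} (a b : ι → α) (ha : Function.Injective a)
    (hb : Function.Injective b) (hab : ∀ c c', a c ≠ b c') :
    ∃ σ : Equiv.Perm α, (∀ c, σ.symm (a c) = b c) ∧ (∀ c, σ.symm (b c) = a c) ∧
      ∀ r, (∀ c, a c ≠ r) → (∀ c, b c ≠ r) → σ.symm r = r := by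
  let f : α → α := fun r => if h : ∃ c, a c = r then b h.choose else
    if h : ∃ c, b c = r then a h.choose else r
  have f1 : ∀ c, f (a c) = b c := by
    intro c
    have h : ∃ c', a c' = a c := ⟨c, rfl⟩
    have h1 : f (a c) = b h.choose := dif_pos h
    rw [h1, ha h.choose_spec]
  have f2 : ∀ c, f (b c) = a c := by
    intro c
    have h0 : ¬ ∃ c', a c' = b c := fun ⟨c', h⟩ => hab c' c h
    have h : ∃ c', b c' = b c := ⟨c, rfl⟩
    have h1 : f (b c) = a h.choose := (dif_neg h0).trans (dif_pos h)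
    rw [h1, hb h.choose_spec]
  have f3 : ∀ r, (∀ c, a c ≠ r) → (∀ c, b c ≠ r) → f r = r := by
    intro r h1 h2
    exact (dif_neg (fun ⟨c, h⟩ => h1 c h)).trans (dif_neg (fun ⟨c, h⟩ => h2 c h))
  have hf : Function.Involutive f := by
    intro r
    by_cases h1 : ∃ c, a c = r
    · obtain ⟨c, rfl⟩ := h1
      rw [f1, f2]
    · by_cases h2 : ∃ c, b c = r
      · obtain ⟨c, rfl⟩ := h2
        rw [f2, f1]
      · rw [f3 r (fun c h => h1 ⟨c, h⟩) (fun c h => h2 ⟨c, h⟩),
          f3 r (fun c h => h1 ⟨c, h⟩) (fun c h => h2 ⟨c, h⟩)]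
  exact ⟨hf.toPerm f, f1, f2, f3⟩

section

variable {M n K m g l : ℕ} {Xn Xp : Type}

/-- The role of the window number `x.2` of the cell `x.1`. -/
def role (h : g + n * K ≤ M) (x : Fin n × Fin K) : Fin M :=
  ⟨g + finProdFinEquiv x, by have := (finProdFinEquiv x).2; omega⟩

theorem role_le (h : g + n * K ≤ M) (x : Fin n × Fin K) : g ≤ (role h x : ℕ) :=
  Nat.le_add_right _ _

theorem role_lt (h : g + n * K ≤ M) (x : Fin n × Fin K) : (role h x : ℕ) < g + n * K :=
  Nat.add_lt_add_left (finProdFinEquiv x).2 g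

theorem role_injective (h : g + n * K ≤ M) : Function.Injective (role (M := M) h) := by
  intro x y hxy
  have h1 : g + (finProdFinEquiv x : ℕ) = g + (finProdFinEquiv y : ℕ) := congrArg Fin.val hxy
  exact finProdFinEquiv.injective (Fin.ext (by omega))

theorem exists_role (h : g + n * K ≤ M) (r : Fin M) (h1 : g ≤ (r : ℕ))
    (h2 : (r : ℕ) < g + n * K) : ∃ x, role h x = r := by
  refine ⟨finProdFinEquiv.symm ⟨(r : ℕ) - g, by omega⟩, Fin.ext ?_⟩
  show g + (finProdFinEquiv (finProdFinEquiv.symm _) : ℕ) = _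
  rw [Equiv.apply_symm_apply]
  show g + ((r : ℕ) - g) = r
  omega

theorem cel_eq (h : g + n * K ≤ M) (ω : Ply M Xn Xp) (x : Fin n × Fin K) :
    cel h ω x = ω.1 (role h x) := rfl

theorem cel_injective (h : g + n * K ≤ M) (ω : Ply M Xn Xp) :
    Function.Injective (cel h ω) := fun _ _ hxy =>
  role_injective h (ω.1.injective hxy)

theorem put_cel (h : g + n * K ≤ M) (ω : Ply M Xn Xp) (st : Fin n × Fin K → St Xn Xp)
    (a : Fin M → St Xn Xp) (x : Fin n × Fin K) :
    put (cel h ω) st a (ω.1 (role h x)) = st x :=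
  (cel_injective h ω).extend_apply st a x

theorem put_out (h : g + n * K ≤ M) (ω : Ply M Xn Xp) (st : Fin n × Fin K → St Xn Xp)
    (a : Fin M → St Xn Xp) (r : Fin M) (hr : ¬ (g ≤ (r : ℕ) ∧ (r : ℕ) < g + n * K)) :
    put (cel h ω) st a (ω.1 r) = a (ω.1 r) := by
  refine Function.extend_apply' st a (ω.1 r) ?_
  rintro ⟨x, hx⟩
  have h1 : role h x = r := ω.1.injective hx
  subst h1
  exact hr ⟨role_le h x, role_lt h x⟩

theorem conf_role (ω : Ply M Xn Xp) (σ : Equiv.Perm (Fin M)) (g l : ℕ) (r : Fin M) :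
    conf m (ω.1 * σ, ω.2) g l (ω.1 r) = if (σ.symm r : ℕ) < g then St.neu (ω.2.1 (ω.1 r))
      else if m ≤ (σ.symm r : ℕ) ∧ (σ.symm r : ℕ) < m + l then St.pos (ω.2.2 (ω.1 r))
      else St.emp := by
  have h1 : (ω.1 * σ).symm (ω.1 r) = σ.symm r := by
    rw [Equiv.symm_apply_eq]
    show ω.1 r = ω.1 (σ (σ.symm r))
    rw [Equiv.apply_symm_apply]
  unfold conf
  show (if ((ω.1 * σ).symm (ω.1 r) : ℕ) < g then _ else _) = _
  rw [h1]

theorem conf_one (ω : Ply M Xn Xp) (g l : ℕ) (r : Fin M) :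
    conf m ω g l (ω.1 r) = if (r : ℕ) < g then St.neu (ω.2.1 (ω.1 r))
      else if m ≤ (r : ℕ) ∧ (r : ℕ) < m + l then St.pos (ω.2.2 (ω.1 r))
      else St.emp := by
  unfold conf
  rw [Equiv.symm_apply_apply]

/-- The numbers of the new positive roles. -/
def lst (hn : 0 < n) : Fin n := ⟨n - 1, by omega⟩

/-- The role `m + l + ρ c`. -/
def brole (hml : m + l + n ≤ M) (ρ : Equiv.Perm (Fin n)) (c : Fin n) : Fin M :=
  ⟨m + l + ρ c, by have := (ρ c).2; omega⟩

open Classical in
/-- The exchange of some roles. -/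
theorem main (hM : g + n * K ≤ M) (hgm : g + n * K ≤ m) (hml : m + l + n ≤ M)
    (κ : Fin n → Fin K) (ρ : Equiv.Perm (Fin n)) (C : Set (Fin n)) :
    ∃ σ : Equiv.Perm (Fin M), (∀ c ∈ C, σ.symm (role hM (c, κ c)) = brole hml ρ c) ∧
      (∀ c ∈ C, σ.symm (brole hml ρ c) = role hM (c, κ c)) ∧
      ∀ r, (∀ c ∈ C, role hM (c, κ c) ≠ r) → (∀ c ∈ C, brole hml ρ c ≠ r) →
        σ.symm r = r := by
  obtain ⟨σ, h1, h2, h3⟩ := exists_swap (fun c : C => role hM (c.1, κ c.1))
    (fun c : C => brole hml ρ c.1) (fun c c' h => by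
      have := role_injective hM h
      exact Subtype.ext (congrArg Prod.fst this)) (fun c c' h => by
      have h4 : m + l + (ρ c.1 : ℕ) = m + l + (ρ c'.1 : ℕ) := congrArg Fin.val h
      exact Subtype.ext (ρ.injective (Fin.ext (by omega)))) (fun c c' h => by
      have h4 : (role hM (c.1, κ c.1) : ℕ) = m + l + (ρ c'.1 : ℕ) := congrArg Fin.val h
      have h5 := role_lt hM (c.1, κ c.1)
      omega)
  exact ⟨σ, fun c hc => h1 ⟨c, hc⟩, fun c hc => h2 ⟨c, hc⟩, fun r h4 h5 =>
    h3 r (fun c => h4 c.1 c.2) (fun c => h5 c.1 c.2)⟩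

/-- A role in `[m + l, m + l + n)` is one of the new positive roles. -/
theorem exists_brole (hml : m + l + n ≤ M) (ρ : Equiv.Perm (Fin n)) (r : Fin M)
    (h1 : m + l ≤ (r : ℕ)) (h2 : (r : ℕ) < m + l + n) : ∃ c, brole hml ρ c = r := by
  refine ⟨ρ.symm ⟨(r : ℕ) - (m + l), by omega⟩, Fin.ext ?_⟩
  show m + l + (ρ (ρ.symm _) : ℕ) = _
  rw [Equiv.apply_symm_apply]
  show m + l + ((r : ℕ) - (m + l)) = r
  omega

open Classical in
/-- The equality of configurations. -/
theorem eq_conf (hM : g + n * K ≤ M) (hgm : g + n * K ≤ m) (hml : m + l + n ≤ M)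
    (κ : Fin n → Fin K) (ρ : Equiv.Perm (Fin n)) (C : Set (Fin n)) (l' : ℕ) (hl : l ≤ l')
    (hl' : l' ≤ l + n) (hC : ∀ c, c ∉ C → l' ≤ l + (ρ c : ℕ)) (σ : Equiv.Perm (Fin M))
    (h1 : ∀ c ∈ C, σ.symm (role hM (c, κ c)) = brole hml ρ c)
    (h2 : ∀ c ∈ C, σ.symm (brole hml ρ c) = role hM (c, κ c))
    (h3 : ∀ r, (∀ c ∈ C, role hM (c, κ c) ≠ r) → (∀ c ∈ C, brole hml ρ c ≠ r) → σ.symm r = r)
    (ω : Ply M Xn Xp) (st : Fin n × Fin K → St Xn Xp)
    (hst : ∀ x, st x = if x.2 = κ x.1 ∧ l + (ρ x.1 : ℕ) < l' then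
      St.pos (ω.2.2 (ω.1 (role hM x))) else St.emp) :
    put (cel hM ω) st (conf m ω g l) = conf m (ω.1 * σ, ω.2) g l' := by
  funext w
  obtain ⟨r, rfl⟩ := ω.1.surjective w
  rw [conf_role]
  by_cases hr : g ≤ (r : ℕ) ∧ (r : ℕ) < g + n * K
  · obtain ⟨⟨c, j⟩, rfl⟩ := exists_role hM r hr.1 hr.2
    rw [put_cel, hst]
    by_cases hj : j = κ c ∧ c ∈ C
    · obtain ⟨rfl, hc⟩ := hj
      rw [h1 c hc]
      have e1 : ((brole hml ρ c : Fin M) : ℕ) = m + l + (ρ c : ℕ) := rfl
      rw [e1, if_neg (show ¬ m + l + (ρ c : ℕ) < g by omega)]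
      by_cases hlt : l + (ρ c : ℕ) < l'
      · rw [if_pos ⟨rfl, hlt⟩, if_pos (by omega)]
      · rw [if_neg (fun h => hlt h.2), if_neg (by omega)]
    · have e2 : σ.symm (role hM (c, j)) = role hM (c, j) := by
        refine h3 _ (fun c' hc' h => ?_) (fun c' _ h => ?_)
        · have h4 := role_injective hM h
          have h5 : c' = c := congrArg Prod.fst h4
          subst h5
          exact hj ⟨(congrArg Prod.snd h4).symm, hc'⟩
        · have h4 : m + l + (ρ c' : ℕ) = (role hM (c, j) : ℕ) := congrArg Fin.val h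
          omega
      have e3 : ¬ (j = κ c ∧ l + (ρ c : ℕ) < l') := by
        rintro ⟨h4, h5⟩
        have h6 : c ∉ C := fun h6 => hj ⟨h4, h6⟩
        have := hC c h6
        omega
      rw [e2]
      refine (if_neg e3).trans ?_
      rw [if_neg (by omega), if_neg (by omega)]
  · rw [put_out hM ω _ _ r hr, conf_one]
    by_cases hb : ∃ c, brole hml ρ c = r
    · obtain ⟨c, rfl⟩ := hb
      have e1 : ((brole hml ρ c : Fin M) : ℕ) = m + l + (ρ c : ℕ) := rfl
      rw [e1, if_neg (show ¬ m + l + (ρ c : ℕ) < g by omega),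
        if_neg (show ¬ (m ≤ m + l + (ρ c : ℕ) ∧ m + l + (ρ c : ℕ) < m + l) by omega)]
      by_cases hc : c ∈ C
      · rw [h2 c hc]
        have h5 := role_lt hM (c, κ c)
        have h6 := role_le hM (c, κ c)
        rw [if_neg (by omega), if_neg (by omega)]
      · have e2 : σ.symm (brole hml ρ c) = brole hml ρ c := by
          refine h3 _ (fun c' _ h => ?_) (fun c' hc' h => ?_)
          · have h4 : (role hM (c', κ c') : ℕ) = m + l + (ρ c : ℕ) := congrArg Fin.val h
            have h5 := role_lt hM (c', κ c')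
            omega
          · have h4 : m + l + (ρ c' : ℕ) = m + l + (ρ c : ℕ) := congrArg Fin.val h
            have h5 : c' = c := ρ.injective (Fin.ext (by omega))
            subst h5
            exact hc hc'
        have := hC c hc
        rw [e2, e1, if_neg (by omega), if_neg (by omega)]
    · have e2 : σ.symm r = r := by
        refine h3 _ (fun c' _ h => ?_) (fun c' _ h => hb ⟨c', h⟩)
        subst h
        exact hr ⟨role_le hM _, role_lt hM _⟩
      rw [e2]
      by_cases hg : (r : ℕ) < g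
      · rw [if_pos hg, if_pos hg]
      · rw [if_neg hg, if_neg hg]
        by_cases hm : m ≤ (r : ℕ) ∧ (r : ℕ) < m + l
        · rw [if_pos hm, if_pos (by omega)]
        · rw [if_neg hm, if_neg]
          rintro ⟨h4, h5⟩
          exact hb (exists_brole hml ρ r (by omega) (by omega))

theorem rho_lt (hn : 0 < n) (i c : Fin n) :
    ((Equiv.swap i (lst hn) c : Fin n) : ℕ) < n - 1 ↔ c ≠ i := by
  have h1 := (Equiv.swap i (lst hn) c).2
  constructor
  · rintro h rfl
    rw [Equiv.swap_apply_left] at h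
    exact absurd h (lt_irrefl _)
  · intro h
    have h2 : Equiv.swap i (lst hn) c ≠ lst hn := by
      intro h3
      apply h
      exact (Equiv.swap i (lst hn)).injective
        (h3.trans (Equiv.swap_apply_left i (lst hn)).symm)
    have h3 : ((Equiv.swap i (lst hn) c : Fin n) : ℕ) ≠ n - 1 := fun h4 => h2 (Fin.ext h4)
    omega

/-- The states `sM`. -/
theorem sM_eq (hn : 0 < n) (hM : g + n * K ≤ M) (κ : Fin n → Fin K) (i : Fin n)
    (ω : Ply M Xn Xp) (x : Fin n × Fin K) :
    sM (Xn := Xn) (fun c => (κ c, ω.2.2 (cel hM ω (c, κ c)))) i x =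
      if x.2 = κ x.1 ∧ l + ((Equiv.swap i (lst hn) x.1 : Fin n) : ℕ) < l + n - 1 then
        St.pos (ω.2.2 (ω.1 (role hM x))) else St.emp := by
  obtain ⟨c, j⟩ := x
  have h1 := rho_lt hn i c
  unfold sM
  show (if c ≠ i ∧ j = κ c then _ else _) = if j = κ c ∧ _ then _ else _
  by_cases hc : c ≠ i ∧ j = κ c
  · obtain ⟨h2, rfl⟩ := hc
    have h3 := h1.2 h2
    have h3' : l + ((Equiv.swap i (lst hn) c : Fin n) : ℕ) < l + n - 1 := by omega
    rw [if_pos ⟨h2, rfl⟩, if_pos ⟨rfl, h3'⟩]
    rfl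
  · rw [if_neg hc, if_neg]
    rintro ⟨h2, h3⟩
    have h3' : l + ((Equiv.swap i (lst hn) c : Fin n) : ℕ) < l + n - 1 := h3
    exact hc ⟨h1.1 (by omega), h2⟩

end

end CFAX

open CFAX in
theorem CFA_thm : Stmt_CFA := by
  classical
  intro M n K m g l Xn Xp hM hn hK hgm hml
  refine ⟨fun ω => ⟨cel_injective hM ω, fun x => ?_⟩, fun π χ χ' τ τ' h => ?_, ?_, ?_, ?_⟩
  · rw [cel_eq, conf_one]
    have h5 := role_lt hM x
    have h6 := role_le hM x
    rw [if_neg (by omega), if_neg (by omega)]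
  · funext w
    obtain ⟨r, rfl⟩ := π.surjective w
    have e1 := conf_one (m := m) ((π, χ, τ) : Ply M Xn Xp) g l r
    have e2 := conf_one (m := m) ((π, χ', τ') : Ply M Xn Xp) g l r
    refine e1.trans (Eq.trans ?_ e2.symm)
    show (if (r : ℕ) < g then St.neu (χ (π r)) else if m ≤ (r : ℕ) ∧ (r : ℕ) < m + l then
      St.pos (τ (π r)) else St.emp) = if (r : ℕ) < g then St.neu (χ' (π r)) else
        if m ≤ (r : ℕ) ∧ (r : ℕ) < m + l then St.pos (τ' (π r)) else St.emp
    by_cases hr : g ≤ (r : ℕ) ∧ (r : ℕ) < g + n * K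
    · rw [if_neg (by omega), if_neg (by omega), if_neg (by omega), if_neg (by omega)]
    · obtain ⟨h1, h2⟩ := h (π r) (fun x hx => by
        have h3 : role hM x = r := π.injective hx
        subst h3
        exact hr ⟨role_le hM x, role_lt hM x⟩)
      rw [h1, h2]
  · intro κ i
    let ρ : Equiv.Perm (Fin n) := Equiv.swap i (lst hn)
    obtain ⟨σ, h1, h2, h3⟩ := main (K := K) hM hgm hml κ ρ Set.univ
    refine ⟨σ, fun ω => ⟨?_, ?_⟩⟩
    · refine eq_conf hM hgm hml κ ρ Set.univ (l + n) (by omega) le_rfl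
        (fun c hc => absurd (Set.mem_univ c) hc) σ h1 h2 h3 ω _ ?_
      rintro ⟨c, j⟩
      have hρ := (ρ c).2
      unfold sA
      show (if j = κ c then _ else _) = if j = κ c ∧ l + (ρ c : ℕ) < l + n then _ else _
      by_cases hj : j = κ c
      · subst hj
        rw [if_pos rfl, if_pos ⟨rfl, by omega⟩]
        rfl
      · rw [if_neg hj, if_neg (fun h => hj h.1)]
    · exact eq_conf hM hgm hml κ ρ Set.univ (l + n - 1) (by omega) (by omega)
        (fun c hc => absurd (Set.mem_univ c) hc) σ h1 h2 h3 ω _ (sM_eq hn hM κ i ω)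
  · intro κ i
    let ρ : Equiv.Perm (Fin n) := Equiv.swap i (lst hn)
    obtain ⟨σ, h1, h2, h3⟩ := main (K := K) hM hgm hml κ ρ {c | c ≠ i}
    have hC : ∀ c, c ∉ {c : Fin n | c ≠ i} → l + n - 1 ≤ l + (ρ c : ℕ) := by
      intro c hc
      have hc' : c = i := not_not.1 hc
      subst hc'
      have h4 : ρ c = lst hn := Equiv.swap_apply_left c (lst hn)
      rw [h4]
      show l + n - 1 ≤ l + (n - 1)
      omega
    refine ⟨σ, fun ω => ?_⟩
    have e1 := eq_conf hM hgm hml κ ρ {c | c ≠ i} (l + n - 1) (by omega) (by omega)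
        hC σ h1 h2 h3 ω _ (sM_eq hn hM κ i ω)
    refine ⟨e1, ?_, ?_⟩
    · rw [← e1]
      intro w
      obtain ⟨r, rfl⟩ := ω.1.surjective w
      by_cases hr : g ≤ (r : ℕ) ∧ (r : ℕ) < g + n * K
      · obtain ⟨⟨c, j⟩, rfl⟩ := exists_role hM r hr.1 hr.2
        rw [put_cel, put_cel]
        unfold sM sB
        show (if c ≠ i ∧ j = κ c then _ else _) = _ ∨
          (if c ≠ i ∧ j = κ c then _ else _) = if c ≠ i ∧ j = κ c then _ else _
        by_cases hc : c ≠ i ∧ j = κ c
        · right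
          rw [if_pos hc, if_pos hc]
        · left
          rw [if_neg hc]
      · right
        rw [put_out hM ω _ _ r hr, put_out hM ω _ _ r hr]
    · intro w
      obtain ⟨r, rfl⟩ := ω.1.surjective w
      rw [conf_role]
      by_cases hr : g ≤ (r : ℕ) ∧ (r : ℕ) < g + n * K
      · right
        obtain ⟨⟨c, j⟩, rfl⟩ := exists_role hM r hr.1 hr.2
        rw [put_cel]
        unfold sB
        show (if c ≠ i ∧ j = κ c then _ else _) = _
        by_cases hc : c ≠ i ∧ j = κ c
        · obtain ⟨h4, rfl⟩ := hc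
          have h5 := (rho_lt hn i c).2 h4
          have h5' : (ρ c : ℕ) < n - 1 := h5
          have e2 : ((brole hml ρ c : Fin M) : ℕ) = m + l + (ρ c : ℕ) := rfl
          rw [if_pos ⟨h4, rfl⟩, h1 c h4, e2, if_neg (by omega), if_pos (by omega)]
          rfl
        · have e2 : σ.symm (role hM (c, j)) = role hM (c, j) := by
            refine h3 _ (fun c' hc' h => ?_) (fun c' _ h => ?_)
            · have h4 := role_injective hM h
              have h5 : c' = c := congrArg Prod.fst h4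
              subst h5
              exact hc ⟨hc', (congrArg Prod.snd h4).symm⟩
            · have h4 : m + l + (ρ c' : ℕ) = (role hM (c, j) : ℕ) := congrArg Fin.val h
              omega
          rw [if_neg hc, e2, if_pos hr.2]
          rfl
      · rw [put_out hM ω _ _ r hr, conf_one]
        by_cases hg : (r : ℕ) < g
        · right
          have e2 : σ.symm r = r := by
            refine h3 _ (fun c' _ h => ?_) (fun c' _ h => ?_)
            · subst h
              exact hr ⟨role_le hM _, role_lt hM _⟩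
            · have h4 : m + l + (ρ c' : ℕ) = (r : ℕ) := congrArg Fin.val h
              omega
          rw [e2, if_pos hg, if_pos (by omega)]
        · rw [if_neg hg]
          by_cases hm : m ≤ (r : ℕ) ∧ (r : ℕ) < m + l
          · right
            have e2 : σ.symm r = r := by
              refine h3 _ (fun c' _ h => ?_) (fun c' _ h => ?_)
              · subst h
                exact hr ⟨role_le hM _, role_lt hM _⟩
              · have h4 : m + l + (ρ c' : ℕ) = (r : ℕ) := congrArg Fin.val h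
                omega
            rw [if_pos hm, e2, if_neg (by omega), if_pos (by omega)]
          · left
            rw [if_neg hm]
  · intro ω
    funext w
    obtain ⟨r, rfl⟩ := ω.1.surjective w
    rw [conf_one]
    by_cases hr : g ≤ (r : ℕ) ∧ (r : ℕ) < g + n * K
    · obtain ⟨x, rfl⟩ := exists_role hM r hr.1 hr.2
      rw [put_cel, if_pos hr.2]
      rfl
    · rw [put_out hM ω _ _ r hr, conf_one]
      by_cases hg : (r : ℕ) < g
      · rw [if_pos hg, if_pos (by omega)]
      · rw [if_neg hg, if_neg (show ¬ (r : ℕ) < g + n * K by omega)]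

end Pool.Agent.S2C
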