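import Pool.Agent.S2C.Stmts

/-!
# S2C, module CFB: order and number of positive tests of the random configurations
-/

set_option autoImplicit false

namespace Pool.Agent.S2C

open Finset Pool.Agent.NegLim Pool.Agent.NLM
open Pool.Agent.NBC (SameN St Tests)

theorem cfb_pos {M m : ℕ} {Xn Xp : Type} (ω : Ply M Xn Xp) (g l : ℕ) (hg : g ≤ m) (w : Fin M) :
    (∃ τ, conf m ω g l w = St.pos τ) ↔
      m ≤ (ω.1.symm w : ℕ) ∧ (ω.1.symm w : ℕ) < m + l := by
  unfold conf
  split_ifs with h1 h2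
  · constructor
    · rintro ⟨τ, h⟩
      cases h
    · rintro ⟨h, _⟩
      omega
  · exact ⟨fun _ => h2, fun _ => ⟨_, rfl⟩⟩
  · constructor
    · rintro ⟨τ, h⟩
      cases h
    · intro h
      exact absurd h h2

theorem cfb_cnt {M m : ℕ} {Xn Xp : Type} (ω : Ply M Xn Xp) (g l : ℕ) (hg : g ≤ m)
    (hM : m + l ≤ M) : cnt (conf m ω g l) = l := by
  classical
  obtain ⟨e, he⟩ : ∃ e : Fin l ↪ Fin M, ∀ i, e i = ω.1 ⟨m + i, by have := i.2; omega⟩ := by
    refine ⟨⟨fun i => ω.1 ⟨m + i, by have := i.2; omega⟩, ?_⟩, fun i => rfl⟩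
    intro i j hij
    have h1 := ω.1.injective hij
    rw [Fin.mk.injEq] at h1
    exact Fin.ext (by omega)
  have h : (univ : Finset (Fin M)).filter (fun w => ∃ τ, conf m ω g l w = St.pos τ) =
      (univ : Finset (Fin l)).map e := by
    ext w
    rw [mem_filter, cfb_pos ω g l hg, mem_map]
    constructor
    · rintro ⟨_, h1, h2⟩
      refine ⟨⟨(ω.1.symm w : ℕ) - m, by omega⟩, mem_univ _, ?_⟩
      rw [he, ← Equiv.eq_symm_apply]
      apply Fin.ext
      show m + ((ω.1.symm w : ℕ) - m) = _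
      omega
    · rintro ⟨i, _, rfl⟩
      refine ⟨mem_univ _, ?_⟩
      rw [he, Equiv.symm_apply_apply]
      have := i.2
      constructor
      · show m ≤ m + (i : ℕ)
        omega
      · show m + (i : ℕ) < m + l
        omega
  have h2 : ((univ : Finset (Fin l)).map e).card = l := by
    rw [Finset.card_map, Finset.card_fin]
  refine Eq.trans ?_ h2
  rw [← h]
  unfold cnt
  congr

theorem CFB_thm : Stmt_CFB := by
  intro M m Xn Xp ω g g' l l' hg hg' hl hM
  refine ⟨fun w => ?_, cfb_cnt ω g l (hg.trans hg') (by omega)⟩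
  by_cases h1 : (ω.1.symm w : ℕ) < g
  · right
    unfold conf
    rw [if_pos h1, if_pos (by omega)]
  · by_cases h2 : m ≤ (ω.1.symm w : ℕ) ∧ (ω.1.symm w : ℕ) < m + l
    · right
      unfold conf
      rw [if_neg h1, if_pos h2, if_neg (by omega), if_pos ⟨h2.1, by omega⟩]
    · left
      unfold conf
      rw [if_neg h1, if_neg h2]

end Pool.Agent.S2C
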