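import Pool.Agent.S2C.Stmts

/-!
# Project S2C, module RSM: averaging again over some coordinates
-/

set_option autoImplicit false

namespace Pool.Agent.S2C

theorem rsm_invol {A W X : Type} (ι : A → W) (hι : Function.Injective ι) :
    Function.Involutive (fun p : (W → X) × (A → X) =>
      (Function.extend ι p.2 p.1, fun a => p.1 (ι a))) := by
  rintro ⟨f, x⟩
  refine Prod.ext (funext fun w => ?_) (funext fun a => ?_)
  · by_cases h : ∃ a, ι a = w
    · obtain ⟨a, rfl⟩ := h
      simp only [hι.extend_apply]
    · simp only [Function.extend_apply' _ _ _ h]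
  · simp only [hι.extend_apply]

theorem RSM_thm : Stmt_RSM := by
  intro A W X _ _ _ _ _ ι hι F hF
  have h1 : ∑ p : (W → X) × (A → X), F p.2 p.1 =
      ∑ p : (W → X) × (A → X), F (fun a => p.1 (ι a)) p.1 := by
    refine Fintype.sum_equiv (Function.Involutive.toPerm _ (rsm_invol ι hι)) _ _ fun p => ?_
    show F p.2 p.1 = F (fun a => Function.extend ι p.2 p.1 (ι a)) (Function.extend ι p.2 p.1)
    rw [show (fun a => Function.extend ι p.2 p.1 (ι a)) = p.2 from
      funext fun a => hι.extend_apply _ _ a]
    refine hF _ _ _ fun w hw => ?_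
    rw [Function.extend_apply']
    rintro ⟨a, ha⟩
    exact hw a ha
  rw [Fintype.sum_prod_type, Fintype.sum_prod_type] at h1
  rw [h1, Finset.mul_sum]
  refine Finset.sum_congr rfl fun f _ => ?_
  simp

end Pool.Agent.S2C
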