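import Pool.Agent.S2C.Stmts
import Pool.Agent.NBC.DIC

/-!
# The approximation for all windows at once (module APS of S2C, MP_153864_lc)
-/

set_option autoImplicit false

namespace Pool.Agent.S2C

open Finset Pool.Agent.NegLim Pool.Agent.NLM
open Pool.Agent.NBC (SameN St Tests)
open Pool.Agent.NEG72 (AccP AccN card_eq_color)

namespace APSM

open Classical in
/-- at least half of the colourings are injective on a small set -/
lemma aps_inj {V : Type} [Fintype V] [DecidableEq V] (c : ℕ) (hc : 0 < c) (X : Finset V)
    (hX : X.card * (X.card - 1) ≤ c) :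
    2 * ((univ : Finset (V → Fin c)).filter fun χ => ¬ Set.InjOn χ (X : Set V)).card ≤
      (univ : Finset (V → Fin c)).card := by
  have h1 : 2 * ((univ : Finset (V → Fin c)).filter fun χ => ¬ Set.InjOn χ (X : Set V)).card ≤
      ∑ q ∈ X.offDiag, ((univ : Finset (V → Fin c)).filter fun χ => χ q.1 = χ q.2).card := by
    have h2 : ∑ q ∈ X.offDiag, ((univ : Finset (V → Fin c)).filter fun χ => χ q.1 = χ q.2).card =
        ∑ χ : V → Fin c, (X.offDiag.filter fun q => χ q.1 = χ q.2).card := by
      simp only [Finset.card_filter]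
      exact Finset.sum_comm
    rw [h2]
    have h3 : ∑ χ ∈ (univ : Finset (V → Fin c)).filter (fun χ => ¬ Set.InjOn χ (X : Set V)), 2 ≤
        ∑ χ ∈ (univ : Finset (V → Fin c)).filter (fun χ => ¬ Set.InjOn χ (X : Set V)),
          (X.offDiag.filter fun q => χ q.1 = χ q.2).card := by
      refine Finset.sum_le_sum fun χ hχ => ?_
      have h4 := (mem_filter.1 hχ).2
      unfold Set.InjOn at h4
      push Not at h4
      obtain ⟨u, hu, v, hv, h5, h6⟩ := h4
      have h7 : ({(u, v), (v, u)} : Finset (V × V)) ⊆
          X.offDiag.filter fun q => χ q.1 = χ q.2 := by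
        intro q hq
        rw [mem_insert, mem_singleton] at hq
        rw [mem_filter, mem_offDiag]
        rcases hq with rfl | rfl
        · exact ⟨⟨hu, hv, h6⟩, h5⟩
        · exact ⟨⟨hv, hu, fun h => h6 h.symm⟩, h5.symm⟩
      have h8 : ({(u, v), (v, u)} : Finset (V × V)).card = 2 := by
        rw [Finset.card_pair]
        intro h
        exact h6 (Prod.mk.inj h).1
      rw [← h8]
      exact Finset.card_le_card h7
    rw [Finset.sum_const, smul_eq_mul, mul_comm] at h3
    refine h3.trans ?_
    exact Finset.sum_le_sum_of_subset (Finset.filter_subset _ _)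
  have h2 : (∑ q ∈ X.offDiag,
      ((univ : Finset (V → Fin c)).filter fun χ => χ q.1 = χ q.2).card) * c ≤
      c * (univ : Finset (V → Fin c)).card := by
    rw [Finset.sum_mul]
    calc ∑ q ∈ X.offDiag, ((univ : Finset (V → Fin c)).filter fun χ => χ q.1 = χ q.2).card * c
        ≤ ∑ q ∈ X.offDiag, (univ : Finset (V → Fin c)).card := by
          refine Finset.sum_le_sum fun q hq => ?_
          rw [mem_offDiag] at hq
          exact card_eq_color univ hq.2.2 fun χ _ a => mem_univ _
      _ = X.offDiag.card * (univ : Finset (V → Fin c)).card := by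
          rw [Finset.sum_const, smul_eq_mul]
      _ ≤ c * (univ : Finset (V → Fin c)).card := by
          refine Nat.mul_le_mul_right _ ?_
          rw [Finset.offDiag_card, ← Nat.mul_sub_one]
          exact hX
  have h3 := Nat.mul_le_mul_right c h1
  have h4 := h3.trans h2
  rw [mul_comm c _] at h4
  exact Nat.le_of_mul_le_mul_right h4 hc

end APSM

open APSM

open Classical in
theorem APS_thm : Stmt_APS := by
  intro W E P _ _ _ k b h p S T hDis hCL hh hk2 hk hp hb D pos hposD hcnt f hf
  have hk0 : 0 < k - 1 := by omega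
  have hb0 : 0 < b := by
    have : 0 < p * (2 * h) := by positivity
    omega
  obtain ⟨A, BP, BN, a1, a2, a3, a4, a5, a6⟩ :=
    Pool.Agent.NPP.APP_thm Pool.Agent.NPP.PLK_thm (W × (Fin k × Fin b)) E P
    (k - 1) h p b
    (fun π e => decide (∃ w, e ∈ T.B w ∧ ∃ τ, pos π w = some τ ∧ T.pos w τ e = true))
    (fun π => univ.filter fun y => ∃ τ, pos π y.1 = some τ ∧ τ y.2.1 = y.2.2)
    (fun χ e => decide (∃ w ∈ D, e ∈ T.B w ∧ T.neu w (fun x => χ (w, x)) e = true))
    hh hk hp hb (by
      intro e
      by_cases he : ∃ w ∈ D, e ∈ T.B w ∧ ∃ x y : Fin k × Fin b, x ≠ y ∧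
          (∀ τ, T.pos w τ e = true → τ x.1 = x.2 ∧ τ y.1 = y.2) ∧
          ∀ χ, χ x ≠ χ y → T.neu w χ e = true
      · obtain ⟨w, hwD, hwe, x, y, hxy, h1, h2⟩ := he
        refine ⟨{{(w, x), (w, y)}}, ?_, by simp, ?_, ?_⟩
        · intro X hX
          rw [mem_singleton] at hX
          rw [hX]
          exact Finset.card_le_two.trans (by omega)
        · intro π hπ
          rw [decide_eq_true_eq] at hπ
          obtain ⟨w', hw', τ, hτ, hτe⟩ := hπ
          have e1 : w' = w := hDis _ _ _ hw' hwe
          subst e1
          obtain ⟨h3, h4⟩ := h1 τ hτe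
          refine ⟨{(w', x), (w', y)}, by simp, ?_⟩
          intro a ha
          rw [mem_insert, mem_singleton] at ha
          rw [mem_filter]
          rcases ha with rfl | rfl
          · exact ⟨mem_univ _, τ, hτ, h3⟩
          · exact ⟨mem_univ _, τ, hτ, h4⟩
        · intro χ hχ
          obtain ⟨X, hX, hXχ⟩ := hχ
          rw [mem_singleton] at hX
          subst hX
          rw [decide_eq_true_eq]
          refine ⟨w, hwD, hwe, h2 _ fun h3 => hxy ?_⟩
          have h4 : ((w, x) : W × (Fin k × Fin b)) = (w, y) :=
            hXχ (by simp) (by simp) h3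
          exact (Prod.mk.inj h4).2
      · refine ⟨∅, by simp, by simp, ?_, ?_⟩
        · intro π hπ
          rw [decide_eq_true_eq] at hπ
          obtain ⟨w', hw', τ, hτ, hτe⟩ := hπ
          exfalso
          apply he
          refine ⟨w', ?_, hw', ?_⟩
          · by_contra hn
            rw [hposD π w' hn] at hτ
            exact absurd hτ (by simp)
          · rcases hCL w' e with h1 | ⟨x, y, h1, h2, h3⟩
            · rw [h1 τ] at hτe
              exact absurd hτe (by decide)
            · exact ⟨x, y, h1, h2, h3⟩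
        · intro χ hχ
          obtain ⟨X, hX, _⟩ := hχ
          simp at hX)
    (fun Y => by
      refine le_trans (Nat.mul_le_mul_right _ (Finset.card_le_card ?_)) (hcnt Y)
      intro π hπ
      rw [mem_filter] at hπ ⊢
      refine ⟨mem_univ _, fun y hy => ?_⟩
      have h1 := hπ.2 hy
      rw [mem_filter] at h1
      exact h1.2) f S hf
  -- the colourings
  have hcol : (k - 1) ^ Fintype.card (W × (Fin k × Fin b)) =
      Fintype.card (W → Fin k × Fin b → Fin (k - 1)) := by
    rw [← Fintype.card_congr (Equiv.curry W (Fin k × Fin b) (Fin (k - 1))), Fintype.card_fun,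
      Fintype.card_fin]
  have huniv : (univ : Finset (W × (Fin k × Fin b) → Fin (k - 1))).card =
      Fintype.card (W → Fin k × Fin b → Fin (k - 1)) := by
    rw [card_univ, Fintype.card_fun, Fintype.card_fin, hcol]
  rw [hcol] at a4
  refine ⟨?_, ?_⟩
  · intro hS hacc
    by_cases hsm : ∃ X ∈ A, X.card ≤ 1
    · obtain ⟨X, hX, hX1⟩ := hsm
      refine le_trans (Nat.mul_le_mul_right _ ?_) a4
      refine Finset.card_le_card_of_injOn (fun χ => fun v => χ v.1 v.2) ?_ ?_
      · intro χ hχ
        rw [mem_coe, mem_filter] at hχ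
        rw [mem_coe]
        by_contra hn
        have h3 := a6 _ hn ⟨X, hX, by
          intro a ha a' ha' _
          exact Finset.card_le_one.1 hX1 a (mem_coe.1 ha) a' (mem_coe.1 ha')⟩
        have h4 := hχ.2
        rw [h3] at h4
        exact absurd h4 (by decide)
      · intro χ _ χ' _ hχχ
        funext w x
        exact congrFun hχχ (w, x)
    · exfalso
      push Not at hsm
      have h2 : ((univ : Finset P).filter fun π => f (fun e => decide
          (∃ w, e ∈ T.B w ∧ ∃ τ, pos π w = some τ ∧ T.pos w τ e = true)) = true) ⊆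
          BP ∪ A.biUnion fun X => univ.filter fun π =>
            X ⊆ (univ.filter fun y => ∃ τ, pos π y.1 = some τ ∧ τ y.2.1 = y.2.2) := by
        intro π hπ
        by_cases hB : π ∈ BP
        · exact mem_union_left _ hB
        · obtain ⟨X, hX, hXK⟩ := a5 π hB (mem_filter.1 hπ).2
          exact mem_union_right _ (mem_biUnion.2 ⟨X, hX, mem_filter.2 ⟨mem_univ _, hXK⟩⟩)
      have hbR : (0 : ℝ) < b := by exact_mod_cast hb0
      have h3 : (((univ : Finset P).filter fun π => f (fun e => decide
          (∃ w, e ∈ T.B w ∧ ∃ τ, pos π w = some τ ∧ T.pos w τ e = true)) = true).card : ℝ) ≤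
          BP.card + ∑ X ∈ A, (((univ : Finset P).filter fun π =>
            X ⊆ (univ.filter fun y => ∃ τ, pos π y.1 = some τ ∧ τ y.2.1 = y.2.2)).card : ℝ) := by
        have h4 := (Finset.card_le_card h2).trans ((Finset.card_union_le _ _).trans
            (Nat.add_le_add_left Finset.card_biUnion_le _))
        exact_mod_cast h4
      have h4 : (4 : ℝ) * BP.card ≤ Fintype.card P := by
        have h6 : 4 * BP.card ≤ Fintype.card P := by
          have h7 : (4 * BP.card) * 2 ^ (2 * h) ≤ Fintype.card P * 2 ^ (2 * h) := by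
            calc (4 * BP.card) * 2 ^ (2 * h) = 4 * (BP.card * 2 ^ (2 * h)) := by ring
              _ ≤ 4 * (S * Fintype.card P) := Nat.mul_le_mul_left _ a3
              _ = (4 * S) * Fintype.card P := by ring
              _ ≤ 2 ^ (2 * h) * Fintype.card P := Nat.mul_le_mul_right _ hS
              _ = Fintype.card P * 2 ^ (2 * h) := by ring
          exact Nat.le_of_mul_le_mul_right h7 (by positivity)
        exact_mod_cast h6
      have h5 : ∑ X ∈ A, (((univ : Finset P).filter fun π =>
            X ⊆ (univ.filter fun y => ∃ τ, pos π y.1 = some τ ∧ τ y.2.1 = y.2.2)).card : ℝ) ≤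
          2 * (((p * (2 * h) : ℕ) : ℝ) / b) ^ 2 * (Fintype.card P : ℝ) := by
        have h6 : ∀ X ∈ A, (((univ : Finset P).filter fun π =>
            X ⊆ (univ.filter fun y => ∃ τ, pos π y.1 = some τ ∧ τ y.2.1 = y.2.2)).card : ℝ) ≤
            (1 / (b : ℝ) ^ X.card) * (Fintype.card P : ℝ) := by
          intro X _
          have h7 : ((univ : Finset P).filter fun π =>
              X ⊆ (univ.filter fun y => ∃ τ, pos π y.1 = some τ ∧ τ y.2.1 = y.2.2)).card *
              b ^ X.card ≤ Fintype.card P := by
            refine le_trans (Nat.mul_le_mul_right _ (Finset.card_le_card ?_)) (hcnt X)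
            intro π hπ
            rw [mem_filter] at hπ ⊢
            refine ⟨mem_univ _, fun y hy => ?_⟩
            have h1 := hπ.2 hy
            rw [mem_filter] at h1
            exact h1.2
          have h8 : (((univ : Finset P).filter fun π =>
              X ⊆ (univ.filter fun y => ∃ τ, pos π y.1 = some τ ∧ τ y.2.1 = y.2.2)).card : ℝ) *
              (b : ℝ) ^ X.card ≤ (Fintype.card P : ℝ) := by exact_mod_cast h7
          have h9 : (0 : ℝ) < (b : ℝ) ^ X.card := by positivity
          rw [one_div, inv_mul_eq_div, le_div_iff₀ h9]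
          exact h8
        refine (Finset.sum_le_sum h6).trans ?_
        rw [← Finset.sum_mul]
        refine mul_le_mul_of_nonneg_right ?_ (Nat.cast_nonneg _)
        exact Pool.Agent.NBC.DICM.fam_sum A hb0 hb a1 (fun X hX => hsm X hX) a2
      have h6 : (2 : ℝ) * (((p * (2 * h) : ℕ) : ℝ) / b) ^ 2 ≤ 1 / 8 := by
        have h7 : ((p * (2 * h) : ℕ) : ℝ) / b ≤ 1 / 4 := by
          rw [div_le_iff₀ hbR]
          have : (4 : ℝ) * ((p * (2 * h) : ℕ) : ℝ) ≤ b := by exact_mod_cast hb
          linarith
        have h8 : (0 : ℝ) ≤ ((p * (2 * h) : ℕ) : ℝ) / b := by positivity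
        nlinarith
      have h7 : (Fintype.card P : ℝ) < 2 * (((univ : Finset P).filter fun π => f (fun e => decide
          (∃ w, e ∈ T.B w ∧ ∃ τ, pos π w = some τ ∧ T.pos w τ e = true)) = true).card : ℝ) := by
        exact_mod_cast hacc
      have h8 : (0 : ℝ) ≤ (Fintype.card P : ℝ) := Nat.cast_nonneg _
      have h9 := mul_le_mul_of_nonneg_right h6 h8
      linarith
  · intro hS hlow
    by_cases hA : A = ∅
    · refine le_trans (Nat.mul_le_mul_right _ (Finset.card_le_card ?_)) a3
      intro π hπ
      by_contra hB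
      obtain ⟨X, hX, _⟩ := a5 π hB (mem_filter.1 hπ).2
      rw [hA] at hX
      simp at hX
    · exfalso
      obtain ⟨X, hX⟩ := Finset.nonempty_iff_ne_empty.2 hA
      have hXc := a1 X hX
      have h1 := aps_inj (k - 1) hk0 X (by
        refine le_trans ?_ hk
        exact Nat.mul_le_mul hXc (by omega))
      rw [huniv] at h1
      have h2 : 4 * BN.card ≤ Fintype.card (W → Fin k × Fin b → Fin (k - 1)) := by
        have h5 : (4 * BN.card) * 2 ^ p ≤
            Fintype.card (W → Fin k × Fin b → Fin (k - 1)) * 2 ^ p := by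
          calc (4 * BN.card) * 2 ^ p = 4 * (BN.card * 2 ^ p) := by ring
            _ ≤ 4 * (S * (4 * (p * (2 * h)) ^ (4 * h)) *
                Fintype.card (W → Fin k × Fin b → Fin (k - 1))) :=
              Nat.mul_le_mul_left _ a4
            _ = (16 * S * (p * (2 * h)) ^ (4 * h)) *
                Fintype.card (W → Fin k × Fin b → Fin (k - 1)) := by ring
            _ ≤ 2 ^ p * Fintype.card (W → Fin k × Fin b → Fin (k - 1)) :=
              Nat.mul_le_mul_right _ hS
            _ = _ := by ring
        exact Nat.le_of_mul_le_mul_right h5 (by positivity)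
      have h3 : (univ : Finset (W × (Fin k × Fin b) → Fin (k - 1))) ⊆
          ((univ.filter fun χ : W × (Fin k × Fin b) → Fin (k - 1) =>
            ¬ Set.InjOn χ (X : Set (W × (Fin k × Fin b)))) ∪ BN) ∪
          ((univ : Finset (W → Fin k × Fin b → Fin (k - 1))).filter fun χ => f (fun e => decide
            (∃ w ∈ D, e ∈ T.B w ∧ T.neu w (χ w) e = true)) = true).image
              (fun χ => fun v : W × (Fin k × Fin b) => χ v.1 v.2) := by
        intro χ _
        by_cases hi : Set.InjOn χ (X : Set (W × (Fin k × Fin b)))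
        · by_cases hB : χ ∈ BN
          · exact mem_union_left _ (mem_union_right _ hB)
          · refine mem_union_right _ ?_
            rw [mem_image]
            refine ⟨fun w x => χ (w, x), ?_, rfl⟩
            rw [mem_filter]
            exact ⟨mem_univ _, a6 χ hB ⟨X, hX, hi⟩⟩
        · exact mem_union_left _ (mem_union_left _ (mem_filter.2 ⟨mem_univ _, hi⟩))
      have h4 := (Finset.card_le_card h3).trans ((Finset.card_union_le _ _).trans
        (Nat.add_le_add (Finset.card_union_le _ _) Finset.card_image_le))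
      rw [huniv] at h4
      omega

end Pool.Agent.S2C
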