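import Pool.Agent.S2C.Stmts

/-!
# Module CND: the number of the `y ∈ P` which contain a given set of vertices
-/

set_option autoImplicit false

namespace Pool.Agent.S2C

open Finset Pool.Agent.NegLim Pool.Agent.NLM

open Classical in
/-- the number of the restrictions to `J` -/
theorem cnd_count {n K k b : ℕ} (Z : Finset ((Fin n × Fin K) × (Fin k × Fin b)))
    (y₁ : Fin n → Fin K × (Fin k → Fin b))
    (h1 : ∀ x ∈ Z, (y₁ x.1.1).1 = x.1.2 ∧ (y₁ x.1.1).2 x.2.1 = x.2.2)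
    (U : Finset (Fin n → Fin K × (Fin k → Fin b)))
    (hU1 : ∀ u ∈ U, ∀ c, c ∉ Z.image (fun x => x.1.1) → u c = y₁ c)
    (hU2 : ∀ u ∈ U, ∀ x ∈ Z, (u x.1.1).1 = x.1.2 ∧ (u x.1.1).2 x.2.1 = x.2.2) :
    U.card * b ^ Z.card ≤ (b ^ k) ^ (Z.image (fun x => x.1.1)).card := by
  obtain ⟨J, hJ⟩ : ∃ J, J = Z.image (fun x => x.1.1) := ⟨_, rfl⟩
  obtain ⟨Z', hZ'⟩ : ∃ Z', Z' = Z.image (fun x => (x.1.1, x.2.1)) := ⟨_, rfl⟩
  rw [← hJ] at hU1 ⊢
  have hcard : Z'.card = Z.card := by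
    rw [hZ']
    refine card_image_of_injOn fun x hx x' hx' he => ?_
    obtain ⟨e1, e2⟩ : x.1.1 = x'.1.1 ∧ x.2.1 = x'.2.1 := Prod.ext_iff.1 he
    obtain ⟨a1, a2⟩ := h1 x hx
    obtain ⟨b1, b2⟩ := h1 x' hx'
    refine Prod.ext (Prod.ext e1 ?_) (Prod.ext e2 ?_)
    · rw [← a1, ← b1, e1]
    · rw [← a2, ← b2, e1, e2]
  have hsub : Z' ⊆ J ×ˢ (univ : Finset (Fin k)) := by
    intro q hq
    rw [hZ'] at hq
    obtain ⟨x, hx, rfl⟩ := mem_image.1 hq
    refine mem_product.2 ⟨?_, mem_univ _⟩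
    rw [hJ]
    exact mem_image_of_mem _ hx
  obtain ⟨S, hS⟩ : ∃ S, S = (J ×ˢ (univ : Finset (Fin k))) \ Z' := ⟨_, rfl⟩
  have hScard : S.card + Z.card = J.card * k := by
    rw [hS, ← hcard, card_sdiff_add_card_eq_card hsub, card_product, card_univ, Fintype.card_fin]
  have hle : U.card ≤ b ^ S.card := by
    have h2 : U.card ≤ (univ : Finset (S → Fin b)).card := by
      refine card_le_card_of_injOn (fun u q => (u q.1.1).2 q.1.2) (fun _ _ => mem_univ _) ?_
      intro u hu u' hu' he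
      funext c
      by_cases hc : c ∈ J
      · have hc' := hc
        rw [hJ] at hc'
        obtain ⟨x, hx, hxc⟩ := mem_image.1 hc'
        refine Prod.ext ?_ ?_
        · rw [← hxc, (hU2 u hu x hx).1, (hU2 u' hu' x hx).1]
        · funext i
          by_cases hq : (c, i) ∈ Z'
          · rw [hZ'] at hq
            obtain ⟨x', hx', hq'⟩ := mem_image.1 hq
            obtain ⟨e1, e2⟩ : x'.1.1 = c ∧ x'.2.1 = i := Prod.ext_iff.1 hq'
            rw [← e1, ← e2, (hU2 u hu x' hx').2, (hU2 u' hu' x' hx').2]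
          · have hqS : (c, i) ∈ S := by
              rw [hS]
              exact mem_sdiff.2 ⟨mem_product.2 ⟨hc, mem_univ _⟩, hq⟩
            exact congrFun he ⟨(c, i), hqS⟩
      · rw [hU1 u hu c hc, hU1 u' hu' c hc]
    refine h2.trans (le_of_eq ?_)
    rw [card_univ, Fintype.card_fun, Fintype.card_fin, Fintype.card_coe]
  calc U.card * b ^ Z.card ≤ b ^ S.card * b ^ Z.card := Nat.mul_le_mul_right _ hle
    _ = (b ^ k) ^ J.card := by rw [← pow_add, hScard, ← pow_mul, Nat.mul_comm]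

open Classical in
/-- **CND** -/
theorem CND_thm : Stmt_CND := by
  intro n K k b I P hK hb hyp Z
  obtain ⟨A, hA⟩ : ∃ A, A = P.filter fun y => ∀ x ∈ Z, x.1.1 ∉ I ∧ (y x.1.1).1 = x.1.2 ∧
        (y x.1.1).2 x.2.1 = x.2.2 := ⟨_, rfl⟩
  rw [← hA]
  rcases Z.eq_empty_or_nonempty with rfl | hZ
  · rw [card_empty, pow_zero, Nat.mul_one, hA]
    exact card_filter_le _ _
  rcases A.eq_empty_or_nonempty with h0 | ⟨y₁, hy₁⟩
  · rw [h0, card_empty, Nat.zero_mul]
    exact Nat.zero_le _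
  have hAm : ∀ y ∈ A, y ∈ P ∧ ∀ x ∈ Z, x.1.1 ∉ I ∧ (y x.1.1).1 = x.1.2 ∧
        (y x.1.1).2 x.2.1 = x.2.2 := by
    intro y hy
    rw [hA] at hy
    exact mem_filter.1 hy
  obtain ⟨J, hJ⟩ : ∃ J, J = Z.image (fun x => x.1.1) := ⟨_, rfl⟩
  have hJn : J.Nonempty := by
    rw [hJ]
    exact hZ.image _
  have hJI : Disjoint J I := by
    rw [Finset.disjoint_left]
    intro c hc
    rw [hJ] at hc
    obtain ⟨x, hx, rfl⟩ := mem_image.1 hc
    exact ((hAm y₁ hy₁).2 x hx).1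
  have hxJ : ∀ x ∈ Z, x.1.1 ∈ J := by
    intro x hx
    rw [hJ]
    exact mem_image_of_mem _ hx
  -- the restrictions
  obtain ⟨ρ, hρ⟩ : ∃ ρ : (Fin n → Fin K × (Fin k → Fin b)) → Fin n → Fin K × (Fin k → Fin b),
      ∀ y c, ρ y c = if c ∈ J then y c else y₁ c := ⟨fun y c => if c ∈ J then y c else y₁ c,
        fun _ _ => rfl⟩
  obtain ⟨U, hU⟩ : ∃ U, U = A.image ρ := ⟨_, rfl⟩
  have hcount := cnd_count Z y₁ (fun x hx => ((hAm y₁ hy₁).2 x hx).2) U ?_ ?_
  · rw [← hJ] at hcount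
    -- the fibres
    have hfib : A.card * (b ^ k) ^ J.card ≤ U.card * P.card := by
      have e1 : A.card = ∑ u ∈ U, (A.filter fun y => ρ y = u).card :=
        card_eq_sum_card_fiberwise fun y hy => by
          rw [hU]
          exact mem_coe.2 (mem_image_of_mem _ hy)
      rw [e1, Finset.sum_mul, Finset.card_eq_sum_ones U, Finset.sum_mul]
      refine Finset.sum_le_sum fun u _ => ?_
      rw [Nat.one_mul]
      have h2 : (A.filter fun y => ρ y = u).card ≤ (P.filter fun y => ∀ c ∈ J, y c = u c).card := by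
        refine card_le_card fun y hy => ?_
        obtain ⟨hy1, hy2⟩ := mem_filter.1 hy
        refine mem_filter.2 ⟨(hAm y hy1).1, fun c hc => ?_⟩
        rw [← hy2, hρ, if_pos hc]
      have h3 := hyp J u hJn hJI
      rw [mul_pow] at h3
      have h4 : (P.filter fun y => ∀ c ∈ J, y c = u c).card * (b ^ k) ^ J.card ≤ P.card := by
        refine Nat.le_of_mul_le_mul_left ?_ (pow_pos hK J.card)
        calc K ^ J.card * ((P.filter fun y => ∀ c ∈ J, y c = u c).card * (b ^ k) ^ J.card)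
            = (P.filter fun y => ∀ c ∈ J, y c = u c).card * (K ^ J.card * (b ^ k) ^ J.card) := by
              ring
          _ ≤ K ^ J.card * P.card := h3
      exact (Nat.mul_le_mul_right _ h2).trans h4
    have hpos : 0 < (b ^ k) ^ J.card := pow_pos (pow_pos hb k) _
    refine Nat.le_of_mul_le_mul_right ?_ hpos
    calc A.card * b ^ Z.card * (b ^ k) ^ J.card
        = A.card * (b ^ k) ^ J.card * b ^ Z.card := by ring
      _ ≤ U.card * P.card * b ^ Z.card := Nat.mul_le_mul_right _ hfib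
      _ = U.card * b ^ Z.card * P.card := by ring
      _ ≤ (b ^ k) ^ J.card * P.card := Nat.mul_le_mul_right _ hcount
      _ = P.card * (b ^ k) ^ J.card := Nat.mul_comm _ _
  · intro u hu c hc
    rw [← hJ] at hc
    rw [hU] at hu
    obtain ⟨y, _, rfl⟩ := mem_image.1 hu
    rw [hρ, if_neg hc]
  · intro u hu x hx
    rw [hU] at hu
    obtain ⟨y, hy, rfl⟩ := mem_image.1 hu
    rw [hρ, if_pos (hxJ x hx)]
    exact ((hAm y hy).2 x hx).2

end Pool.Agent.S2C
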