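import Pool.Agent.S2C.Stmts
import Pool.Agent.NNDT.Core

/-!
# KXA: the core, second half
-/

set_option autoImplicit false

namespace Pool.Agent.S2C

open Finset Pool.Agent.NegLim Pool.Agent.NLM
open Pool.Agent.NBC (SameN St Tests)

section

variable {n K k b : ℕ} {E Xn Xp : Type}

/-- The state of the cells of `I` with the positive tests `v`. -/
def kxa_st (I : Finset (Fin n)) (v : Fin n → Fin K × Xp) : Fin n × Fin K → St Xn Xp := fun x =>
  if x.1 ∈ I ∧ x.2 = (v x.1).1 then St.pos (v x.1).2 else St.emp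

/-- The positive tests of the cells outside of `I`. -/
def kxa_pos (I : Finset (Fin n)) (y : Fin n → Fin K × Xp) : Fin n × Fin K → Option Xp := fun x =>
  if x.1 ∉ I ∧ x.2 = (y x.1).1 then some (y x.1).2 else none

/-- The windows outside of `I` without the windows of `y0`. -/
def kxa_D (I : Finset (Fin n)) (y0 : Fin n → Fin K × Xp) : Finset (Fin n × Fin K) :=
  (univ : Finset (Fin n × Fin K)).filter fun x => x.1 ∉ I ∧ x.2 ≠ (y0 x.1).1

theorem kxa_xin (T : Tests (Fin n × Fin K) E Xn Xp) (a : Fin n × Fin K → St Xn Xp) (e : E) :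
    T.xin a e = true ↔ ∃ j, e ∈ T.B j ∧ T.val j (a j) e = true := by
  simp only [Tests.xin, decide_eq_true_eq]

theorem kxa_proj (z0 : E → Bool) : IsProj (fun (z : E → Bool) e => z e || z0 e) := by
  intro e
  cases h : z0 e with
  | false =>
    refine Or.inr (Or.inl ⟨e, ?_⟩)
    funext z
    simp [h]
  | true =>
    refine Or.inr (Or.inr ⟨true, ?_⟩)
    funext z
    simp [h]

theorem kxa_none {I : Finset (Fin n)} {y0 y : Fin n → Fin K × Xp}
    (hy : ∀ c, c ∉ I → (y c).1 ≠ (y0 c).1) {w : Fin n × Fin K} (hw : w ∉ kxa_D I y0) :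
    kxa_pos I y w = none := by
  have h : ¬ (w.1 ∉ I ∧ w.2 = (y w.1).1) := by
    rintro ⟨h1, h2⟩
    apply hw
    rw [kxa_D, mem_filter]
    exact ⟨mem_univ _, h1, fun h3 => hy w.1 h1 (h2.symm.trans h3)⟩
  exact if_neg h

open Classical in
theorem kxa_up (T : Tests (Fin n × Fin K) E Xn Xp) {I : Finset (Fin n)} {v y : Fin n → Fin K × Xp}
    (hy : ∀ c ∈ I, y c = v c) (e : E) (he : T.xin (sA y) e = true) :
    (decide (∃ w, e ∈ T.B w ∧ ∃ τ, kxa_pos I y w = some τ ∧ T.pos w τ e = true) ||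
      T.xin (kxa_st I v) e) = true := by
  obtain ⟨j, hj, hv⟩ := (kxa_xin T _ e).1 he
  by_cases h : j.2 = (y j.1).1
  · have h1 : (sA y : Fin n × Fin K → St Xn Xp) j = St.pos (y j.1).2 := if_pos h
    rw [h1] at hv
    have hv' : T.pos j (y j.1).2 e = true := hv
    rw [Bool.or_eq_true]
    by_cases hI : j.1 ∈ I
    · right
      refine (kxa_xin T _ e).2 ⟨j, hj, ?_⟩
      have h2 : (kxa_st I v : Fin n × Fin K → St Xn Xp) j = St.pos (v j.1).2 :=
        if_pos ⟨hI, by rw [← hy _ hI]; exact h⟩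
      rw [h2, ← hy _ hI]
      exact hv'
    · left
      exact decide_eq_true ⟨j, hj, (y j.1).2, if_pos ⟨hI, h⟩, hv'⟩
  · have h1 : (sA y : Fin n × Fin K → St Xn Xp) j = St.emp := if_neg h
    rw [h1] at hv
    exact absurd hv (by simp [Tests.val])

open Classical in
theorem kxa_dn (T : Tests (Fin n × Fin K) E Xn Xp) {I : Finset (Fin n)} {v y0 : Fin n → Fin K × Xp}
    {i : Fin n} (hi : i ∉ I) (hy : ∀ c ∈ I, y0 c = v c) (χ : Fin n × Fin K → Xn) (e : E)
    (he : (decide (∃ w ∈ kxa_D I y0, e ∈ T.B w ∧ T.neu w (χ w) e = true) ||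
      T.xin (kxa_st I v) e) = true) : T.xin (sB y0 i χ) e = true := by
  rw [Bool.or_eq_true] at he
  rcases he with he | he
  · obtain ⟨w, hw, hB, hn⟩ := of_decide_eq_true he
    rw [kxa_D, mem_filter] at hw
    refine (kxa_xin T _ e).2 ⟨w, hB, ?_⟩
    have h1 : (sB y0 i χ : Fin n × Fin K → St Xn Xp) w = St.neu (χ w) :=
      if_neg fun h => hw.2.2 h.2
    rw [h1]
    exact hn
  · obtain ⟨j, hj, hv⟩ := (kxa_xin T _ e).1 he
    by_cases h : j.1 ∈ I ∧ j.2 = (v j.1).1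
    · have h1 : (kxa_st I v : Fin n × Fin K → St Xn Xp) j = St.pos (v j.1).2 := if_pos h
      rw [h1] at hv
      refine (kxa_xin T _ e).2 ⟨j, hj, ?_⟩
      have h2 : (sB y0 i χ : Fin n × Fin K → St Xn Xp) j = St.pos (y0 j.1).2 :=
        if_pos ⟨fun h3 => hi (h3 ▸ h.1), by rw [hy _ h.1]; exact h.2⟩
      rw [h2, hy _ h.1]
      exact hv
    · have h1 : (kxa_st I v : Fin n × Fin K → St Xn Xp) j = St.emp := if_neg h
      rw [h1] at hv
      exact absurd hv (by simp [Tests.val])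

end

theorem kxa_num {B ι G q p N N' A : ℕ} (hp2 : 16 * B * 2 ^ ι * G * q < 2 ^ p) (hA : 0 < A)
    (hN : N' ≤ N) (h : N * 2 ^ p ≤ G * (4 * q) * A) : 4 * B * 2 ^ ι * N' < A := by
  have h1 : 4 * B * 2 ^ ι * N' * 2 ^ p < A * 2 ^ p := by
    calc 4 * B * 2 ^ ι * N' * 2 ^ p ≤ 4 * B * 2 ^ ι * N * 2 ^ p :=
          Nat.mul_le_mul_right _ (Nat.mul_le_mul_left _ hN)
      _ = 4 * B * 2 ^ ι * (N * 2 ^ p) := by ring
      _ ≤ 4 * B * 2 ^ ι * (G * (4 * q) * A) := Nat.mul_le_mul_left _ h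
      _ = 16 * B * 2 ^ ι * G * q * A := by ring
      _ < 2 ^ p * A := Nat.mul_lt_mul_of_pos_right hp2 hA
      _ = A * 2 ^ p := Nat.mul_comm _ _
  exact Nat.lt_of_mul_lt_mul_right h1

theorem KXA_thm : Stmt_KXA := by
  classical
  intro hAPS hCND n K G d ι B k b h p E T f hPar hDis hCl hf I v y0 P i hi hP hy0 hPy hcnt
  have hK : 0 < K := lt_of_lt_of_le (Nat.mul_pos (by norm_num) hPar.hn) hPar.hK
  have hb : 0 < b :=
    lt_of_lt_of_le (Nat.mul_pos (by norm_num) (Nat.mul_pos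
      (lt_of_lt_of_le (by norm_num) hPar.hp) (Nat.mul_pos (by norm_num)
      (lt_of_lt_of_le (by norm_num) hPar.hh)))) hPar.hb
  have hfin : Nonempty (Fin (k - 1)) := ⟨⟨0, by have := hPar.hk2; omega⟩⟩
  have hA : 0 < Fintype.card (Fin n × Fin K → Fin k × Fin b → Fin (k - 1)) := Fintype.card_pos
  have hset : ∀ Y : Finset ((Fin n × Fin K) × (Fin k × Fin b)),
      ((univ : Finset {y // y ∈ P}).filter fun π =>
        ∀ y ∈ Y, ∃ τ, kxa_pos I π.1 y.1 = some τ ∧ τ y.2.1 = y.2.2).card * b ^ Y.card ≤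
      Fintype.card {y // y ∈ P} := by
    intro Y
    have h1 := hCND n K k b I P hK hb hcnt Y
    rw [Fintype.card_coe]
    refine le_trans (Nat.mul_le_mul_right _ ?_) h1
    refine Finset.card_le_card_of_injOn (fun π => π.1) ?_ fun a _ b _ hab => Subtype.ext hab
    intro π hπ
    have hπ' := (mem_filter.1 (Finset.mem_coe.1 hπ)).2
    refine Finset.mem_coe.2 (mem_filter.2 ⟨π.2, ?_⟩)
    intro x hx
    obtain ⟨τ, hτ, hτ'⟩ := hπ' x hx
    by_cases hc : x.1.1 ∉ I ∧ x.1.2 = (π.1 x.1.1).1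
    · have h2 : kxa_pos I π.1 x.1 = some (π.1 x.1.1).2 := if_pos hc
      rw [h2] at hτ
      have h3 := Option.some.inj hτ
      exact ⟨hc.1, hc.2.symm, by rw [h3]; exact hτ'⟩
    · have h2 : kxa_pos I π.1 x.1 = none := if_neg hc
      rw [h2] at hτ
      exact absurd hτ (by simp)
  have key := (hAPS (Fin n × Fin K) E {y // y ∈ P} k b h p G T hDis hCl hPar.hh hPar.hk2 hPar.hk
    hPar.hp hPar.hb (kxa_D I y0) (fun π => kxa_pos I π.1)
    (fun π w hw => kxa_none (hPy π.1 π.2).2.1 hw) hset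
    (fun z => f (fun e => z e || T.xin (kxa_st I v) e)) (hf.comp (kxa_proj _))).1 hPar.hG ?_
  · refine kxa_num hPar.hp2 hA (Finset.card_le_card ?_) key
    intro χ hχ
    have hχ' := (mem_filter.1 hχ).2
    refine mem_filter.2 ⟨mem_univ _, ?_⟩
    rw [← Bool.not_eq_true] at hχ' ⊢
    intro hc
    exact hχ' (NNDT.MonSize.monotone hf _ _ (fun e he => kxa_dn T hi hy0 χ e he) hc)
  · rw [Finset.filter_true_of_mem (s := (univ : Finset {y // y ∈ P})) (fun π _ =>
      NNDT.MonSize.monotone hf _ _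
        (fun e he => kxa_up T (hPy π.1 π.2).1 e he) (hPy π.1 π.2).2.2), Finset.card_univ]
    have h0 : 0 < Fintype.card {y // y ∈ P} := by
      rw [Fintype.card_coe]
      exact hP.card_pos
    omega

end Pool.Agent.S2C
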