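import Pool.Agent.S2C.Stmts

/-!
# S2C: module KXC (the core: averaging and pigeonhole)
-/

set_option autoImplicit false

namespace Pool.Agent.S2C

open Finset Pool.Agent.NegLim Pool.Agent.NLM
open Pool.Agent.NBC (SameN St Tests winT flip neg)

/-- Pigeonhole. -/
theorem kxc_max {α : Type} [Fintype α] (s : ℕ) (g : α → ℕ) (hs : s ≤ ∑ a, g a) (hpos : 0 < s) :
    ∃ a, s ≤ Fintype.card α * g a := by
  by_contra hcon
  push Not at hcon
  have hne : Nonempty α := by
    by_contra hne
    rw [not_nonempty_iff] at hne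
    rw [Finset.univ_eq_empty, Finset.sum_empty] at hs
    omega
  have h1 : ∑ a, Fintype.card α * g a < ∑ _a : α, s :=
    Finset.sum_lt_sum_of_nonempty Finset.univ_nonempty fun a _ => hcon a
  rw [← Finset.mul_sum, Finset.sum_const, Finset.card_univ, smul_eq_mul] at h1
  exact absurd (Nat.mul_le_mul_left (Fintype.card α) hs) (not_le.2 h1)

/-- The number of the pairs. -/
theorem kxc_pairs {Y Z : Type} [Fintype Y] [Fintype Z] (P : Y → Z → Prop)
    (i1 : DecidablePred fun z : Y × Z => P z.1 z.2) (i2 : ∀ y, DecidablePred (P y)) :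
    (@Finset.filter (Y × Z) (fun z => P z.1 z.2) i1 univ).card =
      ∑ y, (@Finset.filter Z (P y) (i2 y) univ).card := by
  simp only [Finset.card_filter]
  rw [Fintype.sum_prod_type]
  refine Finset.sum_congr rfl fun y _ => Finset.sum_congr rfl fun z _ => ?_
  by_cases hP : P y z
  · rw [if_pos hP, if_pos hP]
  · rw [if_neg hP, if_neg hP]

open Classical in
/-- Step (1): averaging. -/
theorem kxc_one {Y Z : Type} [Fintype Y] [Fintype Z] (B : ℕ) (A : Y → Prop) (G : Y → Z → Prop)
    {i1 : DecidablePred fun z : Y × Z => A z.1 ∧ G z.1 z.2}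
    (h : Fintype.card (Y × Z) <
      B * (@Finset.filter (Y × Z) (fun z => A z.1 ∧ G z.1 z.2) i1 univ).card) :
    ∃ S : Finset Y, (∀ y ∈ S, A y ∧
        Fintype.card Z ≤ 2 * B * ((univ : Finset Z).filter (G y)).card) ∧
      Fintype.card Y < 2 * B * S.card := by
  refine ⟨(univ : Finset Y).filter fun y =>
      A y ∧ Fintype.card Z ≤ 2 * B * ((univ : Finset Z).filter (G y)).card,
    fun y hy => (Finset.mem_filter.1 hy).2, ?_⟩
  set S := (univ : Finset Y).filter fun y =>
      A y ∧ Fintype.card Z ≤ 2 * B * ((univ : Finset Z).filter (G y)).card with hS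
  have hsum := kxc_pairs (fun (y : Y) (z : Z) => A y ∧ G y z) i1
    (fun y z => Classical.propDecidable _)
  generalize (@Finset.filter (Y × Z) (fun z => A z.1 ∧ G z.1 z.2) i1 univ).card = T at h hsum
  have hle : ∀ y : Y, 2 * B * (@Finset.filter Z (fun z => A y ∧ G y z)
      (fun z => Classical.propDecidable _) univ).card ≤
      (if y ∈ S then 2 * B * Fintype.card Z else 0) + Fintype.card Z := by
    intro y
    by_cases hA : A y
    · have e1 : (@Finset.filter Z (fun z => A y ∧ G y z)
          (fun z => Classical.propDecidable _) univ) =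
          (univ : Finset Z).filter (G y) := by
        ext z; simp [hA]
      rw [e1]
      by_cases hy : y ∈ S
      · rw [if_pos hy]
        have : ((univ : Finset Z).filter (G y)).card ≤ Fintype.card Z := by
          simpa using Finset.card_filter_le (univ : Finset Z) (G y)
        have := Nat.mul_le_mul_left (2 * B) this
        omega
      · rw [if_neg hy]
        have : ¬ (Fintype.card Z ≤ 2 * B * ((univ : Finset Z).filter (G y)).card) := by
          intro hc
          exact hy (by rw [hS, Finset.mem_filter]; exact ⟨Finset.mem_univ _, hA, hc⟩)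
        omega
    · have e1 : (@Finset.filter Z (fun z => A y ∧ G y z)
          (fun z => Classical.propDecidable _) univ) = ∅ := by
        ext z; simp [hA]
      rw [e1, Finset.card_empty, mul_zero]
      exact Nat.zero_le _
  have h2 : 2 * B * T ≤
      2 * B * S.card * Fintype.card Z + Fintype.card Y * Fintype.card Z := by
    calc 2 * B * T
        = ∑ y, 2 * B * (@Finset.filter Z (fun z => A y ∧ G y z)
            (fun z => Classical.propDecidable _) univ).card := by
          rw [hsum, Finset.mul_sum]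
      _ ≤ ∑ y, ((if y ∈ S then 2 * B * Fintype.card Z else 0) + Fintype.card Z) :=
          Finset.sum_le_sum fun y _ => hle y
      _ = 2 * B * S.card * Fintype.card Z + Fintype.card Y * Fintype.card Z := by
          rw [Finset.sum_add_distrib, Finset.sum_const, Finset.card_univ, smul_eq_mul,
            Finset.sum_ite_mem, Finset.univ_inter, Finset.sum_const, smul_eq_mul]
          ring
  rw [Fintype.card_prod] at h
  by_contra hcon
  push Not at hcon
  have h3 := Nat.mul_le_mul_right (Fintype.card Z) hcon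
  have h4 : 2 * (Fintype.card Y * Fintype.card Z) < 2 * B * T := by
    rw [mul_assoc]; omega
  omega

/-- Pigeonhole for sets. -/
theorem kxc_pick {X W : Type} [Fintype X] [Fintype W] (G : X → Prop) (H : W → X → Prop)
    (hGH : ∀ x, G x → ∃ w, H w x) {_ : DecidablePred G} [∀ w, DecidablePred (H w)] (s : Finset X)
    (hs : 0 < (s.filter G).card) :
    ∃ w, (s.filter G).card ≤ Fintype.card W * (s.filter (H w)).card := by
  classical
  refine kxc_max _ (fun w => (s.filter (H w)).card) ?_ hs
  have hsub : s.filter G ⊆ (univ : Finset W).biUnion fun w => s.filter (H w) := by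
    intro x hx
    rw [Finset.mem_filter] at hx
    obtain ⟨w, hw⟩ := hGH x hx.2
    rw [Finset.mem_biUnion]
    exact ⟨w, Finset.mem_univ _, Finset.mem_filter.2 ⟨hx.1, hw⟩⟩
  exact (Finset.card_le_card hsub).trans Finset.card_biUnion_le

/-- The instances of decidability do not matter. -/
theorem kxc_inst {α : Type} (s : Finset α) (p : α → Prop) (i1 i2 : DecidablePred p) :
    @Finset.filter α p i1 s = @Finset.filter α p i2 s :=
  Finset.ext fun x => by simp only [Finset.mem_filter]

/-- The spread subset. -/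
theorem kxc_spr (hSPR : Stmt_SPR) (n B : ℕ) (Y : Type) [Fintype Y] [Nonempty Y]
    (S : Finset (Fin n → Y)) (hne : S.Nonempty) (hc : Fintype.card Y ^ n ≤ B * S.card) :
    ∃ (I : Finset (Fin n)) (v : Fin n → Y) (S' : Finset (Fin n → Y)), S'.Nonempty ∧
      (∀ y ∈ S', y ∈ S ∧ ∀ i ∈ I, y i = v i) ∧ 2 ^ I.card ≤ B ∧
      ∀ (J : Finset (Fin n)) (u : Fin n → Y), Disjoint J I → ∀ R : Finset (Fin n → Y),
        (∀ y ∈ R, y ∈ S' ∧ ∀ i ∈ J, y i = u i) →
        R.card * Fintype.card Y ^ J.card ≤ 2 ^ J.card * S'.card := by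
  classical
  obtain ⟨I, v, h1, h2, h3⟩ := hSPR n B Y S hne hc
  refine ⟨I, v, _, h1, fun y hy => Finset.mem_filter.1 hy, h2, ?_⟩
  intro J u hJ R hR
  refine (Nat.mul_le_mul_right _ (Finset.card_le_card ?_)).trans (h3 J u hJ)
  intro y hy
  exact Finset.mem_filter.2 (hR y hy)

open Classical in
/-- Step (4): a good cell outside `I`. -/
theorem kxc_cell {n B : ℕ} {X : Type} [Fintype X] [Nonempty X] (hn : 0 < n) (I : Finset (Fin n))
    (hI : 4 * B * I.card ≤ n) (G : Fin n → X → Prop)
    (h : Fintype.card (Fin n × X) ≤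
      2 * B * ((univ : Finset (Fin n × X)).filter fun z => G z.1 z.2).card) :
    ∃ i, i ∉ I ∧ Fintype.card X ≤ 4 * B * ((univ : Finset X).filter (G i)).card := by
  by_contra hcon
  push Not at hcon
  have hX : 0 < Fintype.card X := Fintype.card_pos
  have hsum : ((univ : Finset (Fin n × X)).filter fun z => G z.1 z.2).card =
      ∑ i, ((univ : Finset X).filter (G i)).card := kxc_pairs G _ _
  -- bound
  have hle : ∀ i : Fin n, 4 * B * ((univ : Finset X).filter (G i)).card ≤
      (if i ∈ I then 4 * B * Fintype.card X else 0) +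
        (if i ∈ I then 0 else (Fintype.card X - 1)) := by
    intro i
    by_cases hi : i ∈ I
    · rw [if_pos hi, if_pos hi, add_zero]
      refine Nat.mul_le_mul_left _ ?_
      simpa using Finset.card_filter_le (univ : Finset X) (G i)
    · rw [if_neg hi, if_neg hi, zero_add]
      have := hcon i hi
      omega
  have h2 : 4 * B * ((univ : Finset (Fin n × X)).filter fun z => G z.1 z.2).card ≤
      4 * B * I.card * Fintype.card X + n * (Fintype.card X - 1) := by
    calc 4 * B * ((univ : Finset (Fin n × X)).filter fun z => G z.1 z.2).card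
        = ∑ i, 4 * B * ((univ : Finset X).filter (G i)).card := by
          rw [hsum, Finset.mul_sum]
      _ ≤ ∑ i, ((if i ∈ I then 4 * B * Fintype.card X else 0) +
            (if i ∈ I then 0 else (Fintype.card X - 1))) :=
          Finset.sum_le_sum fun i _ => hle i
      _ ≤ ∑ i : Fin n, ((if i ∈ I then 4 * B * Fintype.card X else 0) +
            (Fintype.card X - 1)) := by
          refine Finset.sum_le_sum fun i _ => Nat.add_le_add_left ?_ _
          split_ifs
          · exact Nat.zero_le _
          · exact le_rfl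
      _ = 4 * B * I.card * Fintype.card X + n * (Fintype.card X - 1) := by
          rw [Finset.sum_add_distrib, Finset.sum_const, Finset.card_univ, smul_eq_mul,
            Finset.sum_ite_mem, Finset.univ_inter, Finset.sum_const, smul_eq_mul,
            Fintype.card_fin]
          ring
  rw [Fintype.card_prod, Fintype.card_fin] at h
  have h3 : 4 * B * I.card * Fintype.card X ≤ n * Fintype.card X := Nat.mul_le_mul_right _ hI
  have h4 : 2 * (n * Fintype.card X) ≤
      4 * B * ((univ : Finset (Fin n × X)).filter fun z => G z.1 z.2).card := by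
    have := Nat.mul_le_mul_left 2 h
    calc 2 * (n * Fintype.card X) ≤ 2 * (2 * B *
        ((univ : Finset (Fin n × X)).filter fun z => G z.1 z.2).card) := this
      _ = _ := by ring
  have h5 : n * (Fintype.card X - 1) < n * Fintype.card X :=
    Nat.mul_lt_mul_of_pos_left (by omega) hn
  omega

/-- Step (5): the part of a spread set in other windows than `y0`. -/
theorem kxc_half {n K : ℕ} {Xp : Type} [Fintype Xp] (hK : 4 * n ≤ K) (hn : 0 < n)
    (hXp : 0 < Fintype.card Xp) (I : Finset (Fin n))
    (S' : Finset (Fin n → Fin K × Xp)) (y0 : Fin n → Fin K × Xp)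
    (hS : ∀ (J : Finset (Fin n)) (u : Fin n → Fin K × Xp), Disjoint J I →
      ∀ R : Finset (Fin n → Fin K × Xp), (∀ y ∈ R, y ∈ S' ∧ ∀ i ∈ J, y i = u i) →
      R.card * Fintype.card (Fin K × Xp) ^ J.card ≤ 2 ^ J.card * S'.card) :
    ∃ P : Finset (Fin n → Fin K × Xp), (∀ y ∈ P, y ∈ S' ∧ ∀ c, c ∉ I → (y c).1 ≠ (y0 c).1) ∧
      S'.card ≤ 2 * P.card := by
  classical
  refine ⟨S'.filter fun y => ∀ c, c ∉ I → (y c).1 ≠ (y0 c).1,
    fun y hy => Finset.mem_filter.1 hy, ?_⟩
  set R := S'.filter fun y => ¬ ∀ c, c ∉ I → (y c).1 ≠ (y0 c).1 with hR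
  have hsplit : (S'.filter fun y => ∀ c, c ∉ I → (y c).1 ≠ (y0 c).1).card + R.card = S'.card :=
    Finset.card_filter_add_card_filter_not _
  -- one cell
  have hone : ∀ c : Fin n, c ∉ I →
      (S'.filter fun y => (y c).1 = (y0 c).1).card * K ≤ 2 * S'.card := by
    intro c hc
    have hsub : (S'.filter fun y => (y c).1 = (y0 c).1) ⊆
        (univ : Finset Xp).biUnion fun τ => S'.filter fun y => y c = ((y0 c).1, τ) := by
      intro y hy
      rw [Finset.mem_filter] at hy
      rw [Finset.mem_biUnion]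
      refine ⟨(y c).2, Finset.mem_univ _, ?_⟩
      rw [Finset.mem_filter]
      exact ⟨hy.1, Prod.ext hy.2 rfl⟩
    have hcard := (Finset.card_le_card hsub).trans Finset.card_biUnion_le
    have hτ : ∀ τ : Xp, (S'.filter fun y => y c = ((y0 c).1, τ)).card *
        (K * Fintype.card Xp) ≤ 2 * S'.card := by
      intro τ
      have := hS {c} (fun _ => ((y0 c).1, τ)) (by
        rw [Finset.disjoint_singleton_left]; exact hc)
        (S'.filter fun y => y c = ((y0 c).1, τ)) (by
          intro y hy
          rw [Finset.mem_filter] at hy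
          refine ⟨hy.1, ?_⟩
          intro i hi
          rw [Finset.mem_singleton] at hi
          subst hi
          exact hy.2)
      rw [Finset.card_singleton, pow_one, pow_one, Fintype.card_prod, Fintype.card_fin] at this
      exact this
    have h1 : (S'.filter fun y => (y c).1 = (y0 c).1).card * (K * Fintype.card Xp) ≤
        Fintype.card Xp * (2 * S'.card) := by
      calc (S'.filter fun y => (y c).1 = (y0 c).1).card * (K * Fintype.card Xp)
          ≤ (∑ τ : Xp, (S'.filter fun y => y c = ((y0 c).1, τ)).card) *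
              (K * Fintype.card Xp) :=
            Nat.mul_le_mul_right _ hcard
        _ = ∑ τ : Xp, (S'.filter fun y => y c = ((y0 c).1, τ)).card *
              (K * Fintype.card Xp) := Finset.sum_mul _ _ _
        _ ≤ ∑ _τ : Xp, 2 * S'.card := Finset.sum_le_sum fun τ _ => hτ τ
        _ = Fintype.card Xp * (2 * S'.card) := by
            rw [Finset.sum_const, Finset.card_univ, smul_eq_mul]
    refine Nat.le_of_mul_le_mul_left ?_ hXp
    calc Fintype.card Xp * ((S'.filter fun y => (y c).1 = (y0 c).1).card * K)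
        = (S'.filter fun y => (y c).1 = (y0 c).1).card * (K * Fintype.card Xp) := by ring
      _ ≤ _ := h1
  -- all cells
  have hsub : R ⊆ (univ : Finset (Fin n)).biUnion fun c =>
      if c ∈ I then ∅ else S'.filter fun y => (y c).1 = (y0 c).1 := by
    intro y hy
    rw [hR, Finset.mem_filter] at hy
    obtain ⟨hy1, hy2⟩ := hy
    push Not at hy2
    obtain ⟨c, hc, hyc⟩ := hy2
    rw [Finset.mem_biUnion]
    refine ⟨c, Finset.mem_univ _, ?_⟩
    rw [if_neg hc, Finset.mem_filter]
    exact ⟨hy1, hyc⟩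
  have hcard := (Finset.card_le_card hsub).trans Finset.card_biUnion_le
  have hall : R.card * K ≤ n * (2 * S'.card) := by
    calc R.card * K ≤ (∑ c : Fin n,
          (if c ∈ I then (∅ : Finset (Fin n → Fin K × Xp)) else
            S'.filter fun y => (y c).1 = (y0 c).1).card) * K := Nat.mul_le_mul_right _ hcard
      _ = ∑ c : Fin n, (if c ∈ I then (∅ : Finset (Fin n → Fin K × Xp)) else
            S'.filter fun y => (y c).1 = (y0 c).1).card * K := Finset.sum_mul _ _ _
      _ ≤ ∑ _c : Fin n, 2 * S'.card := by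
          refine Finset.sum_le_sum fun c _ => ?_
          by_cases hc : c ∈ I
          · rw [if_pos hc, Finset.card_empty, zero_mul]; exact Nat.zero_le _
          · rw [if_neg hc]; exact hone c hc
      _ = n * (2 * S'.card) := by
          rw [Finset.sum_const, Finset.card_univ, smul_eq_mul, Fintype.card_fin]
  have h4 : R.card * (4 * n) ≤ n * (2 * S'.card) := (Nat.mul_le_mul_left _ hK).trans hall
  have h5 : 2 * R.card ≤ S'.card := by
    refine Nat.le_of_mul_le_mul_left ?_ (show 0 < 2 * n by omega)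
    calc 2 * n * (2 * R.card) = R.card * (4 * n) := by ring
      _ ≤ n * (2 * S'.card) := h4
      _ = 2 * n * S'.card := by ring
  omega

/-- Module KXC. -/
theorem KXC_thm : Stmt_KXC := by
  intro hAPS hCND hSPR hKXA n K G d ι B k b h p E Oa Iw _ _ T f hPar hDis hCL hMon hOa hIw
  by_contra hcon
  push Not at hcon
  have hn := hPar.hn
  have hK := hPar.hK
  have hB := hPar.hB
  have hk2 := hPar.hk2
  have hb0 : 0 < b := by
    have h1 := hPar.hb
    have h2 := hPar.hh
    have h3 := hPar.hp
    have : 0 < p * (2 * h) := Nat.mul_pos (by omega) (by omega)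
    omega
  have hK0 : 0 < K := by omega
  have hne1 : NeZero (k - 1) := ⟨by omega⟩
  have hne2 : NeZero b := ⟨by omega⟩
  have hne3 : NeZero K := ⟨by omega⟩
  -- (1)
  obtain ⟨S, hS, h1⟩ := kxc_one B (fun y : Fin n → Fin K × (Fin k → Fin b) =>
      ∃ a, ∀ w, f a w (T.xin (sA y)) = true)
    (fun y (z : Fin n × (Fin n × Fin K → Fin k × Fin b → Fin (k - 1))) =>
      ∀ a, ∃ w, f a w (T.xin (sB y z.1 z.2)) = false) hcon
  have hSpos : 0 < S.card := by
    rcases Nat.eq_zero_or_pos S.card with h0 | h0
    · rw [h0, mul_zero] at h1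
      exact absurd h1 (Nat.not_lt_zero _)
    · exact h0
  -- (2)
  classical
  have hSfil : (S.filter fun y => ∃ a, ∀ w, f a w (T.xin (sA y)) = true) = S :=
    Finset.filter_true_of_mem fun y hy => (hS y hy).1
  obtain ⟨a, ha⟩ := kxc_pick (fun y => ∃ a, ∀ w, f a w (T.xin (sA y)) = true)
    (fun a y => ∀ w, f a w (T.xin (sA y)) = true) (fun y hy => hy) S (by rw [hSfil]; exact hSpos)
  rw [hSfil] at ha
  obtain ⟨Sa, hSa0, hSaS, hSaw⟩ : ∃ Sa : Finset (Fin n → Fin K × (Fin k → Fin b)),
      S.card ≤ Fintype.card Oa * Sa.card ∧ (∀ y ∈ Sa, y ∈ S) ∧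
      ∀ y ∈ Sa, ∀ w, f a w (T.xin (sA y)) = true :=
    ⟨_, ha, fun y hy => (Finset.mem_filter.1 hy).1, fun y hy => (Finset.mem_filter.1 hy).2⟩
  have hSa : Fintype.card (Fin K × (Fin k → Fin b)) ^ n ≤ 2 * B * 2 ^ d * Sa.card := by
    have e1 : Fintype.card (Fin n → Fin K × (Fin k → Fin b)) =
        Fintype.card (Fin K × (Fin k → Fin b)) ^ n := by
      rw [Fintype.card_fun, Fintype.card_fin]
    rw [← e1]
    refine h1.le.trans ?_
    calc 2 * B * S.card ≤ 2 * B * (Fintype.card Oa * Sa.card) := Nat.mul_le_mul_left _ hSa0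
      _ ≤ 2 * B * (2 ^ d * Sa.card) :=
          Nat.mul_le_mul_left _ (Nat.mul_le_mul_right _ hOa)
      _ = 2 * B * 2 ^ d * Sa.card := by ring
  have hSane : Sa.Nonempty := by
    rw [← Finset.card_pos]
    rcases Nat.eq_zero_or_pos Sa.card with h0 | h0
    · rw [h0, mul_zero] at hSa0
      omega
    · exact h0
  -- (3)
  obtain ⟨I, v, S', hne, hS', hI, hspr⟩ :=
    kxc_spr hSPR n (2 * B * 2 ^ d) (Fin K × (Fin k → Fin b)) Sa hSane hSa
  have hIn : 4 * B * I.card ≤ n := hPar.hd _ hI
  -- (4)
  obtain ⟨y0, hy0⟩ := hne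
  obtain ⟨hy0a, hy0I⟩ := hS' y0 hy0
  have hy0c := (hS y0 (hSaS y0 hy0a)).2
  obtain ⟨i, hiI, hi⟩ := kxc_cell hn I hIn
    (fun i (χ : Fin n × Fin K → Fin k × Fin b → Fin (k - 1)) =>
      ∀ a, ∃ w, f a w (T.xin (sB y0 i χ)) = false) hy0c
  have hXpos : 0 < Fintype.card (Fin n × Fin K → Fin k × Fin b → Fin (k - 1)) :=
    Fintype.card_pos
  obtain ⟨w, hw⟩ := kxc_pick
    (fun (χ : Fin n × Fin K → Fin k × Fin b → Fin (k - 1)) =>
      ∀ a, ∃ w, f a w (T.xin (sB y0 i χ)) = false)
    (fun w (χ : Fin n × Fin K → Fin k × Fin b → Fin (k - 1)) =>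
      f a w (T.xin (sB y0 i χ)) = false) (fun χ hχ => hχ a)
      (univ : Finset (Fin n × Fin K → Fin k × Fin b → Fin (k - 1))) (by
      refine Nat.pos_of_ne_zero fun h0 => ?_
      rw [h0, mul_zero] at hi
      omega)
  -- (5)
  have hcXp : Fintype.card (Fin K × (Fin k → Fin b)) = K * b ^ k := by
    rw [Fintype.card_prod, Fintype.card_fin, Fintype.card_fun, Fintype.card_fin,
      Fintype.card_fin]
  obtain ⟨P, hP, hhalf⟩ := kxc_half hK hn Fintype.card_pos I S' y0 hspr
  have hS'pos : 0 < S'.card := Finset.card_pos.2 ⟨y0, hy0⟩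
  have hPne : P.Nonempty := by
    rw [← Finset.card_pos]; omega
  -- (6)
  have hfin := hKXA hAPS hCND n K G d ι B k b h p E T (f a w) hPar hDis hCL (hMon a w) I v y0 P i
    hiI hPne hy0I (fun y hy => ⟨(hS' y (hP y hy).1).2, (hP y hy).2,
      hSaw y (hS' y (hP y hy).1).1 w⟩) (by
      intro J u hJ hJI
      have h6 := hspr J u hJI _ (fun y hy =>
        ⟨(hP y (Finset.mem_filter.1 hy).1).1, (Finset.mem_filter.1 hy).2⟩)
      rw [hcXp] at h6
      have hJ1 : 1 ≤ J.card := Finset.card_pos.2 hJ
      have h8 : 2 ^ J.card * 2 ≤ K ^ J.card := by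
        calc 2 ^ J.card * 2 ≤ 2 ^ J.card * 2 ^ J.card :=
              Nat.mul_le_mul_left _ (by
                calc 2 = 2 ^ 1 := rfl
                  _ ≤ 2 ^ J.card := Nat.pow_le_pow_right (by norm_num) hJ1)
          _ = 4 ^ J.card := by rw [← mul_pow]; norm_num
          _ ≤ K ^ J.card := Nat.pow_le_pow_left (by omega) _
      refine h6.trans ?_
      calc 2 ^ J.card * S'.card ≤ 2 ^ J.card * (2 * P.card) := Nat.mul_le_mul_left _ hhalf
        _ = 2 ^ J.card * 2 * P.card := by ring
        _ ≤ K ^ J.card * P.card := Nat.mul_le_mul_right _ h8)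
  have hX := hi.trans (Nat.mul_le_mul_left _ (hw.trans (Nat.mul_le_mul_right _ hIw)))
  rw [← mul_assoc] at hX
  exact absurd (hX.trans (le_of_eq (congrArg (fun s => 4 * B * 2 ^ ι * Finset.card s)
    (kxc_inst _ _ _ _)))) (not_le.2 hfin)

end Pool.Agent.S2C
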