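import Pool.Agent.S2C.Stmts
import Pool.Agent.NBC.PRG

/-!
# Programs for the inputs above `R` (S2C): module GVL
-/

set_option autoImplicit false

namespace Pool.Agent.S2C

open Finset Pool.Agent.NegLim Pool.Agent.NLM
open Pool.Agent.NBC (SameN)

/-- The programs for the disjunctive check and for the output. -/
theorem gvl_progs {E : Type} {s t : ℕ} (C : NCirc E s t) (z : ℕ → Bool) (u : Fin s → Bool)
    (w : Fin t → Bool) (G : ℕ) (hG : C.gates.length ≤ G) :
    MonSize (fun y => chkO z C.gates y u w) G ∧
      MonSize (fun y => C.out.val y u w (gvals z C.gates y u w)) G := by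
  obtain ⟨L, h1, h2, h3, h4⟩ :=
    prog (Pool.Agent.NBC.prg_isProj_id (E := E)) z C.gates u w true
  refine ⟨⟨L, h1, h2.trans hG, h4⟩, L, h1, h2.trans hG, ?_⟩
  cases C.out with
  | inp e => exact Or.inr (Or.inl ⟨e, rfl⟩)
  | wit φ => exact Avail.const _ _
  | gate n => exact h3 n

/-- The negative check gives the same NOT gates. -/
theorem gvl_same {E : Type} {s t : ℕ} (C : NCirc E s t) (hN : C.NotsFree) (R y : E → Bool)
    (hy : ∀ e, R e = true → y e = true)
    (h : ∀ u : Fin s → Bool, chkO (guess C R u) C.gates y u (fun _ => false) = false) :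
    SameN C R y := by
  intro u n hn
  rw [Pool.Agent.NBC.prg_good_R C hN R u (fun _ => false) n hn,
    ← keyO hy (Pool.Agent.NBC.prg_good_R C hN R u fun _ => false) (h u),
    Pool.Agent.NBC.prg_gvals_not _ _ _ _ _ n hn]

theorem GVL_thm : Stmt_GVL := by
  intro E s t G C hN hG R
  refine ⟨fun p y => C.out.val y (fun i => p (Sum.inl i)) (fun j => p (Sum.inr j))
      (gvals (guess C R fun i => p (Sum.inl i)) C.gates y (fun i => p (Sum.inl i))
        fun j => p (Sum.inr j)),
    fun u y => chkO (guess C R u) C.gates y u (fun _ => false), ?_, ?_, ?_, ?_⟩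
  · intro p
    exact (gvl_progs C _ _ _ G hG).2
  · intro u
    exact (gvl_progs C _ _ _ G hG).1
  · intro y hy p
    show C.out.val y _ _ (vals C.gates y _ _) = C.out.val y _ _ (gvals _ C.gates y _ _)
    rw [(Pool.Agent.NBC.prg_good_y C hN R y hy _ _).gvals]
  · intro y hy
    constructor
    · intro hS u
      exact chkO_of_good (Pool.Agent.NBC.prg_good_y C hN R y hS u _)
    · exact gvl_same C hN R y hy

end Pool.Agent.S2C
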