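import Pool.Agent.S2C.Stmts

/-!
# One step in the first half (S2C): module STQ
-/

set_option autoImplicit false

namespace Pool.Agent.S2C

open Finset Pool.Agent.NegLim Pool.Agent.NLM
open Pool.Agent.NBC (SameN St Tests)

section

variable {M n K s t : ℕ} {E Xn Xp : Type}

/-- The tests of the cells. -/
def stq_T (T : Tests (Fin M) E Xn Xp) (e : Fin n × Fin K → Fin M) :
    Tests (Fin n × Fin K) E Xn Xp where
  B x := T.B (e x)
  neu x := T.neu (e x)
  pos x := T.pos (e x)

theorem stq_val (T : Tests (Fin M) E Xn Xp) (e : Fin n × Fin K → Fin M) (x : Fin n × Fin K)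
    (st : St Xn Xp) : (stq_T T e).val x st = T.val (e x) st := by
  cases st <;> rfl

theorem stq_xin_iff {W : Type} (T : Tests W E Xn Xp) (a : W → St Xn Xp) (v : E) :
    T.xin a v = true ↔ ∃ j, v ∈ T.B j ∧ T.val j (a j) v = true := by
  simp only [Tests.xin, decide_eq_true_eq]

theorem stq_xin (T : Tests (Fin M) E Xn Xp) {e : Fin n × Fin K → Fin M}
    (he : Function.Injective e) {a : Fin M → St Xn Xp} (ha : ∀ x, a (e x) = St.emp)
    (st : Fin n × Fin K → St Xn Xp) (v : E) :
    T.xin (put e st a) v = ((stq_T T e).xin st v || T.xin a v) := by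
  rw [Bool.eq_iff_iff, Bool.or_eq_true, stq_xin_iff, stq_xin_iff, stq_xin_iff]
  constructor
  · rintro ⟨j, hj, hv⟩
    by_cases h : ∃ x, e x = j
    · obtain ⟨x, rfl⟩ := h
      left
      refine ⟨x, hj, ?_⟩
      rw [stq_val]
      rwa [put, he.extend_apply] at hv
    · right
      refine ⟨j, hj, ?_⟩
      rwa [put, Function.extend_apply' _ _ _ h] at hv
  · rintro (⟨x, hj, hv⟩ | ⟨j, hj, hv⟩)
    · refine ⟨e x, hj, ?_⟩
      rw [put, he.extend_apply]
      rwa [stq_val] at hv
    · by_cases h : ∃ x, e x = j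
      · obtain ⟨x, rfl⟩ := h
        rw [ha] at hv
        exact absurd hv (by simp [Tests.val])
      · refine ⟨j, hj, ?_⟩
        rw [put, Function.extend_apply' _ _ _ h]
        exact hv

/-- The substitution. -/
noncomputable def stq_sg (T : Tests (Fin M) E Xn Xp) (a b' : Fin M → St Xn Xp) (z : E → Bool) :
    E ⊕ E → Bool :=
  Sum.elim (fun v => z v || T.xin a v) fun v => !(T.xin b' v)

theorem stq_proj (T : Tests (Fin M) E Xn Xp) (a b' : Fin M → St Xn Xp) :
    IsProj (stq_sg T a b') := by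
  rintro (v | v)
  · cases h : T.xin a v with
    | false =>
      refine Or.inr (Or.inl ⟨v, ?_⟩)
      funext z
      simp [stq_sg, h]
    | true =>
      refine Or.inr (Or.inr ⟨true, ?_⟩)
      funext z
      simp [stq_sg, h]
  · exact Or.inr (Or.inr ⟨!(T.xin b' v), rfl⟩)

theorem stq_inp (T : Tests (Fin M) E Xn Xp) {e : Fin n × Fin K → Fin M}
    (he : Function.Injective e) {a : Fin M → St Xn Xp} (ha : ∀ x, a (e x) = St.emp)
    (b' : Fin M → St Xn Xp) (st : Fin n × Fin K → St Xn Xp) :
    T.inp (put e st a) b' = stq_sg T a b' ((stq_T T e).xin st) := by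
  funext w
  rcases w with v | v
  · exact stq_xin T he ha st v
  · rfl

theorem stq_le (T : Tests (Fin M) E Xn Xp) (a b' : Fin M → St Xn Xp) (z : E → Bool) (w : E ⊕ E)
    (hw : T.inp a b' w = true) : stq_sg T a b' z w = true := by
  rcases w with v | v
  · have h : T.xin a v = true := hw
    show (z v || T.xin a v) = true
    rw [h, Bool.or_true]
  · exact hw

theorem stq_mono (T : Tests (Fin M) E Xn Xp) (a b' : Fin M → St Xn Xp) {z z' : E → Bool}
    (hz : ∀ v, z v = true → z' v = true) (w : E ⊕ E) (hw : stq_sg T a b' z w = true) :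
    stq_sg T a b' z' w = true := by
  rcases w with v | v
  · have h : (z v || T.xin a v) = true := hw
    show (z' v || T.xin a v) = true
    rw [Bool.or_eq_true] at h ⊢
    exact h.imp (hz v) id
  · exact hw

theorem stq_MA (T : Tests (Fin n × Fin K) E Xn Xp) (y : Fin n → Fin K × Xp) (i : Fin n) (v : E)
    (h : T.xin (sM y i) v = true) : T.xin (sA y) v = true := by
  rw [stq_xin_iff] at h ⊢
  obtain ⟨j, hj, hv⟩ := h
  refine ⟨j, hj, ?_⟩
  by_cases h : j.1 ≠ i ∧ j.2 = (y j.1).1
  · have h1 : (sM y i : Fin n × Fin K → St Xn Xp) j = St.pos (y j.1).2 := if_pos h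
    have h2 : (sA y : Fin n × Fin K → St Xn Xp) j = St.pos (y j.1).2 := if_pos h.2
    rw [h2]
    rwa [h1] at hv
  · have h1 : (sM y i : Fin n × Fin K → St Xn Xp) j = St.emp := if_neg h
    rw [h1] at hv
    exact absurd hv (by simp [Tests.val])

/-- All witness bits from the outer and the inner ones. -/
def stq_w (I : Finset (Fin s ⊕ Fin t)) (o : {j // j ∉ I} → Bool) (w : {j // j ∈ I} → Bool) :
    Fin s ⊕ Fin t → Bool := fun j => if hj : j ∈ I then w ⟨j, hj⟩ else o ⟨j, hj⟩

theorem stq_out {I : Finset (Fin s ⊕ Fin t)} (p : Fin s ⊕ Fin t → Bool)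
    (w : {j // j ∈ I} → Bool) : ∀ j, j ∉ I → stq_w I (fun j => p j) w j = p j := by
  intro j hj
  simp [stq_w, hj]

theorem stq_eq {I : Finset (Fin s ⊕ Fin t)} (o : {j // j ∉ I} → Bool) (w : {j // j ∈ I} → Bool)
    (p' : Fin s ⊕ Fin t → Bool) (h : ∀ j, j ∉ I → p' j = stq_w I o w j) :
    stq_w I o (fun j => p' j) = p' := by
  funext j
  by_cases hj : j ∈ I
  · simp [stq_w, hj]
  · rw [h j hj]
    simp [stq_w, hj]

theorem stq_cardO {I : Finset (Fin s ⊕ Fin t)} {d : ℕ} (h : s + t ≤ I.card + d) :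
    Fintype.card ({j // j ∉ I} → Bool) ≤ 2 ^ d := by
  rw [Fintype.card_fun, Fintype.card_bool]
  refine Nat.pow_le_pow_right (by norm_num) ?_
  rw [Fintype.card_subtype_compl, Fintype.card_coe, Fintype.card_sum, Fintype.card_fin,
    Fintype.card_fin]
  omega

theorem stq_cardI {I : Finset (Fin s ⊕ Fin t)} {ι : ℕ} (h : I.card ≤ ι) :
    Fintype.card ({j // j ∈ I} → Bool) ≤ 2 ^ ι := by
  rw [Fintype.card_fun, Fintype.card_bool, Fintype.card_coe]
  exact Nat.pow_le_pow_right (by norm_num) h

/-- The `Σ₂` answer in terms of the outer and inner bits. -/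
theorem stq_sig (I : Finset (Fin s ⊕ Fin t)) (C : NCirc E s t) (x : E → Bool)
    (f : (Fin s ⊕ Fin t → Bool) → (E → Bool) → Bool) (hf : ∀ p, out2 C x p = f p x) :
    Sig I C x ↔ ∃ o : {j // j ∉ I} → Bool, ∀ w : {j // j ∈ I} → Bool,
      f (stq_w I o w) x = true := by
  constructor
  · rintro ⟨p, hp⟩
    refine ⟨fun j => p j, fun w => ?_⟩
    rw [← hf]
    exact hp _ (stq_out p w)
  · rintro ⟨o, ho⟩
    refine ⟨stq_w I o fun _ => false, fun p' hp' => ?_⟩
    rw [hf, ← stq_eq o (fun _ => false) p' hp']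
    exact ho _

end

open Classical in
theorem STQ_thm : Stmt_STQ := by
  intro hMN hGV hAPS hCND hSPR hKXA hKXC hNXC
  intro M n K q s t G d ι B k b h p E T mo C hPar hDis hCL hN hG hd hι a b' e he ha
  have hDis' : (stq_T T e).Dis := fun i j v hi hj => he (hDis _ _ v hi hj)
  have hCL' : CliqueLike (stq_T T e) := fun j v => hCL (e j) v
  have hC := fun i => hGV (E ⊕ E) s t G (C i) (hN i) (hG i) (T.inp a b')
  choose f g hf hg hfv hgv using hC
  have hR : ∀ st : Fin n × Fin K → St (Fin k × Fin b → Fin (k - 1)) (Fin k → Fin b),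
      ∀ w, T.inp a b' w = true → T.inp (put e st a) b' w = true := by
    intro st w hw
    rw [stq_inp T he ha]
    exact stq_le T a b' _ w hw
  have hSN : ∀ st : Fin n × Fin K → St (Fin k × Fin b → Fin (k - 1)) (Fin k → Fin b),
      ¬ SN C (T.inp a b') (T.inp (put e st a) b') ↔
        ∃ m : Fin q × (Fin s → Bool), g m.1 m.2 (stq_sg T a b' ((stq_T T e).xin st)) = true := by
    intro st
    unfold SN
    rw [not_forall]
    constructor
    · rintro ⟨i, hi⟩
      rw [hgv i _ (hR st), not_forall] at hi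
      obtain ⟨u, hu⟩ := hi
      rw [stq_inp T he ha] at hu
      exact ⟨(i, u), by simpa using hu⟩
    · rintro ⟨m, hm⟩
      refine ⟨m.1, fun hi => ?_⟩
      rw [hgv m.1 _ (hR st)] at hi
      have h1 := hi m.2
      rw [stq_inp T he ha, hm] at h1
      exact absurd h1 (by simp)
  have hk2 := hPar.hk2
  have hne : Nonempty (Fin (k - 1)) := ⟨⟨0, by omega⟩⟩
  constructor
  · -- the first bound
    have hX := hNXC hAPS hCND n K G d ι B k b h p E (Fin q × (Fin s → Bool)) (stq_T T e)
      (fun m z => g m.1 m.2 (stq_sg T a b' z)) hPar hDis' hCL'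
      (fun m => (hg m.1 m.2).comp (stq_proj T a b'))
    have hQ : 0 < Fintype.card (Fin n × Fin K → Fin k × Fin b → Fin (k - 1)) := Fintype.card_pos
    have hQ' : (0 : ℝ) < Fintype.card (Fin n × Fin K → Fin k × Fin b → Fin (k - 1)) := by
      exact_mod_cast hQ
    have hP : (0 : ℝ) ≤ Fintype.card (Fin n → Fin K × (Fin k → Fin b)) := Nat.cast_nonneg _
    have h2 : (0 : ℝ) < 2 ^ (2 * h) := by positivity
    by_cases hc : 4 * ((univ : Finset (Fin n × Fin K → Fin k × Fin b → Fin (k - 1))).filter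
        fun χ => ∃ m : Fin q × (Fin s → Bool), g m.1 m.2 (stq_sg T a b'
          ((stq_T T e).xin (sN (Xp := Fin k → Fin b) χ))) = true).card <
        Fintype.card (Fin n × Fin K → Fin k × Fin b → Fin (k - 1))
    · have h3 := hX hc
      have h4 : ((univ : Finset (Fin n → Fin K × (Fin k → Fin b))).filter fun y =>
          ¬ SN C (T.inp a b') (T.inp (put e (sA y) a) b')).card * 2 ^ (2 * h) ≤
          q * 2 ^ s * G * Fintype.card (Fin n → Fin K × (Fin k → Fin b)) := by
        have h5 : Fintype.card (Fin q × (Fin s → Bool)) = q * 2 ^ s := by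
          rw [Fintype.card_prod, Fintype.card_fin, Fintype.card_fun, Fintype.card_bool,
            Fintype.card_fin]
        rw [h5] at h3
        refine le_trans (Nat.mul_le_mul_right _ (Finset.card_le_card fun y hy => ?_)) h3
        rw [mem_filter] at hy ⊢
        exact ⟨mem_univ _, (hSN _).1 hy.2⟩
      have h6 : (((univ : Finset (Fin n → Fin K × (Fin k → Fin b))).filter fun y =>
          ¬ SN C (T.inp a b') (T.inp (put e (sA y) a) b')).card : ℝ) * 2 ^ (2 * h) ≤
          q * 2 ^ s * G * Fintype.card (Fin n → Fin K × (Fin k → Fin b)) := by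
        exact_mod_cast h4
      have h7 : (((univ : Finset (Fin n → Fin K × (Fin k → Fin b))).filter fun y =>
          ¬ SN C (T.inp a b') (T.inp (put e (sA y) a) b')).card : ℝ) ≤
          q * 2 ^ s * G / 2 ^ (2 * h) * Fintype.card (Fin n → Fin K × (Fin k → Fin b)) := by
        rw [div_mul_eq_mul_div, le_div_iff₀ h2]
        exact h6
      refine h7.trans (mul_le_mul_of_nonneg_right ?_ hP)
      exact le_add_of_nonneg_left (div_nonneg (by positivity) hQ'.le)
    · rw [not_lt] at hc
      have h3 : Fintype.card (Fin n × Fin K → Fin k × Fin b → Fin (k - 1)) ≤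
          4 * ((univ : Finset (Fin n × Fin K → Fin k × Fin b → Fin (k - 1))).filter fun χ =>
            ¬ SN C (T.inp a b') (T.inp (put e (sN χ) a) b')).card := by
        refine hc.trans (Nat.mul_le_mul_left _ (Finset.card_le_card fun χ hχ => ?_))
        rw [mem_filter] at hχ ⊢
        exact ⟨mem_univ _, (hSN _).2 hχ.2⟩
      have h4 : (1 : ℝ) ≤ 4 * (((univ : Finset (Fin n × Fin K → Fin k × Fin b →
          Fin (k - 1))).filter fun χ =>
            ¬ SN C (T.inp a b') (T.inp (put e (sN χ) a) b')).card : ℝ) /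
            Fintype.card (Fin n × Fin K → Fin k × Fin b → Fin (k - 1)) := by
        rw [le_div_iff₀ hQ', one_mul]
        exact_mod_cast h3
      have h5 : (((univ : Finset (Fin n → Fin K × (Fin k → Fin b))).filter fun y =>
          ¬ SN C (T.inp a b') (T.inp (put e (sA y) a) b')).card : ℝ) ≤
          Fintype.card (Fin n → Fin K × (Fin k → Fin b)) := by
        exact_mod_cast Finset.card_le_univ _
      refine h5.trans (le_mul_of_one_le_left hP (h4.trans (le_add_of_nonneg_right ?_)))
      exact div_nonneg (by positivity) h2.le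
  · -- the second bound
    let Z : Type := (Fin n → Fin K × (Fin k → Fin b)) × Fin n ×
      (Fin n × Fin K → Fin k × Fin b → Fin (k - 1))
    let Bad : Fin q → Z → Prop := fun i z =>
      (∃ o : {j // j ∉ (mo i).2} → Bool, ∀ w : {j // j ∈ (mo i).2} → Bool,
        f i (stq_w (mo i).2 o w) (stq_sg T a b' ((stq_T T e).xin (sA z.1))) = true) ∧
      ∀ o : {j // j ∉ (mo i).2} → Bool, ∃ w : {j // j ∈ (mo i).2} → Bool,
        f i (stq_w (mo i).2 o w)
          (stq_sg T a b' ((stq_T T e).xin (sB z.1 z.2.1 z.2.2))) = false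
    have hBad : ∀ z : Z, SN C (T.inp a b') (T.inp (put e (sA z.1) a) b') →
        Same2 mo C (T.inp (put e (sM z.1 z.2.1) a) b')
          (T.inp (put e (sB z.1 z.2.1 z.2.2) a) b') →
        ¬ Keep2 true mo C (T.inp (put e (sM z.1 z.2.1) a) b')
          (T.inp (put e (sA z.1) a) b') → ∃ i, Bad i z := by
      intro z h1 h2 h3
      unfold Keep2 at h3
      rw [not_forall] at h3
      obtain ⟨i, hi⟩ := h3
      have hMA : ∀ w, T.inp (put e (sM z.1 z.2.1) a) b' w = true →
          T.inp (put e (sA z.1) a) b' w = true := by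
        intro w hw
        rw [stq_inp T he ha] at hw ⊢
        exact stq_mono T a b' (stq_MA (stq_T T e) z.1 z.2.1) w hw
      obtain ⟨h4, h5⟩ := (hMN (E ⊕ E) s t (C i) (hN i) _ _ _ (hR (sM z.1 z.2.1)) hMA).2 (h1 i)
      have h6 := (hMN (E ⊕ E) s t (C i) (hN i) _ _ _ hMA (fun _ hw => hw)).1 h5 (mo i)
      have h7 : (mo i).1 = true := by
        by_contra h8
        exact hi ⟨h5, fun h9 => absurd h9 h8⟩
      have h8 : ¬ (Ans2 (mo i) (C i) (T.inp (put e (sM z.1 z.2.1) a) b') ↔
          Ans2 (mo i) (C i) (T.inp (put e (sA z.1) a) b')) := fun h9 => hi ⟨h5, fun _ => h9⟩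
      have h9 : ¬ Ans2 (mo i) (C i) (T.inp (put e (sM z.1 z.2.1) a) b') :=
        fun h10 => h8 ⟨fun _ => h6 h10, fun _ => h10⟩
      have h10 : Ans2 (mo i) (C i) (T.inp (put e (sA z.1) a) b') := by
        by_contra h11
        exact h8 ⟨fun h12 => h6 h12, fun h12 => absurd h12 h11⟩
      have h11 : ¬ Ans2 (mo i) (C i) (T.inp (put e (sB z.1 z.2.1 z.2.2) a) b') :=
        fun h12 => h9 ((h2 i).2.2 h12)
      have h12 : SameN (C i) (T.inp a b') (T.inp (put e (sB z.1 z.2.1 z.2.2) a) b') :=
        fun u m hm => (h4 u m hm).trans ((h2 i).1 u m hm)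
      have h13 : Sig (mo i).2 (C i) (T.inp (put e (sA z.1) a) b') := by
        rcases h10 with h14 | h14
        · exact h14.2
        · exact absurd (h7.symm.trans h14.1) (by simp)
      have h14 : ¬ Sig (mo i).2 (C i) (T.inp (put e (sB z.1 z.2.1 z.2.2) a) b') :=
        fun h15 => h11 (Or.inl ⟨h7, h15⟩)
      refine ⟨i, ?_, ?_⟩
      · rw [stq_sig _ _ _ (f i) (hfv i _ (h1 i)), stq_inp T he ha] at h13
        exact h13
      · rw [stq_sig _ _ _ (f i) (hfv i _ h12), stq_inp T he ha] at h14
        intro o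
        by_contra h15
        rw [not_exists] at h15
        exact h14 ⟨o, fun w => by simpa using h15 w⟩
    have hK : ∀ i, B * ((univ : Finset Z).filter fun z => Bad i z).card ≤ Fintype.card Z := by
      intro i
      have h1 := hKXC hAPS hCND hSPR hKXA n K G d ι B k b h p E ({j // j ∉ (mo i).2} → Bool)
        ({j // j ∈ (mo i).2} → Bool) (stq_T T e)
        (fun o w z => f i (stq_w (mo i).2 o w) (stq_sg T a b' z)) hPar hDis' hCL'
        (fun o w => (hf i _).comp (stq_proj T a b')) (stq_cardO (hd i)) (stq_cardI (hι i))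
      refine le_trans (Nat.mul_le_mul_left _ (Finset.card_le_card fun z hz => ?_)) h1
      rw [mem_filter] at hz ⊢
      exact hz
    have hsub : ((univ : Finset Z).filter fun z =>
          SN C (T.inp a b') (T.inp (put e (sA z.1) a) b') ∧
          Same2 mo C (T.inp (put e (sM z.1 z.2.1) a) b')
            (T.inp (put e (sB z.1 z.2.1 z.2.2) a) b') ∧
          ¬ Keep2 true mo C (T.inp (put e (sM z.1 z.2.1) a) b')
            (T.inp (put e (sA z.1) a) b')).card ≤
        ∑ i, ((univ : Finset Z).filter fun z => Bad i z).card := by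
      refine le_trans (Finset.card_le_card ?_) Finset.card_biUnion_le
      intro z hz
      rw [mem_filter] at hz
      rw [mem_biUnion]
      obtain ⟨i, hi⟩ := hBad z hz.2.1 hz.2.2.1 hz.2.2.2
      exact ⟨i, mem_univ _, by rw [mem_filter]; exact ⟨mem_univ _, hi⟩⟩
    have hfin : B * ((univ : Finset Z).filter fun z =>
          SN C (T.inp a b') (T.inp (put e (sA z.1) a) b') ∧
          Same2 mo C (T.inp (put e (sM z.1 z.2.1) a) b')
            (T.inp (put e (sB z.1 z.2.1 z.2.2) a) b') ∧
          ¬ Keep2 true mo C (T.inp (put e (sM z.1 z.2.1) a) b')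
            (T.inp (put e (sA z.1) a) b')).card ≤ q * Fintype.card Z := by
      refine (Nat.mul_le_mul_left _ hsub).trans ?_
      rw [Finset.mul_sum]
      refine (Finset.sum_le_card_nsmul _ _ (Fintype.card Z) fun i _ => hK i).trans ?_
      rw [Finset.card_univ, Fintype.card_fin, smul_eq_mul]
    have hB : (0 : ℝ) < B := by exact_mod_cast hPar.hB
    have h1 : ((B * ((univ : Finset Z).filter fun z =>
          SN C (T.inp a b') (T.inp (put e (sA z.1) a) b') ∧
          Same2 mo C (T.inp (put e (sM z.1 z.2.1) a) b')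
            (T.inp (put e (sB z.1 z.2.1 z.2.2) a) b') ∧
          ¬ Keep2 true mo C (T.inp (put e (sM z.1 z.2.1) a) b')
            (T.inp (put e (sA z.1) a) b')).card : ℕ) : ℝ) ≤ ((q * Fintype.card Z : ℕ) : ℝ) := by
      exact_mod_cast hfin
    rw [Nat.cast_mul, Nat.cast_mul] at h1
    rw [div_mul_eq_mul_div, le_div_iff₀ hB, mul_comm]
    exact h1

end Pool.Agent.S2C
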