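import Pool.Agent.S2C.Stmts
import Pool.Agent.NBC.CNT

/-!
# The windows of the clique problem, one index
-/

set_option autoImplicit false

namespace Pool.Agent.S2C

open Finset Pool.Agent.NegLim Pool.Agent.NLM
open Pool.Agent.NBC (SameN St Tests winT flip neg)
open Pool.Agent.NEG72 (InWin tneg tpos vx vx_inj vx_lt_iff)

open Classical in
lemma cn2_cnt {M : ℕ} {Xn Xp : Type} (a : Fin M → St Xn Xp) :
    ∃ s : Finset (Fin M), cnt a = s.card ∧ ∀ j, j ∈ s ↔ ∃ τ, a j = St.pos τ := by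
  refine ⟨_, rfl, fun j => ?_⟩
  rw [mem_filter]
  exact ⟨fun h => h.2, fun h => ⟨mem_univ _, h⟩⟩

lemma cn2_cntP {M : ℕ} {Xn Xp : Type} (a : Fin M → St Xn Xp) :
    Pool.Agent.NBC.cntP (K := 1) (fun w : Fin M × Fin 1 => a w.1) = cnt a := by
  obtain ⟨s, h1, h2⟩ := cn2_cnt a
  obtain ⟨s', h3, h4⟩ := Pool.Agent.NBC.cnt_cntP (fun w : Fin M × Fin 1 => a w.1)
  rw [h1, h3]
  refine Finset.card_bij (fun w _ => w.1) ?_ ?_ ?_
  · intro w hw
    exact (h2 _).2 ((h4 w).1 hw)
  · rintro ⟨w, i⟩ _ ⟨w', i'⟩ _ h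
    exact Prod.ext h (Subsingleton.elim _ _)
  · intro w hw
    exact ⟨(w, 0), (h4 _).2 ((h2 w).1 hw), rfl⟩

section

variable {v k Q b : ℕ}

lemma cn2_xin {W W' : Type} (hv : k * (2 * Q) * b ≤ v) (φ : W → ℕ × ℕ)
    (hφ : ∀ w, ∀ i < k, (φ w).1 + i * (φ w).2 < 2 * Q) (g : W' → W) (hg : Function.Surjective g)
    (a : W → St (Fin k × Fin b → Fin (k - 1)) (Fin k → Fin b)) (e : Edge v) :
    (winT hv φ hφ).xin a e =
      (winT hv (fun w' => φ (g w')) (fun w' => hφ (g w'))).xin (fun w' => a (g w')) e := by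
  have hval : ∀ (j' : W') (st : St (Fin k × Fin b → Fin (k - 1)) (Fin k → Fin b)),
      (winT hv φ hφ).val (g j') st =
        (winT hv (fun w' => φ (g w')) (fun w' => hφ (g w'))).val j' st := by
    intro j' st
    cases st <;> rfl
  unfold Tests.xin
  rw [decide_eq_decide]
  constructor
  · rintro ⟨j, h1, h2⟩
    obtain ⟨j', rfl⟩ := hg j
    exact ⟨j', h1, (congrFun (hval j' (a (g j'))) e).symm.trans h2⟩
  · rintro ⟨j', h1, h2⟩
    exact ⟨g j', h1, (congrFun (hval j' (a (g j'))) e).trans h2⟩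

end

/-- CN2. The windows of the clique problem, one index. -/
theorem CN2_thm : Stmt_CN2 := by
  intro v k Q b M hv A φ hφ hk hb hA hinj hD
  refine ⟨?_, ?_, ?_⟩
  · intro i j e hi hj
    exact hinj (InWin.unique (e := e) hi hj)
  · intro j e
    by_cases h : ∃ x y : Fin k × Fin b, e.1.1 = vx (φ j) (hφ j) hv x ∧ e.1.2 = vx (φ j) (hφ j) hv y
    · right
      obtain ⟨x, y, hx, hy⟩ := h
      refine ⟨x, y, ?_, ?_, ?_⟩
      · rintro rfl
        have h1 := e.2
        rw [hx, hy] at h1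
        exact lt_irrefl _ h1
      · intro τ hτ
        have h1 : tpos (hφ j) hv τ e = true := hτ
        unfold tpos at h1
        rw [decide_eq_true_eq] at h1
        obtain ⟨i, i', h2, h3⟩ := h1
        have h4 := vx_inj (hφ j) hv (hx.symm.trans h2)
        have h5 := vx_inj (hφ j) hv (hy.symm.trans h3)
        rw [h4, h5]
        exact ⟨rfl, rfl⟩
      · intro χ hχ
        show tneg (hφ j) hv χ e = true
        unfold tneg
        rw [decide_eq_true_eq]
        exact ⟨x, y, hx, hy, hχ⟩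
    · left
      intro τ
      show tpos (hφ j) hv τ e = false
      unfold tpos
      rw [decide_eq_false_iff_not]
      rintro ⟨i, i', h2, h3⟩
      exact h ⟨(i, τ i), (i', τ i'), h2, h3⟩
  · intro a b'
    have hg : Function.Surjective (Prod.fst : Fin M × Fin 1 → Fin M) := fun w => ⟨(w, 0), rfl⟩
    have h1 := (Pool.Agent.NBC.CNT_thm v k Q b M 1 hv A (fun w => φ w.1) (fun w => hφ w.1) hk hb hA
      (fun w w' h => Prod.ext (hinj h) (Subsingleton.elim _ _)) (fun w => hD w.1)).2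
      (fun w => a w.1) (fun w => b' w.1)
    rw [cn2_cntP, cn2_cntP] at h1
    rw [← h1]
    have h2 : (winT hv φ hφ).inp a b' = (winT hv (fun w : Fin M × Fin 1 => φ w.1)
        (fun w => hφ w.1)).inp (fun w => a w.1) (fun w => b' w.1) := by
      funext x
      cases x with
      | inl e => exact cn2_xin hv φ hφ Prod.fst hg a e
      | inr e => exact congrArg (fun t => !t) (cn2_xin hv φ hφ Prod.fst hg b' e)
    rw [h2]

end Pool.Agent.S2C
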