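import Pool.Agent.S2C.Stmts

/-!
# The assembly: PP is outside the Boolean closure of Sigma_2 and Pi_2 for circuits with few negations
-/

set_option autoImplicit false

namespace Pool.Agent.S2C

open Finset Pool.Agent.NegLim Pool.Agent.NLM
open Pool.Agent.NBC (SameN St Tests winT flip neg)

section

variable {W E Xn Xp : Type}

theorem mai_xin (T : Tests W E Xn Xp) {a a' : W → St Xn Xp}
    (h : Sb a a') (e : E) (he : T.xin a e = true) : T.xin a' e = true := by
  simp only [Tests.xin, decide_eq_true_eq] at he ⊢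
  obtain ⟨j, h1, h2⟩ := he
  refine ⟨j, h1, ?_⟩
  rcases h j with h3 | h3
  · rw [h3] at h2
    exact absurd h2 (by simp [Tests.val])
  · rw [← h3]
    exact h2

theorem mai_inp1 (T : Tests W E Xn Xp) {a a' : W → St Xn Xp}
    (b : W → St Xn Xp) (h : Sb a a') (e : E ⊕ E) (he : T.inp a b e = true) :
    T.inp a' b e = true := by
  cases e with
  | inl e => exact mai_xin T h e he
  | inr e => exact he

theorem mai_inp2 (T : Tests W E Xn Xp) {b b' : W → St Xn Xp}
    (a : W → St Xn Xp) (h : Sb b b') (e : E ⊕ E) (he : T.inp a b' e = true) :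
    T.inp a b e = true := by
  cases e with
  | inl e => exact he
  | inr e =>
    show (!(T.xin b e)) = true
    have h1 : (!(T.xin b' e)) = true := he
    rw [Bool.not_eq_true'] at h1 ⊢
    by_contra h2
    rw [Bool.not_eq_false] at h2
    rw [mai_xin T h e h2] at h1
    cases h1

variable {s t q : ℕ}

theorem mai_symm (C : NCirc E s t) {x x' : E → Bool} (h : SameN C x x') : SameN C x' x :=
  fun u n hn => (h u n hn).symm

theorem mai_same_symm (mo : Fin q → Mode s t) (C : Fin q → NCirc E s t) {x x' : E → Bool}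
    (h : Same2 mo C x x') : Same2 mo C x' x :=
  fun i => ⟨mai_symm (C i) (h i).1, (h i).2.symm⟩

/-- The sandwich property of `Same2`. -/
theorem mai_sand (hMN : Stmt_MN2) (mo : Fin q → Mode s t) (C : Fin q → NCirc E s t)
    (hC : ∀ i, (C i).NotsFree) (x x' x'' : E → Bool) (h1 : ∀ e, x e = true → x' e = true)
    (h2 : ∀ e, x' e = true → x'' e = true) (h : Same2 mo C x x'') :
    Same2 mo C x x' ∧ Same2 mo C x' x'' := by
  have key : ∀ i, SameN (C i) x x' ∧ SameN (C i) x' x'' ∧
      (Ans2 (mo i) (C i) x ↔ Ans2 (mo i) (C i) x') ∧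
      (Ans2 (mo i) (C i) x' ↔ Ans2 (mo i) (C i) x'') := by
    intro i
    obtain ⟨-, h3⟩ := hMN E s t (C i) (hC i) x x' x'' h1 h2
    obtain ⟨h4, h5⟩ := h3 (h i).1
    have h6 := (hMN E s t (C i) (hC i) x x' x'' h1 h2).1 h4 (mo i)
    have h7 := (hMN E s t (C i) (hC i) x' x'' x'' h2 (fun e he => he)).1 h5 (mo i)
    have h8 := (h i).2
    exact ⟨h4, h5, ⟨h6, fun h9 => h8.2 (h7 h9)⟩, ⟨h7, fun h9 => h6 (h8.2 h9)⟩⟩
  exact ⟨fun i => ⟨(key i).1, (key i).2.2.1⟩, fun i => ⟨(key i).2.1, (key i).2.2.2⟩⟩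

end

/-- The windows. -/
theorem mai_win (hCN2 : Stmt_CN2) (v k Q b M : ℕ) (A : Finset ℕ) (hk2 : 2 ≤ k) (hb0 : 0 < b)
    (hA : ThreeAPFree (A : Set ℕ))
    (hw : ∀ w ∈ Finset.range Q ×ˢ A, ∀ i < k, w.1 + i * w.2 < 2 * Q)
    (hQb : k * (2 * Q) * b ≤ v) (hM : M ≤ Q * A.card) :
    ∃ T : Tests (Fin M) (Edge v) (Fin k × Fin b → Fin (k - 1)) (Fin k → Fin b),
      T.Dis ∧ CliqueLike T ∧ ∀ a b', More v k (T.inp a b') ↔ cnt b' < cnt a := by
  obtain ⟨φ, hφi, hφm⟩ : ∃ φ : Fin M → ℕ × ℕ, Function.Injective φ ∧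
      ∀ w, φ w ∈ Finset.range Q ×ˢ A := by
    have hc : Fintype.card (Fin M) ≤
        Fintype.card (Finset.range Q ×ˢ A : Finset (ℕ × ℕ)) := by
      rw [Fintype.card_fin, Fintype.card_coe, card_product, card_range]
      exact hM
    obtain ⟨f⟩ := Function.Embedding.nonempty_of_card_le hc
    exact ⟨fun w => (f w).1, fun w w' h => f.injective (Subtype.ext h), fun w => (f w).2⟩
  have hφ : ∀ w, ∀ i < k, (φ w).1 + i * (φ w).2 < 2 * Q := fun w i hi => hw _ (hφm w) i hi
  exact ⟨winT hQb φ hφ, hCN2 v k Q b M hQb A φ hφ hk2 hb0 hA hφi hφm⟩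

open Classical in
theorem mai_cnt0 {W Xn Xp : Type} [Fintype W] : cnt (fun _ : W => (St.emp : St Xn Xp)) = 0 := by
  unfold cnt
  rw [Finset.card_eq_zero]
  apply Finset.eq_empty_of_forall_notMem
  intro w hw
  obtain ⟨τ, hτ⟩ := (Finset.mem_filter.1 hw).2
  cases hτ

open Classical in
theorem mai_cnt1 {W Xn Xp : Type} [Fintype W] (τ : Xp) :
    cnt (fun _ : W => (St.pos τ : St Xn Xp)) = Fintype.card W := by
  unfold cnt
  refine (congrArg Finset.card (Finset.eq_univ_of_forall fun w => ?_)).trans ?_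
  · exact Finset.mem_filter.2 ⟨mem_univ _, _, rfl⟩
  · rw [card_univ]

/-- The function is not constant. -/
theorem mai_const {v k b M : ℕ}
    (T : Tests (Fin M) (Edge v) (Fin k × Fin b → Fin (k - 1)) (Fin k → Fin b))
    (hb0 : 0 < b) (hM : 0 < M) (hT : ∀ a b', More v k (T.inp a b') ↔ cnt b' < cnt a)
    (P : Prop) (h : ∀ x, More v k x ↔ P) : False := by
  have h3 : ¬ P := by
    intro hP
    have := (hT (fun _ => St.emp) (fun _ => St.emp)).1 ((h _).2 hP)
    omega
  have h4 : P := (h _).1 ((hT (fun _ => St.pos fun _ => ⟨0, hb0⟩) (fun _ => St.emp)).2 (by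
    rw [mai_cnt0, mai_cnt1, Fintype.card_fin]
    exact hM))
  exact h3 h4

theorem MAI_thm : Stmt_MAI := by
  classical
  intro hMN hPO hSX hSZ hRSM hCFA hCFB hAVG hTEL hGM2 hCO2 hCN2 hNU2 ε hε hε1
  obtain ⟨v₀, hv₀⟩ := hNU2 ε hε hε1
  refine ⟨max v₀ 2, fun v hv k N q s t r G d ι hk hN hb hι hG mo C D hfree hnots hlen hd hi hF => ?_⟩
  have hv0 : v ≥ v₀ := le_trans (le_max_left _ _) hv
  have hv2 : 2 ≤ v := le_trans (le_max_right _ _) hv
  rcases Nat.eq_zero_or_pos q with hq | hq
  · -- no circuits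
    subst hq
    have hN1 : 1 ≤ N := by
      rw [hN]
      have h1 : 2 * 1 ≤ v * (v - 1) := Nat.mul_le_mul hv2 (by omega)
      omega
    have hN1' : (1 : ℝ) ≤ (N : ℝ) := by exact_mod_cast hN1
    obtain ⟨n, K, B, h, p, b, J, Q, A, hPar, hb0, hJ0, hJ, hδ, hA, hw, hQb, hm⟩ :=
      hv₀ v hv0 k N 1 0 0 0 0 0 hk hN le_rfl (by
        have : ((1 ^ 6 * 2 ^ (0 + 0) * (0 + 1) ^ 2 : ℕ) : ℝ) = 1 := by norm_num
        rw [this]
        exact Real.one_le_rpow hN1' (by linarith)) (by rw [Nat.cast_zero]; positivity)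
        (by rw [Nat.cast_zero]; positivity)
    obtain ⟨T, -, -, hT⟩ := mai_win hCN2 v k Q b (J * (n * K) + (1 + 1) + n - 1) A hPar.hk2 hb0 hA
      hw hQb hm
    refine mai_const T hb0 (by omega) hT (D fun i => i.elim0) fun x => ?_
    rw [hF x]
    have : (fun i : Fin 0 => Ans2 (mo i) (C i) x) = fun i => i.elim0 := by
      funext i
      exact i.elim0
    rw [this]
  · obtain ⟨n, K, B, h, p, b, J, Q, A, hPar, hb0, hJ0, hJ, hδ, hA, hw, hQb, hm⟩ :=
      hv₀ v hv0 k N q s r G d ι hk hN hq hb hι hG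
    obtain ⟨M, hM⟩ : ∃ M : ℕ, M = J * (n * K) + (q + 1) + n - 1 := ⟨_, rfl⟩
    rw [← hM] at hm
    obtain ⟨T, hdis, hcl, hT⟩ := mai_win hCN2 v k Q b M A hPar.hk2 hb0 hA hw hQb hm
    have hn := hPar.hn
    have hK0 : 0 < K := by have := hPar.hK; omega
    have : Nonempty (Fin k × Fin b → Fin (k - 1)) := ⟨fun _ => ⟨0, by have := hPar.hk2; omega⟩⟩
    have : Nonempty (Fin k → Fin b) := ⟨fun _ => ⟨0, hb0⟩⟩
    obtain ⟨hP, hmon⟩ := hPO hMN (Edge v ⊕ Edge v) q s t r mo C hfree hnots
    set δ₁ : ℝ := q * 2 ^ s * G / 2 ^ (2 * h) with hδ₁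
    set δ₂ : ℝ := q / B with hδ₂
    have hδ0 : 0 ≤ δ₁ + δ₂ := by positivity
    -- the bounds for the steps
    have hstepX : ∀ c : Fin M → St (Fin k × Fin b → Fin (k - 1)) (Fin k → Fin b),
        StepB n K (J * (n * K)) (q + 1) (δ₁ + δ₂) (fun a => Pot2 mo C (T.inp a c))
          fun a a' => Keep2 true mo C (T.inp a c) (T.inp a' c) := by
      intro c g l hg hl
      have key := hAVG hRSM hCFA M n K (J * (n * K)) _ _ δ₁ δ₂
        (fun a a' => SN C (T.inp a c) (T.inp a' c)) (fun a a' => Same2 mo C (T.inp a c) (T.inp a' c))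
        (fun a a' => Keep2 true mo C (T.inp a c) (T.inp a' c)) hn hK0
        (by
          intro a e he hae
          refine ((hSX M n K q s t G d ι B k b h p (Edge v) T mo C hPar hdis hcl hfree hlen hd hi a c
            e he hae).1).trans ?_
          have h1 : ((univ : Finset (Fin n × Fin K → Fin k × Fin b → Fin (k - 1))).filter fun χ =>
              ¬ SN C (T.inp a c) (T.inp (put e (sN χ) a) c)).card ≤
              ((univ : Finset (Fin n × Fin K → Fin k × Fin b → Fin (k - 1))).filter fun χ =>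
              ¬ Same2 mo C (T.inp a c) (T.inp (put e (sN χ) a) c)).card := by
            apply Finset.card_le_card
            intro χ hχ
            rw [mem_filter] at hχ ⊢
            exact ⟨hχ.1, fun heq => hχ.2 fun i => (heq i).1⟩
          gcongr)
        (by
          intro a e he hae
          exact (hSX M n K q s t G d ι B k b h p (Edge v) T mo C hPar hdis hcl hfree hlen hd hi a c
            e he hae).2)
        (by
          intro a a' a'' h1 h2 h3
          exact (mai_sand hMN mo C hfree _ _ _ (mai_inp1 T c h1) (mai_inp1 T c h2) h3).1)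
        g l hg (by omega)
      refine key.trans ?_
      have h1 : ∀ l' : ℕ, J * (n * K) + l' ≤ M → ((univ : Finset (Ply M (Fin k × Fin b → Fin (k - 1)) (Fin k → Fin b))).filter
          fun ω => ¬ Same2 mo C (T.inp (conf (J * (n * K)) ω g l') c)
            (T.inp (conf (J * (n * K)) ω (g + n * K) l') c)).card ≤
          ((univ : Finset (Ply M (Fin k × Fin b → Fin (k - 1)) (Fin k → Fin b))).filter
          fun ω => Pot2 mo C (T.inp (conf (J * (n * K)) ω (g + n * K) l') c) ≠
            Pot2 mo C (T.inp (conf (J * (n * K)) ω g l') c)).card := by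
        intro l' hl'
        apply Finset.card_le_card
        intro ω hω
        rw [mem_filter] at hω ⊢
        refine ⟨hω.1, fun heq => hω.2 ?_⟩
        exact (hmon _ _ (mai_inp1 T c (hCFB M (J * (n * K)) _ _ ω g (g + n * K) l' l'
          (Nat.le_add_right _ _) hg le_rfl hl').1)).2 heq
      have h2 := h1 l (by omega)
      have h3 := h1 (l + n - 1) (by omega)
      gcongr
    have hstepZ : ∀ c : Fin M → St (Fin k × Fin b → Fin (k - 1)) (Fin k → Fin b),
        StepB n K (J * (n * K)) (q + 1) (δ₁ + δ₂) (fun a => Pot2 mo C (T.inp c a))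
          fun a a' => Keep2 false mo C (T.inp c a) (T.inp c a') := by
      intro c g l hg hl
      have key := hAVG hRSM hCFA M n K (J * (n * K)) _ _ δ₁ δ₂
        (fun a a' => SN C (T.inp c a) (T.inp c a')) (fun a a' => Same2 mo C (T.inp c a) (T.inp c a'))
        (fun a a' => Keep2 false mo C (T.inp c a) (T.inp c a')) hn hK0
        (by
          intro a e he hae
          refine ((hSZ M n K q s t G d ι B k b h p (Edge v) T mo C hPar hdis hcl hfree hlen hd hi c a
            e he hae).1).trans ?_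
          have h1 : ((univ : Finset (Fin n × Fin K → Fin k × Fin b → Fin (k - 1))).filter fun χ =>
              ¬ SN C (T.inp c a) (T.inp c (put e (sN χ) a))).card ≤
              ((univ : Finset (Fin n × Fin K → Fin k × Fin b → Fin (k - 1))).filter fun χ =>
              ¬ Same2 mo C (T.inp c a) (T.inp c (put e (sN χ) a))).card := by
            apply Finset.card_le_card
            intro χ hχ
            rw [mem_filter] at hχ ⊢
            exact ⟨hχ.1, fun heq => hχ.2 fun i => (heq i).1⟩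
          gcongr)
        (by
          intro a e he hae
          exact (hSZ M n K q s t G d ι B k b h p (Edge v) T mo C hPar hdis hcl hfree hlen hd hi c a
            e he hae).2)
        (by
          intro a a' a'' h1 h2 h3
          exact mai_same_symm mo C (mai_sand hMN mo C hfree _ _ _ (mai_inp2 T c h2)
            (mai_inp2 T c h1) (mai_same_symm mo C h3)).2)
        g l hg (by omega)
      refine key.trans ?_
      have h1 : ∀ l' : ℕ, J * (n * K) + l' ≤ M → ((univ : Finset (Ply M (Fin k × Fin b → Fin (k - 1)) (Fin k → Fin b))).filter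
          fun ω => ¬ Same2 mo C (T.inp c (conf (J * (n * K)) ω g l'))
            (T.inp c (conf (J * (n * K)) ω (g + n * K) l'))).card ≤
          ((univ : Finset (Ply M (Fin k × Fin b → Fin (k - 1)) (Fin k → Fin b))).filter
          fun ω => Pot2 mo C (T.inp c (conf (J * (n * K)) ω (g + n * K) l')) ≠
            Pot2 mo C (T.inp c (conf (J * (n * K)) ω g l'))).card := by
        intro l' hl'
        apply Finset.card_le_card
        intro ω hω
        rw [mem_filter] at hω ⊢
        refine ⟨hω.1, fun heq => hω.2 ?_⟩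
        exact mai_same_symm mo C ((hmon _ _ (mai_inp2 T c (hCFB M (J * (n * K)) _ _ ω g (g + n * K)
          l' l' (Nat.le_add_right _ _) hg le_rfl hl').1)).2 heq.symm)
      have h2 := h1 l (by omega)
      have h3 := h1 (l + n - 1) (by omega)
      gcongr
    obtain ⟨a, c, hac, hstep⟩ := hGM2 hTEL hCFB M n K (q + 1) J (q * 2 ^ (s + r + 1)) _ _ (δ₁ + δ₂)
      (fun a c => Pot2 mo C (T.inp a c)) (fun a c a' => Keep2 true mo C (T.inp a c) (T.inp a' c))
      (fun a c c' => Keep2 false mo C (T.inp a c) (T.inp a c')) hn hK0 hJ0 (le_of_eq hM.symm)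
      (fun a c => hP _) (fun a a' c h => (hmon _ _ (mai_inp1 T c h)).1)
      (fun a c c' h => (hmon _ _ (mai_inp2 T a h)).1) hstepX hstepZ hδ0 hJ (by exact_mod_cast hδ)
    have hlast := hCO2 hMN M n (q + 1) q s t (Edge v) _ _ T mo C D (More v k) hn hfree hF hT a c hac
      (fun l hl => ⟨(hstep l hl).1, (hstep l hl).2.2.1, (hstep l hl).2.2.2⟩)
    omega

end Pool.Agent.S2C
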