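import Pool.Agent.S2C.Stmts

/-!
# S2C, module NXC (helper27): a family of small monotone functions on the neutral fillings
-/

set_option autoImplicit false

namespace Pool.Agent.S2C

open Finset Pool.Agent.NegLim Pool.Agent.NLM
open Pool.Agent.NBC (SameN St Tests winT flip neg)

open Classical in
/-- the gluing map -/
noncomputable def nxc_glue {n : ℕ} {Y : Type} (J : Finset (Fin n))
    (z : (Fin n → Y) × (J → Y)) (c : Fin n) : Y := if h : c ∈ J then z.2 ⟨c, h⟩ else z.1 c

theorem nxc_glue_inj {n : ℕ} {Y : Type} (J : Finset (Fin n)) (u : Fin n → Y)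
    (z z' : (Fin n → Y) × (J → Y)) (hz : ∀ c ∈ J, z.1 c = u c) (hz' : ∀ c ∈ J, z'.1 c = u c)
    (h : nxc_glue J z = nxc_glue J z') : z = z' := by
  refine Prod.ext ?_ ?_
  · funext c
    by_cases hc : c ∈ J
    · exact (hz c hc).trans (hz' c hc).symm
    · have h1 := congrFun h c
      unfold nxc_glue at h1
      rw [dif_neg hc, dif_neg hc] at h1
      exact h1
  · funext c
    have h1 := congrFun h c
    unfold nxc_glue at h1
    rw [dif_pos c.2, dif_pos c.2] at h1
    exact h1

/-- the functions which agree with `u` on `J` -/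
theorem nxc_count {n : ℕ} {Y : Type} [Fintype Y] (J : Finset (Fin n)) (u : Fin n → Y)
    (q : (Fin n → Y) → Prop) [DecidablePred q] (hq : ∀ y, q y → ∀ c ∈ J, y c = u c) :
    ((univ : Finset (Fin n → Y)).filter q).card * Fintype.card Y ^ J.card ≤
      Fintype.card (Fin n → Y) := by
  have h1 : Fintype.card Y ^ J.card = Fintype.card (J → Y) := by
    rw [Fintype.card_fun, Fintype.card_coe]
  rw [h1, ← card_univ (α := J → Y), ← card_product, ← card_univ (α := Fin n → Y)]
  refine card_le_card_of_injOn (nxc_glue J) (fun _ _ => mem_coe.2 (mem_univ _)) ?_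
  intro z hz z' hz' h
  exact nxc_glue_inj J u z z' (hq _ (mem_filter.1 (mem_product.1 (mem_coe.1 hz)).1).2)
    (hq _ (mem_filter.1 (mem_product.1 (mem_coe.1 hz')).1).2) h

open Classical in
/-- the positive tests of `y` -/
noncomputable def nxc_pos {n K : ℕ} {Xp : Type} (y : Fin n → Fin K × Xp) (w : Fin n × Fin K) :
    Option Xp := if w.2 = (y w.1).1 then some (y w.1).2 else none

theorem nxc_xinN {n K : ℕ} {E Xn Xp : Type} (T : Tests (Fin n × Fin K) E Xn Xp)
    (χ : Fin n × Fin K → Xn) (e : E)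
    [Decidable (∃ w ∈ (univ : Finset (Fin n × Fin K)), e ∈ T.B w ∧ T.neu w (χ w) e = true)] :
    decide (∃ w ∈ (univ : Finset (Fin n × Fin K)), e ∈ T.B w ∧ T.neu w (χ w) e = true) =
      T.xin (sN (Xp := Xp) χ) e := by
  unfold Tests.xin
  rw [decide_eq_decide]
  constructor
  · rintro ⟨w, -, h1, h2⟩
    exact ⟨w, h1, h2⟩
  · rintro ⟨w, h1, h2⟩
    exact ⟨w, mem_univ _, h1, h2⟩

theorem nxc_xinA {n K : ℕ} {E Xn Xp : Type} (T : Tests (Fin n × Fin K) E Xn Xp)
    (y : Fin n → Fin K × Xp) (e : E)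
    [Decidable (∃ w, e ∈ T.B w ∧ ∃ τ, nxc_pos y w = some τ ∧ T.pos w τ e = true)] :
    decide (∃ w, e ∈ T.B w ∧ ∃ τ, nxc_pos y w = some τ ∧ T.pos w τ e = true) =
      T.xin (sA y) e := by
  unfold Tests.xin
  rw [decide_eq_decide]
  refine exists_congr fun w => and_congr_right fun _ => ?_
  unfold nxc_pos sA
  by_cases h : w.2 = (y w.1).1
  · rw [if_pos h, if_pos h]
    constructor
    · rintro ⟨τ, h1, h2⟩
      rw [Option.some.injEq] at h1
      rw [← h1] at h2
      exact h2
    · intro h1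
      exact ⟨_, rfl, h1⟩
  · rw [if_neg h, if_neg h]
    constructor
    · rintro ⟨τ, h1, -⟩
      exact absurd h1 (by simp)
    · intro h1
      exact absurd h1 (by simp [Tests.val])

theorem NXC_thm : Stmt_NXC := by
  classical
  intro hAPS hCND n K G d ι B k b h p E Mx _ T f hP hD hC hf h4
  have hK0 : 0 < K := by have := hP.hK; have := hP.hn; omega
  have hb0 : 0 < b := by
    have h1 := hP.hb
    have h2 : 0 < p * (2 * h) := Nat.mul_pos (by have := hP.hp; omega) (by have := hP.hh; omega)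
    omega
  have hcard : Fintype.card (Fin K × (Fin k → Fin b)) = K * b ^ k := by
    rw [Fintype.card_prod, Fintype.card_fun, Fintype.card_fin, Fintype.card_fin, Fintype.card_fin]
  have hS : ∀ Z : Finset ((Fin n × Fin K) × (Fin k × Fin b)),
      ((univ : Finset (Fin n → Fin K × (Fin k → Fin b))).filter fun π =>
        ∀ y ∈ Z, ∃ τ, nxc_pos π y.1 = some τ ∧ τ y.2.1 = y.2.2).card * b ^ Z.card ≤
      Fintype.card (Fin n → Fin K × (Fin k → Fin b)) := by
    intro Z
    have h1 := hCND n K k b ∅ univ hK0 hb0 (fun J u _ _ => by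
      have h2 : ∀ (q : (Fin n → Fin K × (Fin k → Fin b)) → Prop) [DecidablePred q],
          (∀ y, q y → ∀ c ∈ J, y c = u c) →
          ((univ : Finset (Fin n → Fin K × (Fin k → Fin b))).filter q).card *
            (K * b ^ k) ^ J.card ≤ Fintype.card (Fin n → Fin K × (Fin k → Fin b)) := by
        intro q _ hq
        rw [← hcard]
        exact nxc_count J u q hq
      refine le_trans (h2 _ fun y hy => hy) ?_
      rw [card_univ]
      exact Nat.le_mul_of_pos_left _ (Nat.pow_pos hK0)) Z
    rw [card_univ] at h1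
    refine le_trans (Nat.mul_le_mul_right _ (card_le_card ?_)) h1
    intro π hπ
    rw [mem_filter] at hπ ⊢
    refine ⟨mem_univ _, fun x hx => ?_⟩
    obtain ⟨τ, h2, h3⟩ := hπ.2 x hx
    unfold nxc_pos at h2
    by_cases h4 : x.1.2 = (π x.1.1).1
    · rw [if_pos h4, Option.some.injEq] at h2
      rw [h2]
      exact ⟨notMem_empty _, h4.symm, h3⟩
    · rw [if_neg h4] at h2
      exact absurd h2 (by simp)
  have h16 : 16 * G * (p * (2 * h)) ^ (4 * h) ≤ 2 ^ p := by
    refine le_trans ?_ hP.hp2.le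
    have h1 : 1 ≤ B * 2 ^ ι := Nat.mul_pos hP.hB (Nat.pow_pos (by norm_num))
    calc 16 * G * (p * (2 * h)) ^ (4 * h) = 1 * (16 * G * (p * (2 * h)) ^ (4 * h)) :=
          (one_mul _).symm
      _ ≤ (B * 2 ^ ι) * (16 * G * (p * (2 * h)) ^ (4 * h)) := Nat.mul_le_mul_right _ h1
      _ = 16 * B * 2 ^ ι * G * (p * (2 * h)) ^ (4 * h) := by ring
  have hone : ∀ m : Mx, ((univ : Finset (Fin n → Fin K × (Fin k → Fin b))).filter fun y =>
        f m (T.xin (sA y)) = true).card * 2 ^ (2 * h) ≤
      G * Fintype.card (Fin n → Fin K × (Fin k → Fin b)) := by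
    intro m
    have h1 := (hAPS (Fin n × Fin K) E (Fin n → Fin K × (Fin k → Fin b)) k b h p G T hD hC
      hP.hh hP.hk2 hP.hk hP.hp hP.hb univ nxc_pos (fun _ w hw => absurd (mem_univ w) hw) hS
      (f m) (hf m)).2 h16 (by
        refine lt_of_le_of_lt (Nat.mul_le_mul_left _ (card_le_card ?_)) h4
        intro χ hχ
        rw [mem_filter] at hχ ⊢
        refine ⟨mem_univ _, m, ?_⟩
        have h2 : (fun e => decide (∃ w ∈ (univ : Finset (Fin n × Fin K)), e ∈ T.B w ∧
            T.neu w (χ w) e = true)) = T.xin (sN (Xp := Fin k → Fin b) χ) :=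
          funext fun e => nxc_xinN T χ e
        rw [← h2]
        exact hχ.2)
    refine le_trans (Nat.mul_le_mul_right _ (card_le_card ?_)) h1
    intro y hy
    rw [mem_filter] at hy ⊢
    refine ⟨mem_univ _, ?_⟩
    have h2 : (fun e => decide (∃ w, e ∈ T.B w ∧ ∃ τ, nxc_pos y w = some τ ∧
        T.pos w τ e = true)) = T.xin (sA y) := funext fun e => nxc_xinA T y e
    rw [h2]
    exact hy.2
  have hsub : ((univ : Finset (Fin n → Fin K × (Fin k → Fin b))).filter fun y =>
        ∃ m, f m (T.xin (sA y)) = true) ⊆ (univ : Finset Mx).biUnion fun m =>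
        (univ : Finset (Fin n → Fin K × (Fin k → Fin b))).filter fun y =>
        f m (T.xin (sA y)) = true := by
    intro y hy
    rw [mem_filter] at hy
    obtain ⟨-, m, hm⟩ := hy
    rw [mem_biUnion]
    exact ⟨m, mem_univ _, mem_filter.2 ⟨mem_univ _, hm⟩⟩
  calc ((univ : Finset (Fin n → Fin K × (Fin k → Fin b))).filter fun y =>
        ∃ m, f m (T.xin (sA y)) = true).card * 2 ^ (2 * h)
      ≤ (∑ m : Mx, ((univ : Finset (Fin n → Fin K × (Fin k → Fin b))).filter fun y =>
        f m (T.xin (sA y)) = true).card) * 2 ^ (2 * h) :=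
        Nat.mul_le_mul_right _ ((card_le_card hsub).trans card_biUnion_le)
    _ = ∑ m : Mx, ((univ : Finset (Fin n → Fin K × (Fin k → Fin b))).filter fun y =>
        f m (T.xin (sA y)) = true).card * 2 ^ (2 * h) := sum_mul _ _ _
    _ ≤ ∑ _m : Mx, G * Fintype.card (Fin n → Fin K × (Fin k → Fin b)) :=
        sum_le_sum fun m _ => hone m
    _ = Fintype.card Mx * G * Fintype.card (Fin n → Fin K × (Fin k → Fin b)) := by
        rw [sum_const, card_univ, smul_eq_mul, mul_assoc]

end Pool.Agent.S2C
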