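import Pool.Agent.S2C.Stmts
import Pool.Agent.NBC.MNT

/-!
# Monotone answers and the NOT gates in between (S2C): module MN2
-/

set_option autoImplicit false

namespace Pool.Agent.S2C

open Finset Pool.Agent.NegLim Pool.Agent.NLM
open Pool.Agent.NBC (SameN St Tests winT flip neg)

/-- The outputs of the NOT gates determine the number. -/
lemma mn2_num_eq {E : Type} {s t : ℕ} (C : List (Gate E s t)) {x x' : E → Bool}
    {u : Fin s → Bool} {w : Fin t → Bool}
    (h : ∀ n : ℕ, (∃ a, C[n]? = some (Gate.not a)) →
      (vals C x u w)[n]? = (vals C x' u w)[n]?) : num C x u w = num C x' u w := by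
  induction C using List.reverseRecOn with
  | nil => rfl
  | append_singleton C g ih =>
    have hlen : (vals C x u w).length = C.length := vals_length ..
    have hlen' : (vals C x' u w).length = C.length := vals_length ..
    have h1 : num C x u w = num C x' u w := by
      refine ih fun n hn => ?_
      obtain ⟨a, ha⟩ := hn
      have hlt : n < C.length := (List.getElem?_eq_some_iff.1 ha).1
      have h2 := h n ⟨a, by rw [List.getElem?_append_left hlt]; exact ha⟩
      rw [vals_concat, vals_concat, List.getElem?_append_left (by omega),
        List.getElem?_append_left (by omega)] at h2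
      exact h2
    rw [num_concat, num_concat, h1]
    cases g with
    | and a b => rfl
    | or a b => rfl
    | not a =>
      have h2 := h C.length ⟨a, by simp⟩
      rw [vals_concat, vals_concat, List.getElem?_append_right (by omega),
        List.getElem?_append_right (by omega), hlen, hlen'] at h2
      simp only [Nat.sub_self, List.getElem?_cons_zero, Option.some.injEq] at h2
      rw [h2]

/-- The output grows. -/
lemma mn2_out {E : Type} {s t : ℕ} (C : NCirc E s t) (hN : C.NotsFree) {x x' : E → Bool}
    (hx : ∀ e, x e = true → x' e = true) (hS : SameN C x x') (p : Fin s ⊕ Fin t → Bool)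
    (h : out2 C x p = true) : out2 C x' p = true :=
  NBC.MNT_thm E s t C hN x x' hx hS _ _ h

theorem MN2_thm : Stmt_MN2 := by
  intro E s t C hN x x' x'' hx hx'
  refine ⟨fun hS m h => ?_, fun hS => ?_⟩
  · rcases h with ⟨hm, p, hp⟩ | ⟨hm, hp⟩
    · exact Or.inl ⟨hm, p, fun p' hp' => mn2_out C hN hx hS p' (hp p' hp')⟩
    · refine Or.inr ⟨hm, fun p => ?_⟩
      obtain ⟨p', h1, h2⟩ := hp p
      exact ⟨p', h1, mn2_out C hN hx hS p' h2⟩
  · have h0 : ∀ u : Fin s → Bool, num C.gates x u (fun _ => false) =
        num C.gates x'' u (fun _ => false) := fun u => mn2_num_eq C.gates (hS u)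
    refine ⟨fun u => num_inj C.gates ?_, fun u => num_inj C.gates ?_⟩
    · have h1 := num_le C.gates u (fun _ => false) hx
      have h2 := num_le C.gates u (fun _ => false) hx'
      have h3 := h0 u
      omega
    · have h1 := num_le C.gates u (fun _ => false) hx
      have h2 := num_le C.gates u (fun _ => false) hx'
      have h3 := h0 u
      omega

end Pool.Agent.S2C
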