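import Pool.Agent.S2C.Stmts

/-!
# Project S2C, module SPR: the spread subset (helper19)
-/

set_option autoImplicit false

namespace Pool.Agent.S2C

open Finset

open Classical in
theorem spr_card (n : ℕ) (Y : Type) [Fintype Y] (S : Finset (Fin n → Y)) (I : Finset (Fin n))
    (v : Fin n → Y) :
    (S.filter fun y => ∀ i ∈ I, y i = v i).card ≤ Fintype.card Y ^ (n - I.card) := by
  have h1 : (S.filter fun y => ∀ i ∈ I, y i = v i).card ≤
      Fintype.card ({i // i ∉ I} → Y) := by
    rw [← Finset.card_univ]
    refine Finset.card_le_card_of_injOn (fun y i => y i.1) (fun _ _ => mem_coe.2 (mem_univ _)) ?_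
    intro y hy z hz hyz
    have hy' := (mem_filter.1 (mem_coe.1 hy)).2
    have hz' := (mem_filter.1 (mem_coe.1 hz)).2
    funext i
    by_cases hi : i ∈ I
    · rw [hy' i hi, hz' i hi]
    · exact congrFun hyz ⟨i, hi⟩
  refine h1.trans (le_of_eq ?_)
  rw [Fintype.card_fun]
  congr 1
  rw [Fintype.card_subtype_compl, Fintype.card_fin, Fintype.card_coe]

theorem SPR_thm : Stmt_SPR := by
  classical
  intro n B Y _ _ S hS hB
  obtain ⟨c, hc⟩ : ∃ c, c = Fintype.card Y := ⟨_, rfl⟩
  have hc0 : 0 < c := by
    rw [hc]
    exact Fintype.card_pos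
  let F : Finset (Fin n) → (Fin n → Y) → ℕ := fun I v =>
    (S.filter fun y => ∀ i ∈ I, y i = v i).card
  obtain ⟨⟨I, v⟩, -, hmax⟩ := Finset.exists_max_image
    (univ : Finset (Finset (Fin n) × (Fin n → Y)))
    (fun q => F q.1 q.2 * c ^ q.1.card * 2 ^ (n - q.1.card)) ⟨(∅, Classical.arbitrary _), mem_univ _⟩
  have hIn : I.card ≤ n := by
    have := Finset.card_le_univ I
    rwa [Fintype.card_fin] at this
  have hSc : 0 < S.card := hS.card_pos
  have h0 : S.card * 2 ^ n ≤ F I v * c ^ I.card * 2 ^ (n - I.card) := by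
    have h1 := hmax (∅, v) (mem_univ _)
    have h2 : F ∅ v = S.card := by
      show (S.filter fun y => ∀ i ∈ (∅ : Finset (Fin n)), y i = v i).card = S.card
      congr 1
      exact Finset.filter_true_of_mem fun y _ i hi => absurd hi (Finset.notMem_empty i)
    simp only [h2, Finset.card_empty, pow_zero, mul_one, Nat.sub_zero] at h1
    exact h1
  have hF : 0 < F I v := by
    rcases Nat.eq_zero_or_pos (F I v) with h1 | h1
    · rw [h1, zero_mul, zero_mul] at h0
      have : 0 < S.card * 2 ^ n := Nat.mul_pos hSc (pow_pos (by norm_num) _)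
      omega
    · exact h1
  refine ⟨I, v, Finset.card_pos.1 hF, ?_, ?_⟩
  · have h1 : F I v ≤ c ^ (n - I.card) := by
      rw [hc]
      exact spr_card n Y S I v
    have h2 : F I v * c ^ I.card ≤ B * S.card := by
      calc F I v * c ^ I.card ≤ c ^ (n - I.card) * c ^ I.card := Nat.mul_le_mul_right _ h1
        _ = c ^ n := by rw [← pow_add, Nat.sub_add_cancel hIn]
        _ ≤ B * S.card := by rw [hc]; exact hB
    have h3 : 2 ^ I.card * (S.card * 2 ^ (n - I.card)) ≤ B * (S.card * 2 ^ (n - I.card)) := by
      calc 2 ^ I.card * (S.card * 2 ^ (n - I.card)) = S.card * (2 ^ (n - I.card) * 2 ^ I.card) := by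
            ring
        _ = S.card * 2 ^ n := by rw [← pow_add, Nat.sub_add_cancel hIn]
        _ ≤ F I v * c ^ I.card * 2 ^ (n - I.card) := h0
        _ ≤ B * S.card * 2 ^ (n - I.card) := Nat.mul_le_mul_right _ h2
        _ = B * (S.card * 2 ^ (n - I.card)) := by ring
    exact Nat.le_of_mul_le_mul_right h3 (Nat.mul_pos hSc (pow_pos (by norm_num) _))
  · intro J u hJI
    have hcard : (I ∪ J).card = I.card + J.card := Finset.card_union_of_disjoint hJI.symm
    have hle : I.card + J.card ≤ n := by
      rw [← hcard]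
      have := Finset.card_le_univ (I ∪ J)
      rwa [Fintype.card_fin] at this
    have h1 := hmax (I ∪ J, fun i => if i ∈ J then u i else v i) (mem_univ _)
    have h2 : F (I ∪ J) (fun i => if i ∈ J then u i else v i) =
        ((S.filter fun y => ∀ i ∈ I, y i = v i).filter fun y => ∀ i ∈ J, y i = u i).card := by
      show (S.filter fun y => ∀ i ∈ I ∪ J, y i = if i ∈ J then u i else v i).card = _
      rw [Finset.filter_filter]
      congr 1
      refine Finset.filter_congr fun y _ => ?_
      constructor
      · intro h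
        refine ⟨fun i hi => ?_, fun i hi => ?_⟩
        · have h3 := h i (mem_union_left _ hi)
          rwa [if_neg (fun h4 => Finset.disjoint_left.1 hJI h4 hi)] at h3
        · have h3 := h i (mem_union_right _ hi)
          rwa [if_pos hi] at h3
      · rintro ⟨ha, hb⟩ i hi
        by_cases h4 : i ∈ J
        · rw [if_pos h4]
          exact hb i h4
        · rw [if_neg h4]
          exact ha i ((mem_union.1 hi).resolve_right h4)
    simp only [h2, hcard] at h1
    rw [← hc]
    set G := ((S.filter fun y => ∀ i ∈ I, y i = v i).filter fun y => ∀ i ∈ J, y i = u i).card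
    have e1 : 2 ^ (n - I.card) = 2 ^ J.card * 2 ^ (n - (I.card + J.card)) := by
      rw [← pow_add]
      congr 1
      omega
    have h3 : G * c ^ J.card * (c ^ I.card * 2 ^ (n - (I.card + J.card))) ≤
        2 ^ J.card * F I v * (c ^ I.card * 2 ^ (n - (I.card + J.card))) := by
      calc G * c ^ J.card * (c ^ I.card * 2 ^ (n - (I.card + J.card))) =
          G * c ^ (I.card + J.card) * 2 ^ (n - (I.card + J.card)) := by
            rw [pow_add]
            ring
        _ ≤ F I v * c ^ I.card * 2 ^ (n - I.card) := h1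
        _ = 2 ^ J.card * F I v * (c ^ I.card * 2 ^ (n - (I.card + J.card))) := by
            rw [e1]
            ring
    exact Nat.le_of_mul_le_mul_right h3
      (Nat.mul_pos (pow_pos hc0 _) (pow_pos (by norm_num) _))

end Pool.Agent.S2C
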