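import Pool.Agent.S2C.Stmts

/-!
# Project S2C, module CO2: the chain is short
-/

set_option autoImplicit false

namespace Pool.Agent.S2C

open Finset Pool.Agent.NegLim Pool.Agent.NLM
open Pool.Agent.NBC (SameN St Tests winT flip neg)

section

variable {W : Type} {q s t : ℕ} {E Xn Xp : Type}

theorem co2_xin (T : Tests W E Xn Xp) {a a' : W → St Xn Xp}
    (h : Sb a a') (e : E) (he : T.xin a e = true) : T.xin a' e = true := by
  unfold Pool.Agent.NBC.Tests.xin at he ⊢
  obtain ⟨j, hj, hv⟩ := @of_decide_eq_true _ (Classical.propDecidable _) he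
  refine @decide_eq_true _ (Classical.propDecidable _) ⟨j, hj, ?_⟩
  rcases h j with h1 | h1
  · rw [h1] at hv
    exact absurd hv (by simp [Pool.Agent.NBC.Tests.val])
  · rw [← h1]
    exact hv

theorem co2_inp (T : Tests W E Xn Xp) {a a' : W → St Xn Xp}
    (h : Sb a a') (b : W → St Xn Xp) (e : E ⊕ E) (he : T.inp a b e = true) :
    T.inp a' b e = true := by
  cases e with
  | inl e => exact co2_xin T h e he
  | inr e => exact he

open Classical in
/-- the accepting circuits of the kind `false` -/
noncomputable def co2_S (mo : Fin q → Mode s t) (C : Fin q → NCirc (E ⊕ E) s t)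
    (x : E ⊕ E → Bool) : Finset (Fin q) :=
  univ.filter fun i => (mo i).1 = false ∧ Ans2 (mo i) (C i) x

theorem co2_mem (mo : Fin q → Mode s t) (C : Fin q → NCirc (E ⊕ E) s t) (x : E ⊕ E → Bool)
    (i : Fin q) : i ∈ co2_S mo C x ↔ (mo i).1 = false ∧ Ans2 (mo i) (C i) x := by
  classical
  unfold co2_S
  rw [mem_filter]
  exact ⟨fun h => h.2, fun h => ⟨mem_univ i, h⟩⟩

end

theorem CO2_thm : Stmt_CO2 := by
  intro hM M n L q s t E Xn Xp T mo C D Fn hn hfree hFn hcnt a b hab hstep
  classical
  have key : ∀ l ≤ L, l ≤ (co2_S mo C (T.inp (a l) (b l))).card := by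
    intro l
    induction l with
    | zero => intro _; exact Nat.zero_le _
    | succ l ih =>
      intro hl
      have h0 := ih (by omega)
      obtain ⟨hs, hk0, hk1⟩ := hstep l (by omega)
      set x := T.inp (a l) (b l) with hx
      set y := T.inp (a (l + 1)) (b l) with hy
      set z := T.inp (a (l + 1)) (b (l + 1)) with hz
      have hxy : ∀ e, x e = true → y e = true := fun e he => co2_inp T hs (b l) e he
      have hsub : co2_S mo C x ⊆ co2_S mo C y := by
        intro i hi
        rw [co2_mem] at hi ⊢
        exact ⟨hi.1, (hM (E ⊕ E) s t (C i) (hfree i) x y y hxy (fun _ h => h)).1 (hk0 i).1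
          (mo i) hi.2⟩
      have hFx : ¬ Fn x := by
        rw [hx, hcnt, (hab l (by omega)).1, (hab l (by omega)).2]
        exact lt_irrefl _
      have hFy : Fn y := by
        rw [hy, hcnt, (hab (l + 1) hl).1, (hab l (by omega)).2]
        omega
      have hne : co2_S mo C x ≠ co2_S mo C y := by
        intro heq
        apply hFx
        rw [hFn] at hFy ⊢
        have he : (fun i => Ans2 (mo i) (C i) x) = fun i => Ans2 (mo i) (C i) y := by
          funext i
          apply propext
          cases hmo : (mo i).1 with
          | true => exact (hk0 i).2 hmo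
          | false =>
            have h1 := co2_mem mo C x i
            have h2 := co2_mem mo C y i
            rw [heq] at h1
            constructor
            · intro h3
              exact (h2.1 (h1.2 ⟨hmo, h3⟩)).2
            · intro h3
              exact (h1.1 (h2.2 ⟨hmo, h3⟩)).2
        rw [he]
        exact hFy
      have hlt : (co2_S mo C x).card < (co2_S mo C y).card :=
        card_lt_card (Finset.ssubset_iff_subset_ne.2 ⟨hsub, hne⟩)
      have heq : co2_S mo C z = co2_S mo C y := by
        ext i
        rw [co2_mem, co2_mem]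
        constructor
        · rintro ⟨h1, h2⟩
          exact ⟨h1, ((hk1 i).2 h1).2 h2⟩
        · rintro ⟨h1, h2⟩
          exact ⟨h1, ((hk1 i).2 h1).1 h2⟩
      rw [heq]
      omega
  have h1 := key L le_rfl
  have h2 : (co2_S mo C (T.inp (a L) (b L))).card ≤ q := by
    have := card_le_univ (co2_S mo C (T.inp (a L) (b L)))
    rwa [Fintype.card_fin] at this
  omega

end Pool.Agent.S2C
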