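import Pool.Agent.S2C.Stmts
import Pool.Agent.NBC.DUA

/-!
# DU2: the dual circuits
-/

set_option autoImplicit false

namespace Pool.Agent.S2C

open Finset Pool.Agent.NegLim Pool.Agent.NLM
open Pool.Agent.NBC (SameN St Tests neg flip)

variable {E : Type} {s t : ℕ}

lemma du2_out (C : NCirc (E ⊕ E) s t) (x : E ⊕ E → Bool) (p : Fin s ⊕ Fin t → Bool) :
    out2 (flip C) (neg x) p = !(out2 C x p) :=
  Pool.Agent.NBC.dua_out' C x _ _

lemma du2_sig (I : Finset (Fin s ⊕ Fin t)) (C : NCirc (E ⊕ E) s t) (x : E ⊕ E → Bool) :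
    Sig I (flip C) (neg x) ↔ ¬ Pie I C x := by
  unfold Sig Pie
  simp only [du2_out, not_forall, not_exists, not_and, Bool.not_eq_true', Bool.not_eq_true]

lemma du2_pie (I : Finset (Fin s ⊕ Fin t)) (C : NCirc (E ⊕ E) s t) (x : E ⊕ E → Bool) :
    Pie I (flip C) (neg x) ↔ ¬ Sig I C x := by
  unfold Sig Pie
  simp only [du2_out, not_forall, not_exists, Bool.not_eq_true', Bool.not_eq_true, exists_prop]

lemma du2_ans (m : Mode s t) (C : NCirc (E ⊕ E) s t) (x : E ⊕ E → Bool) :
    Ans2 (!m.1, m.2) (flip C) (neg x) ↔ ¬ Ans2 m C x := by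
  obtain ⟨κ, I⟩ := m
  unfold Ans2
  cases κ with
  | true =>
    simp only [du2_pie, Bool.not_true, Bool.false_eq_true, Bool.true_eq_false, false_and, true_and,
      false_or, or_false]
  | false =>
    simp only [du2_sig, Bool.not_false, Bool.false_eq_true, Bool.true_eq_false, false_and, true_and,
      false_or, or_false]

theorem DU2_thm : Stmt_DU2 := by
  intro E q s t mo C
  refine ⟨fun i hi => ?_, fun i => tc_nots .., fun i => tc_length .., fun x x' => ⟨?_, ?_, ?_⟩⟩
  · exact tc_free true _ (fun x => neg x) (fun x u w e l => Pool.Agent.NBC.dua_rho x u w e l) (C i) hi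
  · unfold SN
    exact forall_congr' fun i => Pool.Agent.NBC.dua_sameN (C i) x x'
  · unfold Keep2
    refine forall_congr' fun i => and_congr (Pool.Agent.NBC.dua_sameN (C i) x x') ?_
    rw [du2_ans (mo i), du2_ans (mo i), not_iff_not]
    simp only [Bool.not_eq_true']
  · unfold Same2
    refine forall_congr' fun i => and_congr (Pool.Agent.NBC.dua_sameN (C i) x x') ?_
    rw [du2_ans (mo i), du2_ans (mo i), not_iff_not]

end Pool.Agent.S2C
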