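import Pool.Agent.NBC.Stmts

/-!
# Boolean combinations of Sigma_2 and Pi_2 circuits with few negations: definitions

The circuits are those of `Pool.Agent.NegLim.Defs`. `out2`, `Sig`, `Pie`, `Mode`, `Ans2` are the definitions of
the final statement; all other definitions belong to the proof.
-/

set_option autoImplicit false

namespace Pool.Agent.S2C

open Finset Pool.Agent.NegLim Pool.Agent.NLM
open Pool.Agent.NBC (SameN St Tests)

/-! ### circuits -/

section

variable {E : Type} {s t : ℕ}

/-- The output of the circuit on the input `x` for the witness bits `p`. -/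
def out2 (C : NCirc E s t) (x : E → Bool) (p : Fin s ⊕ Fin t → Bool) : Bool :=
  outp C x (fun i => p (Sum.inl i)) fun j => p (Sum.inr j)

/-- The `Σ₂` answer with the set `I` of inner witness bits: for some values of the other witness bits
the output is `true` for all values of the bits in `I`. -/
def Sig (I : Finset (Fin s ⊕ Fin t)) (C : NCirc E s t) (x : E → Bool) : Prop :=
  ∃ p : Fin s ⊕ Fin t → Bool, ∀ p' : Fin s ⊕ Fin t → Bool, (∀ i, i ∉ I → p' i = p i) →
    out2 C x p' = true

/-- The `Π₂` answer with the set `I` of inner witness bits: for all values of the other witness bits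
the output is `true` for some values of the bits in `I`. -/
def Pie (I : Finset (Fin s ⊕ Fin t)) (C : NCirc E s t) (x : E → Bool) : Prop :=
  ∀ p : Fin s ⊕ Fin t → Bool, ∃ p' : Fin s ⊕ Fin t → Bool, (∀ i, i ∉ I → p' i = p i) ∧
    out2 C x p' = true

/-- A mode: the kind of the answer (`true` for `Σ₂`, `false` for `Π₂`) and the set of the inner witness
bits. -/
abbrev Mode (s t : ℕ) : Type := Bool × Finset (Fin s ⊕ Fin t)

/-- The answer of the circuit on the input `x` in the mode `m`. -/
def Ans2 (m : Mode s t) (C : NCirc E s t) (x : E → Bool) : Prop :=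
  (m.1 = true ∧ Sig m.2 C x) ∨ (m.1 = false ∧ Pie m.2 C x)

/-- The NOT gates of all circuits have the same outputs on `x` and `x'`. -/
def SN {q : ℕ} (C : Fin q → NCirc E s t) (x x' : E → Bool) : Prop := ∀ i, SameN (C i) x x'

/-- The NOT gates and the answers are the same. -/
def Same2 {q : ℕ} (mo : Fin q → Mode s t) (C : Fin q → NCirc E s t) (x x' : E → Bool) : Prop :=
  ∀ i, SameN (C i) x x' ∧ (Ans2 (mo i) (C i) x ↔ Ans2 (mo i) (C i) x')

/-- The NOT gates and the answers of the kind `κ` are the same. -/
def Keep2 (κ : Bool) {q : ℕ} (mo : Fin q → Mode s t) (C : Fin q → NCirc E s t) (x x' : E → Bool) :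
    Prop :=
  ∀ i, SameN (C i) x x' ∧ ((mo i).1 = κ → (Ans2 (mo i) (C i) x ↔ Ans2 (mo i) (C i) x'))

open Classical in
/-- The potential: it decreases if the input grows. -/
noncomputable def Pot2 {q : ℕ} (mo : Fin q → Mode s t) (C : Fin q → NCirc E s t) (x : E → Bool) : ℕ :=
  ∑ i, ((∑ u : Fin s → Bool, 2 * num (C i).gates x u (fun _ => false)) +
    if Ans2 (mo i) (C i) x then 0 else 1)

end

/-! ### tests -/

/-- The tests of every window are cliques and complete multipartite graphs on `Fin k × Fin b`: a variable
which is `true` for some positive tests is an edge `x y` of the positive tests which contain `x`, `y`, and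
it is `true` in the neutral tests which give different colours to `x` and `y`. -/
def CliqueLike {W E : Type} {k b : ℕ}
    (T : Tests W E (Fin k × Fin b → Fin (k - 1)) (Fin k → Fin b)) : Prop :=
  ∀ j e, (∀ τ, T.pos j τ e = false) ∨ ∃ x y : Fin k × Fin b, x ≠ y ∧
    (∀ τ, T.pos j τ e = true → τ x.1 = x.2 ∧ τ y.1 = y.2) ∧ ∀ χ, χ x ≠ χ y → T.neu j χ e = true

section

variable {W Xn Xp : Type} {n K : ℕ}

/-- `a` is a part of `a'`. -/
def Sb (a a' : W → St Xn Xp) : Prop := ∀ w, a w = St.emp ∨ a w = a' w

open Classical in
/-- The number of the windows with a positive test. -/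
noncomputable def cnt [Fintype W] (a : W → St Xn Xp) : ℕ :=
  ((univ : Finset W).filter fun w => ∃ τ, a w = St.pos τ).card

/-! States of `n` cells of `K` windows each. -/

/-- One positive test in every cell. -/
def sA (y : Fin n → Fin K × Xp) : Fin n × Fin K → St Xn Xp := fun x =>
  if x.2 = (y x.1).1 then St.pos (y x.1).2 else St.emp

/-- The same without the positive test in the cell `i`. -/
def sM (y : Fin n → Fin K × Xp) (i : Fin n) : Fin n × Fin K → St Xn Xp := fun x =>
  if x.1 ≠ i ∧ x.2 = (y x.1).1 then St.pos (y x.1).2 else St.emp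

/-- The same with neutral tests in all other windows of the cells. -/
def sB (y : Fin n → Fin K × Xp) (i : Fin n) (χ : Fin n × Fin K → Xn) : Fin n × Fin K → St Xn Xp :=
  fun x => if x.1 ≠ i ∧ x.2 = (y x.1).1 then St.pos (y x.1).2 else St.neu (χ x)

/-- Neutral tests in all windows of the cells. -/
def sN (χ : Fin n × Fin K → Xn) : Fin n × Fin K → St Xn Xp := fun x => St.neu (χ x)

/-- The states `st` in the windows `e x`, the states `a` elsewhere. -/
noncomputable def put (e : Fin n × Fin K → W) (st : Fin n × Fin K → St Xn Xp) (a : W → St Xn Xp) :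
    W → St Xn Xp := Function.extend e st a

end

/-! ### the random configurations -/

section

variable {M : ℕ} {Xn Xp : Type}

/-- The random choices for one half: a permutation (the window of every role), a neutral test and a
positive test for every window. -/
abbrev Ply (M : ℕ) (Xn Xp : Type) : Type := Equiv.Perm (Fin M) × (Fin M → Xn) × (Fin M → Xp)

/-- The windows of the roles `0, …, g - 1` have their neutral tests, the windows of the roles
`m, …, m + l - 1` their positive tests, all other windows are empty. -/
def conf (m : ℕ) (ω : Ply M Xn Xp) (g l : ℕ) : Fin M → St Xn Xp := fun w =>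
  if (ω.1.symm w : ℕ) < g then St.neu (ω.2.1 w)
  else if m ≤ (ω.1.symm w : ℕ) ∧ (ω.1.symm w : ℕ) < m + l then St.pos (ω.2.2 w)
  else St.emp

/-- The windows of the cells: the window number `j` of the cell `c` is the window of the role
`g + c K + j`. -/
def cel {n K g : ℕ} (h : g + n * K ≤ M) (ω : Ply M Xn Xp) (x : Fin n × Fin K) : Fin M :=
  ω.1 ⟨g + finProdFinEquiv x, by have := (finProdFinEquiv x).2; omega⟩

end

/-! ### numbers -/

/-- The conditions for the numbers of one step. -/
structure Par (n K G d ι B k b h p : ℕ) : Prop where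
  hn : 0 < n
  hK : 4 * n ≤ K
  hB : 0 < B
  hh : 1 ≤ h
  hk : 2 * h * (2 * h - 1) ≤ k - 1
  hk2 : 2 ≤ k
  hp : 2 ≤ p
  hb : 4 * (p * (2 * h)) ≤ b
  hG : 4 * G ≤ 2 ^ (2 * h)
  hp2 : 16 * B * 2 ^ ι * G * (p * (2 * h)) ^ (4 * h) < 2 ^ p
  hd : ∀ i, 2 ^ i ≤ 2 * B * 2 ^ d → 4 * B * i ≤ n

end Pool.Agent.S2C
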