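import Pool.Agent.S2C.Stmts

/-!
# The number of the coins is small
-/

set_option autoImplicit false

namespace Pool.Agent.S2C

open Finset Pool.Agent.NegLim Pool.Agent.NLM Filter Topology

theorem few_choose (v k : ℕ) : v.choose k ≤ 2 ^ (k * Nat.clog 2 v) := by
  refine (Nat.choose_le_pow v k).trans ?_
  rw [mul_comm, pow_mul]
  exact Nat.pow_le_pow_left (Nat.le_pow_clog (by norm_num) v) k

theorem few_clog (v : ℕ) (hv : 2 ≤ v) : (Nat.clog 2 v : ℝ) ≤ 2 * Real.log v + 1 := by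
  have h1 : Nat.clog 2 v ≤ Nat.log 2 v + 1 := Nat.clog_le_of_le_pow (Nat.lt_pow_succ_log_self
    (by norm_num) v).le
  have h2 : (Nat.log 2 v : ℝ) ≤ 2 * Real.log v := by
    have h3 : (2 : ℝ) ^ Nat.log 2 v ≤ v := by
      exact_mod_cast Nat.pow_log_le_self 2 (by omega)
    have h4 := Real.log_le_log (by positivity) h3
    rw [Real.log_pow] at h4
    have h5 := Real.log_two_gt_d9
    have h6 : (0 : ℝ) ≤ Nat.log 2 v := Nat.cast_nonneg _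
    nlinarith
  have h7 : (Nat.clog 2 v : ℝ) ≤ Nat.log 2 v + 1 := by exact_mod_cast h1
  linarith

theorem few_num (ε : ℝ) (hε : 0 < ε) (hε1 : ε ≤ 1) : ∃ v₀ : ℕ, ∀ v ≥ v₀, ∀ k N : ℕ,
    k = ⌊(v : ℝ) ^ (ε / 32)⌋₊ → N = v * (v - 1) / 2 →
    ((k * Nat.clog 2 v + 1 : ℕ) : ℝ) ≤ (N : ℝ) ^ (ε / 60) := by
  have h1 : ∀ᶠ x : ℝ in atTop, ‖Real.log x‖ ≤ (1 / 100) * ‖x ^ (ε / 480)‖ :=
    (isLittleO_log_rpow_atTop (by positivity)).def (by norm_num)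
  have h2 := tendsto_natCast_atTop_atTop (R := ℝ) |>.eventually h1
  obtain ⟨v₁, hv₁⟩ := eventually_atTop.1 h2
  refine ⟨max v₁ 3, fun v hv k N hk hN => ?_⟩
  have hv1 : v₁ ≤ v := (le_max_left _ _).trans hv
  have hv3 : 3 ≤ v := (le_max_right _ _).trans hv
  have hvR : (3 : ℝ) ≤ v := by exact_mod_cast hv3
  have hv0 : (0 : ℝ) < v := by linarith
  have h3 := hv₁ v hv1
  have hlog1 : 1 ≤ Real.log v := by
    have h4 : Real.exp 1 ≤ v := (Real.exp_one_lt_d9.le.trans (by norm_num)).trans hvR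
    have := Real.log_le_log (Real.exp_pos 1) h4
    rwa [Real.log_exp] at this
  have hx0 : 0 < (v : ℝ) ^ (ε / 480) := Real.rpow_pos_of_pos hv0 _
  rw [Real.norm_eq_abs, Real.norm_eq_abs, abs_of_nonneg (by linarith), abs_of_pos hx0] at h3
  have hkR : (k : ℝ) ≤ (v : ℝ) ^ (ε / 32) := by
    rw [hk]
    exact Nat.floor_le (Real.rpow_nonneg hv0.le _)
  have h5 := few_clog v (by omega)
  have hA0 : 0 < (v : ℝ) ^ (ε / 32) := Real.rpow_pos_of_pos hv0 _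
  have hA1 : 1 ≤ (v : ℝ) ^ (ε / 32) := Real.one_le_rpow (by linarith) (by positivity)
  have h6 : ((k * Nat.clog 2 v + 1 : ℕ) : ℝ) ≤ 4 * Real.log v * (v : ℝ) ^ (ε / 32) := by
    push_cast
    have h7 : (k : ℝ) * Nat.clog 2 v ≤ (v : ℝ) ^ (ε / 32) * (2 * Real.log v + 1) :=
      mul_le_mul hkR h5 (Nat.cast_nonneg _) hA0.le
    nlinarith
  have h8 : 4 * Real.log v * (v : ℝ) ^ (ε / 32) ≤ 1 / 2 * ((v : ℝ) ^ (ε / 480) * (v : ℝ) ^ (ε / 32)) := by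
    nlinarith
  have h9 : (v : ℝ) ^ (ε / 480) * (v : ℝ) ^ (ε / 32) = (v : ℝ) ^ (ε / 30) := by
    rw [← Real.rpow_add hv0]
    congr 1
    ring
  have hNv : (v : ℝ) ^ 2 / 4 ≤ N := by
    have h10 : v * (v - 1) / 2 * 2 = v * (v - 1) := by
      apply Nat.div_mul_cancel
      exact (Nat.even_mul_pred_self v).two_dvd
    have h11 : (N : ℝ) * 2 = v * (v - 1) := by
      rw [hN]
      have : ((v * (v - 1) / 2 * 2 : ℕ) : ℝ) = ((v * (v - 1) : ℕ) : ℝ) := by rw [h10]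
      push_cast at this
      rw [Nat.cast_sub (by omega : 1 ≤ v), Nat.cast_one] at this
      exact this
    nlinarith
  have h12 : (v : ℝ) ^ (ε / 30) / 2 ≤ (N : ℝ) ^ (ε / 60) := by
    refine le_trans ?_ (Real.rpow_le_rpow (by positivity) hNv (by positivity))
    rw [Real.div_rpow (by positivity) (by norm_num)]
    have h13 : ((v : ℝ) ^ 2) ^ (ε / 60) = (v : ℝ) ^ (ε / 30) := by
      rw [← Real.rpow_natCast, ← Real.rpow_mul hv0.le]
      congr 1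
      push_cast
      ring
    rw [h13]
    have h14 : (4 : ℝ) ^ (ε / 60) ≤ 2 := by
      have h15 : (4 : ℝ) ^ (ε / 60) ≤ (4 : ℝ) ^ (1 / 2 : ℝ) :=
        Real.rpow_le_rpow_of_exponent_le (by norm_num) (by linarith)
      have h16 : (4 : ℝ) ^ (1 / 2 : ℝ) = 2 := by
        rw [show (4 : ℝ) = 2 ^ (2 : ℝ) by norm_num, ← Real.rpow_mul (by norm_num)]
        norm_num
      linarith
    have h17 : 0 < (4 : ℝ) ^ (ε / 60) := Real.rpow_pos_of_pos (by norm_num) _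
    exact div_le_div_of_nonneg_left (Real.rpow_nonneg hv0.le _) h17 h14
  rw [h9] at h8
  linarith

/-- **The PP mode with few coins.** -/
theorem few_pp (hUPS : Stmt_UPS) (ε : ℝ) (hε : 0 < ε) (hε1 : ε ≤ 1) : ∃ v₀ : ℕ, ∀ v ≥ v₀, ∀ k N : ℕ,
    k = ⌊(v : ℝ) ^ (ε / 32)⌋₊ → N = v * (v - 1) / 2 →
    ∃ (T : ℕ) (C : NCirc (Edge v ⊕ Edge v) 0 T), (T : ℝ) ≤ (N : ℝ) ^ (ε / 60) ∧ C.nots = 0 ∧
      C.gates.length ≤ 2 * v ^ 2 + 8 ∧ ∀ z, Maj C z ↔ More v k z := by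
  obtain ⟨v₀, hv₀⟩ := few_num ε hε hε1
  refine ⟨v₀, fun v hv k N hk hN => ?_⟩
  obtain ⟨C, h1, h2, h3⟩ := hUPS v k (k * Nat.clog 2 v) (few_choose v k)
  exact ⟨k * Nat.clog 2 v + 1, C, hv₀ v hv k N hk hN, h1, h2, h3⟩

end Pool.Agent.S2C
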