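import Pool.Agent.S2C.Stmts
import Pool.Agent.NBC.GAM

/-!
# Module S2C_GM2: the random chain
-/

set_option autoImplicit false

namespace Pool.Agent.S2C

open Finset
open Pool.Agent.NBC (St gam_good gamS gamS_nonneg gamS_le gam_cX gam_cZ gam_le)

open Classical in
/-- The chain for abstract configurations. -/
theorem gm2_abs (hTEL : Pool.Agent.NBC.Stmt_TEL) {Ω A : Type} [Fintype Ω] [Nonempty Ω]
    (S : A → A → Prop) (ca : ℕ → ℕ → Ω → A) (n L J P : ℕ) (δ : ℝ) (Φ : A → A → ℕ)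
    (BX BZ : A → A → A → Prop) (hn : 0 < n) (hJ : 0 < J)
    (hmono : ∀ ω g u, g < J → u ≤ L + n - 1 → S (ca g u ω) (ca (g + 1) u ω))
    (hP : ∀ a b, Φ a b ≤ P)
    (h1 : ∀ a a' b, S a a' → Φ a' b ≤ Φ a b) (h2 : ∀ a b b', S b b' → Φ a b ≤ Φ a b')
    (hX : ∀ (ω' : Ω) (g h l : ℕ), g < J → l < L → (((univ : Finset Ω).filter fun ω =>
        BX (ca g (l + n - 1) ω) (ca h (l + n - 1) ω') (ca g (l + n) ω)).card : ℝ) ≤
      4 * (((univ : Finset Ω).filter fun ω =>
        Φ (ca (g + 1) l ω) (ca h (l + n - 1) ω') ≠ Φ (ca g l ω) (ca h (l + n - 1) ω')).card : ℝ) +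
      (((univ : Finset Ω).filter fun ω =>
        Φ (ca (g + 1) (l + n - 1) ω) (ca h (l + n - 1) ω') ≠
          Φ (ca g (l + n - 1) ω) (ca h (l + n - 1) ω')).card : ℝ) + δ * Fintype.card Ω)
    (hZ : ∀ (ω : Ω) (g h l : ℕ), h < J → l < L → (((univ : Finset Ω).filter fun ω' =>
        BZ (ca g (l + n) ω) (ca h (l + n - 1) ω') (ca h (l + n) ω')).card : ℝ) ≤
      4 * (((univ : Finset Ω).filter fun ω' =>
        Φ (ca g (l + n) ω) (ca (h + 1) l ω') ≠ Φ (ca g (l + n) ω) (ca h l ω')).card : ℝ) +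
      (((univ : Finset Ω).filter fun ω' =>
        Φ (ca g (l + n) ω) (ca (h + 1) (l + n - 1) ω') ≠
          Φ (ca g (l + n) ω) (ca h (l + n - 1) ω')).card : ℝ) + δ * Fintype.card Ω)
    (hJP : 32 * (L * P) ≤ J) (hLδ : 4 * (L * δ) < 1) :
    ∃ g < J, ∃ h < J, ∃ ω ω' : Ω, ∀ l < L,
      ¬ BX (ca g (l + n - 1) ω) (ca h (l + n - 1) ω') (ca g (l + n) ω) ∧
      ¬ BZ (ca g (l + n) ω) (ca h (l + n - 1) ω') (ca h (l + n) ω') := by
  obtain ⟨N, hN⟩ : ∃ N : ℝ, N = (Fintype.card Ω : ℝ) := ⟨_, rfl⟩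
  have hNpos : 0 < N := by
    rw [hN]
    exact_mod_cast Fintype.card_pos
  obtain ⟨g, hg, htel⟩ := hTEL J L (4 * (N * N * P))
    (fun i g h => gamS Φ (ca g i) (ca h (i + n - 1)) +
      gamS Φ (ca g (i + n - 1)) (ca h (i + n - 1)) + gamS Φ (ca g (i + n)) (ca h i) +
      gamS Φ (ca g (i + n)) (ca h (i + n - 1))) hJ
    (fun i g h => by
      have h3 := gamS_le Φ P hP (ca g i) (ca h (i + n - 1))
      have h4 := gamS_le Φ P hP (ca g (i + n - 1)) (ca h (i + n - 1))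
      have h5 := gamS_le Φ P hP (ca g (i + n)) (ca h i)
      have h6 := gamS_le Φ P hP (ca g (i + n)) (ca h (i + n - 1))
      have k3 := gamS_nonneg Φ (ca g i) (ca h (i + n - 1))
      have k4 := gamS_nonneg Φ (ca g (i + n - 1)) (ca h (i + n - 1))
      have k5 := gamS_nonneg Φ (ca g (i + n)) (ca h i)
      have k6 := gamS_nonneg Φ (ca g (i + n)) (ca h (i + n - 1))
      rw [← hN] at h3 h4 h5 h6
      beta_reduce
      constructor <;> linarith)
  obtain ⟨h, hh⟩ : ∃ h, h = J - 1 - g := ⟨_, rfl⟩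
  have hJg : J - g = h + 1 := by omega
  have hhJ : h < J := by omega
  rw [← hh, hJg] at htel
  -- the four differences
  obtain ⟨D, hD⟩ : ∃ D : ℕ → ℕ → ℝ, D = fun u u' =>
    gamS Φ (ca g u) (ca (h + 1) u') - gamS Φ (ca (g + 1) u) (ca h u') := ⟨_, rfl⟩
  have hcX : ∀ u u' : ℕ, u ≤ L + n - 1 → u' ≤ L + n - 1 →
      ∑ ω' : Ω, (((univ : Finset Ω).filter fun ω =>
        Φ (ca (g + 1) u ω) (ca h u' ω') ≠ Φ (ca g u ω) (ca h u' ω')).card : ℝ) ≤ D u u' := by
    intro u u' hu hu'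
    have := gam_cX S Φ h1 h2 (ca g u) (ca (g + 1) u) (ca h u') (ca (h + 1) u')
      (fun ω => hmono ω g u hg hu) (fun ω => hmono ω h u' hhJ hu')
    rw [hD]
    exact this
  have hcZ : ∀ u u' : ℕ, u ≤ L + n - 1 → u' ≤ L + n - 1 →
      ∑ ω : Ω, (((univ : Finset Ω).filter fun ω' =>
        Φ (ca g u ω) (ca (h + 1) u' ω') ≠ Φ (ca g u ω) (ca h u' ω')).card : ℝ) ≤ D u u' := by
    intro u u' hu hu'
    have := gam_cZ S Φ h1 h2 (ca g u) (ca (g + 1) u) (ca h u') (ca (h + 1) u')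
      (fun ω => hmono ω g u hg hu) (fun ω => hmono ω h u' hhJ hu')
    rw [hD]
    exact this
  have hD0 : ∀ u u' : ℕ, u ≤ L + n - 1 → u' ≤ L + n - 1 → 0 ≤ D u u' := fun u u' hu hu' =>
    le_trans (Finset.sum_nonneg fun _ _ => Nat.cast_nonneg _) (hcX u u' hu hu')
  have hsum : ∑ _ω : Ω, δ * (Fintype.card Ω : ℝ) = δ * (N * N) := by
    rw [Finset.sum_const, nsmul_eq_mul, Finset.card_univ, hN]
    ring
  have hbX : ∀ l < L, ∑ ω' : Ω, (((univ : Finset Ω).filter fun ω =>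
      BX (ca g (l + n - 1) ω) (ca h (l + n - 1) ω') (ca g (l + n) ω)).card : ℝ) ≤
      4 * D l (l + n - 1) + D (l + n - 1) (l + n - 1) + δ * (N * N) := by
    intro l hl
    refine le_trans (Finset.sum_le_sum fun ω' _ => hX ω' g h l hg hl) ?_
    rw [Finset.sum_add_distrib, Finset.sum_add_distrib, ← Finset.mul_sum, hsum]
    have h4 := hcX l (l + n - 1) (by omega) (by omega)
    have h5 := hcX (l + n - 1) (l + n - 1) (by omega) (by omega)
    linarith
  have hbZ : ∀ l < L, ∑ ω : Ω, (((univ : Finset Ω).filter fun ω' =>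
      BZ (ca g (l + n) ω) (ca h (l + n - 1) ω') (ca h (l + n) ω')).card : ℝ) ≤
      4 * D (l + n) l + D (l + n) (l + n - 1) + δ * (N * N) := by
    intro l hl
    refine le_trans (Finset.sum_le_sum fun ω _ => hZ ω g h l hhJ hl) ?_
    rw [Finset.sum_add_distrib, Finset.sum_add_distrib, ← Finset.mul_sum, hsum]
    have h4 := hcZ (l + n) l (by omega) (by omega)
    have h5 := hcZ (l + n) (l + n - 1) (by omega) (by omega)
    linarith
  have htot : ∑ l ∈ range L, (∑ ω' : Ω, (((univ : Finset Ω).filter fun ω =>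
      BX (ca g (l + n - 1) ω) (ca h (l + n - 1) ω') (ca g (l + n) ω)).card : ℝ) +
      ∑ ω : Ω, (((univ : Finset Ω).filter fun ω' =>
      BZ (ca g (l + n) ω) (ca h (l + n - 1) ω') (ca h (l + n) ω')).card : ℝ)) <
      (Fintype.card Ω : ℝ) * Fintype.card Ω := by
    have h3 : ∑ l ∈ range L, (∑ ω' : Ω, (((univ : Finset Ω).filter fun ω =>
        BX (ca g (l + n - 1) ω) (ca h (l + n - 1) ω') (ca g (l + n) ω)).card : ℝ) +
        ∑ ω : Ω, (((univ : Finset Ω).filter fun ω' =>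
        BZ (ca g (l + n) ω) (ca h (l + n - 1) ω') (ca h (l + n) ω')).card : ℝ)) ≤
        ∑ l ∈ range L, (4 * (D l (l + n - 1) + D (l + n - 1) (l + n - 1) + D (l + n) l +
          D (l + n) (l + n - 1)) + 2 * (δ * (N * N))) := by
      refine Finset.sum_le_sum fun l hl => ?_
      have hl' := mem_range.1 hl
      have h4 := hbX l hl'
      have h5 := hbZ l hl'
      have h6 := hD0 (l + n - 1) (l + n - 1) (by omega) (by omega)
      have h7 := hD0 (l + n) (l + n - 1) (by omega) (by omega)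
      linarith
    refine lt_of_le_of_lt h3 ?_
    rw [Finset.sum_add_distrib, ← Finset.mul_sum, Finset.sum_const, nsmul_eq_mul, card_range,
      Finset.sum_range]
    rw [← hN]
    have hNN : 0 < N * N := mul_pos hNpos hNpos
    have hJr : (0 : ℝ) < J := by exact_mod_cast hJ
    have hJP' : 32 * ((L : ℝ) * P) ≤ J := by exact_mod_cast hJP
    have h6 : (L : ℝ) * (4 * (N * N * P)) / J ≤ N * N / 8 := by
      rw [div_le_iff₀ hJr]
      have h7 : N * N * (32 * ((L : ℝ) * P)) ≤ N * N * J := mul_le_mul_of_nonneg_left hJP' hNN.le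
      linarith
    have h8 : 4 * ((L : ℝ) * δ) * (N * N) < 1 * (N * N) := mul_lt_mul_of_pos_right hLδ hNN
    have h9 := le_trans htel h6
    have h10 : ∑ i : Fin L, (D i (i + n - 1) + D (i + n - 1) (i + n - 1) + D (i + n) i +
        D (i + n) (i + n - 1)) ≤ N * N / 8 := by
      refine le_trans (le_of_eq ?_) h9
      refine Finset.sum_congr rfl fun i _ => ?_
      rw [hD]
      ring
    linarith
  obtain ⟨ω, ω', hgood⟩ := gam_good L
    (fun l ω ω' => BX (ca g (l + n - 1) ω) (ca h (l + n - 1) ω') (ca g (l + n) ω))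
    (fun l ω ω' => BZ (ca g (l + n) ω) (ca h (l + n - 1) ω') (ca h (l + n) ω')) htot
  exact ⟨g, hg, h, hhJ, ω, ω', hgood⟩

theorem GM2_thm : Stmt_GM2 := by
  intro hTEL hCFB M n K L J P Xn Xp _ _ _ _ δ Φ X Z hn hK hJ hM hP h1 h2 hX hZ hδ hJP hLδ
  obtain ⟨m, hm⟩ : ∃ m, m = J * (n * K) := ⟨_, rfl⟩
  rw [← hm] at hM
  have hle : ∀ g, g ≤ J → g * (n * K) ≤ m := fun g hg => by
    rw [hm]
    exact Nat.mul_le_mul_right _ hg
  obtain ⟨g, hg, h, hh, ω, ω', hgood⟩ := gm2_abs hTEL (Ω := Ply M Xn Xp) Sb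
    (fun g u ω => conf m ω (g * (n * K)) u) n L J P δ Φ (fun a b a' => ¬ X a b a')
    (fun a b b' => ¬ Z a b b') hn hJ
    (fun ω g u hg hu => by
      have e : (g + 1) * (n * K) = g * (n * K) + n * K := Nat.succ_mul g (n * K)
      exact (hCFB M m Xn Xp ω (g * (n * K)) ((g + 1) * (n * K)) u u (by omega)
        (hle (g + 1) hg) le_rfl (by omega)).1) hP h1 h2
    (fun ω' g h l hg hl => by
      have e : (g + 1) * (n * K) = g * (n * K) + n * K := Nat.succ_mul g (n * K)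
      have h3 := hX (conf m ω' (h * (n * K)) (l + n - 1)) (g * (n * K)) l
        (by rw [← e, ← hm]; exact hle (g + 1) hg) hl
      rw [← hm] at h3
      beta_reduce
      rw [e]
      exact gam_le h3)
    (fun ω g h l hh hl => by
      have e : (h + 1) * (n * K) = h * (n * K) + n * K := Nat.succ_mul h (n * K)
      have h3 := hZ (conf m ω (g * (n * K)) (l + n)) (h * (n * K)) l
        (by rw [← e, ← hm]; exact hle (h + 1) hh) hl
      rw [← hm] at h3
      beta_reduce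
      rw [e]
      exact gam_le h3)
    hJP hLδ
  have hc : ∀ (ω : Ply M Xn Xp) (g l : ℕ), g < J → l ≤ L →
      cnt (conf m ω (g * (n * K)) (l + n - 1)) = l + n - 1 := fun ω g l hg hl =>
    (hCFB M m Xn Xp ω (g * (n * K)) (g * (n * K)) (l + n - 1) (l + n - 1) le_rfl
      (hle g hg.le) le_rfl (by omega)).2
  have hs : ∀ (ω : Ply M Xn Xp) (g l : ℕ), g < J → l < L →
      Sb (conf m ω (g * (n * K)) (l + n - 1)) (conf m ω (g * (n * K)) (l + 1 + n - 1)) :=
    fun ω g l hg hl =>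
    (hCFB M m Xn Xp ω (g * (n * K)) (g * (n * K)) (l + n - 1) (l + 1 + n - 1) le_rfl
      (hle g hg.le) (by omega) (by omega)).1
  refine ⟨fun l => conf m ω (g * (n * K)) (l + n - 1), fun l => conf m ω' (h * (n * K)) (l + n - 1),
    fun l hl => ⟨hc ω g l hg hl, hc ω' h l hh hl⟩, fun l hl =>
    ⟨hs ω g l hg hl, hs ω' h l hh hl, ?_, ?_⟩⟩
  · have e : l + 1 + n - 1 = l + n := by omega
    show X (conf m ω (g * (n * K)) (l + n - 1)) (conf m ω' (h * (n * K)) (l + n - 1))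
      (conf m ω (g * (n * K)) (l + 1 + n - 1))
    rw [e]
    exact not_not.1 (hgood l hl).1
  · have e : l + 1 + n - 1 = l + n := by omega
    show Z (conf m ω (g * (n * K)) (l + 1 + n - 1)) (conf m ω' (h * (n * K)) (l + n - 1))
      (conf m ω' (h * (n * K)) (l + 1 + n - 1))
    rw [e]
    exact not_not.1 (hgood l hl).2

end Pool.Agent.S2C
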