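import Pool.Agent.S2C.Stmts
import Pool.Agent.NBC.NUM

/-!
# The parameters
-/

set_option autoImplicit false

namespace Pool.Agent.S2C

open Finset Pool.Agent.NegLim Pool.Agent.NLM

/-- The number `n` is large enough. -/
theorem nu2_hd {B d i : ℕ} (hi : 2 ^ i ≤ 2 * B * 2 ^ d) : i ≤ d + 2 + Nat.log 2 B := by
  have e1 : B < 2 ^ (Nat.log 2 B + 1) := Nat.lt_pow_succ_log_self (by norm_num) B
  have e2 : 2 ^ i < 2 ^ (d + 2 + Nat.log 2 B) := by
    calc 2 ^ i ≤ 2 * B * 2 ^ d := hi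
      _ < 2 * 2 ^ (Nat.log 2 B + 1) * 2 ^ d := by
          apply Nat.mul_lt_mul_of_pos_right _ (by positivity)
          omega
      _ = 2 ^ (d + 2 + Nat.log 2 B) := by ring
  exact ((Nat.pow_lt_pow_iff_right (by norm_num)).1 e2).le

/-- The bound of `n` and of the number of the windows. -/
theorem nu2_n {q c d s r B n J : ℕ} (hq : 1 ≤ q) (hB : B = 16 * q * (q + 1))
    (hlog : Nat.log 2 B ≤ 2 * c + 5) (hn : n = 4 * B * (d + 2 + Nat.log 2 B))
    (hJ : J = 32 * ((q + 1) * (q * 2 ^ (s + r + 1)))) :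
    n ≤ 128 * q ^ 2 * ((d + 1) * (2 * c + 7)) ∧ J ≤ 128 * q ^ 2 * 2 ^ (s + r) ∧
      J * (n * (4 * n)) + (q + 1) + n - 1 ≤ 8 * (J * n ^ 2) := by
  have h1 : q * (q + 1) ≤ 2 * q ^ 2 := by nlinarith
  have h2 : B ≤ 32 * q ^ 2 := by
    rw [hB, mul_assoc]
    omega
  refine ⟨?_, ?_, ?_⟩
  · have h3 : d + 2 + Nat.log 2 B ≤ (d + 1) * (2 * c + 7) := by
      have h4 : (d + 1) * (2 * c + 7) = d * (2 * c) + 7 * d + (2 * c + 7) := by ring
      omega
    calc n = 4 * B * (d + 2 + Nat.log 2 B) := hn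
      _ ≤ 4 * (32 * q ^ 2) * ((d + 1) * (2 * c + 7)) :=
          Nat.mul_le_mul (Nat.mul_le_mul_left _ h2) h3
      _ = 128 * q ^ 2 * ((d + 1) * (2 * c + 7)) := by ring
  · calc J = 64 * (q * (q + 1)) * 2 ^ (s + r) := by
          rw [hJ, pow_succ 2 (s + r)]
          ring
      _ ≤ 64 * (2 * q ^ 2) * 2 ^ (s + r) :=
          Nat.mul_le_mul_right _ (Nat.mul_le_mul_left _ h1)
      _ = 128 * q ^ 2 * 2 ^ (s + r) := by ring
  · have hJ0 : 1 ≤ J := by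
      have : 0 < J := by
        rw [hJ]
        positivity
      exact this
    have h3 : q ≤ n := by
      calc q = q * 1 := (mul_one q).symm
        _ ≤ q * (64 * (q + 1) * (d + 2 + Nat.log 2 B)) := by
            apply Nat.mul_le_mul_left
            have : 0 < 64 * (q + 1) * (d + 2 + Nat.log 2 B) := by positivity
            exact this
        _ = n := by
            rw [hn, hB]
            ring
    have h4 : 1 ≤ n := hq.trans h3
    have h5 : n ≤ J * n ^ 2 := by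
      calc n = 1 * n * 1 := by ring
        _ ≤ J * n * n := Nat.mul_le_mul (Nat.mul_le_mul_right _ hJ0) h4
        _ = J * n ^ 2 := by ring
    have h6 : J * (n * (4 * n)) = 4 * (J * n ^ 2) := by ring
    rw [h6]
    omega

/-- The parameters, with powers of one real number `y`. -/
theorem nu2_core {y E : ℝ} {v k q s r G d ι c g : ℕ} (hy : 100 ≤ y) (hyv : y ^ 1600 ≤ v)
    (hk1 : (k : ℝ) ≤ y ^ 50) (hk2 : y ^ 50 < k + 1) (hq : 1 ≤ q)
    (hmain : (q : ℝ) ^ 6 * 2 ^ (s + r) * (d + 1) ^ 2 * y ^ 3200 ≤ (v : ℝ) ^ 2)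
    (hc : v ≤ 2 ^ c) (hcy : (c : ℝ) ≤ y + 1) (hG : G ≤ 2 ^ g) (hgy : (g : ℝ) ≤ y ^ 16 + 1)
    (hι : (ι : ℝ) ≤ y ^ 640) (hE0 : 0 < E) (hE : E ≤ y)
    (hwin : ∀ b : ℕ, 0 < b → 0 < k → 2 * k * b * k ≤ v → ∃ (Q : ℕ) (D : Finset ℕ),
      ThreeAPFree (D : Set ℕ) ∧ (∀ w ∈ Finset.range Q ×ˢ D, ∀ i < k, w.1 + i * w.2 < 2 * Q) ∧
        k * (2 * Q) * b ≤ v ∧
        (v : ℝ) ^ 2 ≤ 32 * ((k : ℝ) ^ 3 * (b : ℝ) ^ 2) * E * ((Q * D.card : ℕ) : ℝ)) :
    ∃ (n K B h p b J Q : ℕ) (A : Finset ℕ), Par n K G d ι B k b h p ∧ 0 < b ∧ 0 < J ∧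
      32 * ((q + 1) * (q * 2 ^ (s + r + 1))) ≤ J ∧
      4 * (((q + 1 : ℕ) : ℝ) * (q * 2 ^ s * G / 2 ^ (2 * h) + q / B)) < 1 ∧
      ThreeAPFree (A : Set ℕ) ∧
      (∀ w ∈ Finset.range Q ×ˢ A, ∀ i < k, w.1 + i * w.2 < 2 * Q) ∧ k * (2 * Q) * b ≤ v ∧
      J * (n * K) + (q + 1) + n - 1 ≤ Q * A.card := by
  have hy0 : (0 : ℝ) < y := by linarith
  have hy1 : (1 : ℝ) ≤ y := by linarith
  have hq1 : (1 : ℝ) ≤ q := by exact_mod_cast hq
  have hy16 : (100 : ℝ) ≤ y ^ 16 := hy.trans (le_self_pow₀ hy1 (by norm_num))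
  have hy9 : (100 : ℝ) ≤ y ^ 9 := hy.trans (le_self_pow₀ hy1 (by norm_num))
  have hyy16 : y ≤ y ^ 16 := le_self_pow₀ hy1 (by norm_num)
  have hy25' : 100 * y ^ 16 ≤ y ^ 25 := by
    rw [show y ^ 25 = y ^ 9 * y ^ 16 by rw [← pow_add]]
    exact mul_le_mul_of_nonneg_right hy9 (by positivity)
  have hy25b : (100 : ℝ) ≤ y ^ 25 := hy.trans (le_self_pow₀ hy1 (by norm_num))
  have hy50' : 100 * y ^ 25 ≤ y ^ 50 := by
    rw [show y ^ 50 = y ^ 25 * y ^ 25 by rw [← pow_add]]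
    exact mul_le_mul_of_nonneg_right hy25b (by positivity)
  have hy640 : (100 : ℝ) ≤ y ^ 640 := hy.trans (le_self_pow₀ hy1 (by norm_num))
  have hy800 : (100 : ℝ) ≤ y ^ 800 := hy.trans (le_self_pow₀ hy1 (by norm_num))
  have hy800' : 100 * y ^ 640 ≤ y ^ 800 := by
    rw [show y ^ 800 = y ^ 160 * y ^ 640 by rw [← pow_add]]
    exact mul_le_mul_of_nonneg_right (hy.trans (le_self_pow₀ hy1 (by norm_num))) (by positivity)
  -- the data
  obtain ⟨h, hh1, hh2⟩ : ∃ h : ℕ, (h : ℝ) ≤ y ^ 25 / 3 ∧ y ^ 25 / 3 < h + 1 :=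
    ⟨⌊y ^ 25 / 3⌋₊, Nat.floor_le (by positivity), Nat.lt_floor_add_one _⟩
  obtain ⟨p, hp1, hp2⟩ : ∃ p : ℕ, y ^ 800 ≤ p ∧ (p : ℝ) < y ^ 800 + 1 :=
    ⟨⌈y ^ 800⌉₊, Nat.le_ceil _, Nat.ceil_lt_add_one (by positivity)⟩
  have hp3 : (p : ℝ) ≤ 2 * y ^ 800 := by linarith
  have hh0 : 1 ≤ h := by
    have e1 : (1 : ℝ) ≤ h := by linarith
    exact_mod_cast e1
  have hp0 : 2 ≤ p := by
    have e1 : (2 : ℝ) ≤ p := by linarith
    exact_mod_cast e1
  have hk0 : 2 ≤ k := by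
    have e1 : (2 : ℝ) < k := by linarith
    have e2 : 2 < k := by exact_mod_cast e1
    omega
  obtain ⟨b, hb⟩ : ∃ b : ℕ, b = 8 * h * p := ⟨_, rfl⟩
  have hb0 : 0 < b := by
    rw [hb]
    positivity
  obtain ⟨B, hB⟩ : ∃ B : ℕ, B = 16 * q * (q + 1) := ⟨_, rfl⟩
  have hB0 : 0 < B := by
    rw [hB]
    positivity
  obtain ⟨n, hn⟩ : ∃ n : ℕ, n = 4 * B * (d + 2 + Nat.log 2 B) := ⟨_, rfl⟩
  have hn0 : 0 < n := by
    rw [hn]
    positivity
  obtain ⟨J, hJ⟩ : ∃ J : ℕ, J = 32 * ((q + 1) * (q * 2 ^ (s + r + 1))) := ⟨_, rfl⟩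
  have hJ0 : 0 < J := by
    rw [hJ]
    positivity
  -- the main inequality and its consequences
  obtain ⟨T, hT⟩ : ∃ T : ℝ, T = (q : ℝ) ^ 6 * 2 ^ (s + r) * (d + 1) ^ 2 := ⟨_, rfl⟩
  rw [← hT] at hmain
  have hT0 : 0 < T := by
    rw [hT]
    positivity
  have hTv : T ≤ (v : ℝ) ^ 2 := by
    refine le_trans ?_ hmain
    exact le_mul_of_one_le_right hT0.le (one_le_pow₀ hy1)
  have h2r : (1 : ℝ) ≤ 2 ^ r := one_le_pow₀ (by norm_num)
  have hd1 : (1 : ℝ) ≤ ((d : ℝ) + 1) ^ 2 := by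
    apply one_le_pow₀
    have : (0 : ℝ) ≤ (d : ℝ) := by positivity
    linarith
  have hqsT : (q : ℝ) ^ 2 * 2 ^ s ≤ T := by
    rw [hT]
    calc (q : ℝ) ^ 2 * 2 ^ s ≤ (q : ℝ) ^ 6 * 2 ^ s := by
          apply mul_le_mul_of_nonneg_right _ (by positivity)
          exact pow_le_pow_right₀ hq1 (by norm_num)
      _ ≤ (q : ℝ) ^ 6 * 2 ^ (s + r) := by
          rw [pow_add]
          apply mul_le_mul_of_nonneg_left _ (by positivity)
          exact le_mul_of_one_le_right (by positivity) h2r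
      _ ≤ (q : ℝ) ^ 6 * 2 ^ (s + r) * (d + 1) ^ 2 := le_mul_of_one_le_right (by positivity) hd1
  have hqs : q ^ 2 * 2 ^ s ≤ v ^ 2 := by
    have : (((q ^ 2 * 2 ^ s : ℕ)) : ℝ) ≤ ((v ^ 2 : ℕ) : ℝ) := by
      push_cast
      exact hqsT.trans hTv
    exact_mod_cast this
  have hqs2 : q ^ 2 * 2 ^ s ≤ 2 ^ (2 * c) := by
    calc q ^ 2 * 2 ^ s ≤ v ^ 2 := hqs
      _ ≤ (2 ^ c) ^ 2 := Nat.pow_le_pow_left hc 2
      _ = 2 ^ (2 * c) := by rw [← pow_mul, mul_comm]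
  have hqc : q ^ 2 ≤ 2 ^ (2 * c) := by
    calc q ^ 2 = q ^ 2 * 1 := (mul_one _).symm
      _ ≤ q ^ 2 * 2 ^ s := Nat.mul_le_mul_left _ Nat.one_le_two_pow
      _ ≤ 2 ^ (2 * c) := hqs2
  have hqq : q * (q + 1) ≤ 2 * q ^ 2 := by nlinarith
  have hBc : B ≤ 2 ^ (2 * c + 5) := by
    calc B = 16 * (q * (q + 1)) := by rw [hB, mul_assoc]
      _ ≤ 16 * (2 * q ^ 2) := Nat.mul_le_mul_left _ hqq
      _ ≤ 16 * (2 * 2 ^ (2 * c)) := by omega
      _ = 2 ^ (2 * c + 5) := by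
          rw [pow_add]
          ring
  have hlog : Nat.log 2 B ≤ 2 * c + 5 := by
    calc Nat.log 2 B ≤ Nat.log 2 (2 ^ (2 * c + 5)) := Nat.log_mono_right hBc
      _ = 2 * c + 5 := Nat.log_pow (by norm_num) _
  obtain ⟨hn1, hJ1, hM⟩ := nu2_n hq hB hlog hn hJ
  -- the size against `h`
  have hsz : 16 * ((q + 1) * (q * 2 ^ s * G)) ≤ 2 ^ (2 * h) := by
    calc 16 * ((q + 1) * (q * 2 ^ s * G)) = 16 * (q * (q + 1)) * 2 ^ s * G := by ring
      _ ≤ 16 * (2 * q ^ 2) * 2 ^ s * 2 ^ g := by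
          apply Nat.mul_le_mul _ hG
          exact Nat.mul_le_mul_right _ (Nat.mul_le_mul_left _ hqq)
      _ = 32 * (q ^ 2 * 2 ^ s) * 2 ^ g := by ring
      _ ≤ 32 * 2 ^ (2 * c) * 2 ^ g := Nat.mul_le_mul_right _ (Nat.mul_le_mul_left _ hqs2)
      _ = 2 ^ (2 * c + g + 5) := by
          rw [pow_add 2 (2 * c + g), pow_add 2 (2 * c)]
          ring
      _ ≤ 2 ^ (2 * h) := by
          apply Nat.pow_le_pow_right (by norm_num)
          have e3 : ((2 * c + g + 5 : ℕ) : ℝ) ≤ ((2 * h : ℕ) : ℝ) := by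
            push_cast
            linarith
          exact_mod_cast e3
  -- the bound of `b`
  have hb2 : (b : ℝ) ≤ 16 / 3 * y ^ 825 := by
    calc (b : ℝ) = 8 * (h : ℝ) * p := by
          rw [hb]
          push_cast
          ring
      _ ≤ 8 * (y ^ 25 / 3) * (2 * y ^ 800) := by gcongr
      _ = 16 / 3 * (y ^ 25 * y ^ 800) := by ring
      _ = 16 / 3 * y ^ 825 := by rw [← pow_add]
  have hkb : 2 * k * b * k ≤ v := by
    have e1 : ((2 * k * b * k : ℕ) : ℝ) ≤ (v : ℝ) := by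
      calc ((2 * k * b * k : ℕ) : ℝ) = 2 * ((k : ℝ) * k) * b := by
            push_cast
            ring
        _ ≤ 2 * (y ^ 50 * y ^ 50) * (16 / 3 * y ^ 825) := by gcongr
        _ = 32 / 3 * (y ^ 100 * y ^ 825) := by ring
        _ = 32 / 3 * y ^ 925 := by rw [← pow_add]
        _ ≤ y * y ^ 925 := by
            apply mul_le_mul_of_nonneg_right _ (by positivity)
            linarith
        _ = y ^ 926 := by rw [← pow_succ']
        _ ≤ y ^ 1600 := pow_le_pow_right₀ hy1 (by norm_num)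
        _ ≤ v := hyv
    exact_mod_cast e1
  obtain ⟨Q, A, hA, hw, hQ, hcard⟩ := hwin b hb0 (by omega) hkb
  refine ⟨n, 4 * n, B, h, p, b, J, Q, A, ⟨hn0, le_refl _, hB0, hh0, ?_, hk0, hp0, ?_, ?_, ?_, ?_⟩,
    hb0, hJ0, hJ.ge, ?_, hA, hw, hQ, ?_⟩
  · -- `h` and `k`
    have e1 : (2 * (h : ℝ)) * (2 * h) + 1 ≤ k := by
      have e2 : 2 * (h : ℝ) ≤ 2 * (y ^ 25 / 3) := by linarith
      have e3 : (2 * (h : ℝ)) * (2 * h) ≤ (2 * (y ^ 25 / 3)) * (2 * (y ^ 25 / 3)) := by gcongr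
      have e4 : (2 * (y ^ 25 / 3)) * (2 * (y ^ 25 / 3)) = 4 / 9 * y ^ 50 := by ring
      linarith
    have e2 : 2 * h * (2 * h) + 1 ≤ k := by exact_mod_cast e1
    have e3 : 2 * h * (2 * h - 1) ≤ 2 * h * (2 * h) := Nat.mul_le_mul_left _ (Nat.sub_le _ _)
    omega
  · -- `b`
    rw [hb]
    apply le_of_eq
    ring
  · -- `G` and `h`
    calc 4 * G ≤ 4 * 2 ^ g := Nat.mul_le_mul_left _ hG
      _ = 2 ^ (g + 2) := by
          rw [pow_add]
          ring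
      _ ≤ 2 ^ (2 * h) := by
          apply Nat.pow_le_pow_right (by norm_num)
          have e3 : ((g + 2 : ℕ) : ℝ) ≤ ((2 * h : ℕ) : ℝ) := by
            push_cast
            linarith
          exact_mod_cast e3
  · -- the size against `p`
    have e2 : p * (2 * h) ≤ 2 ^ c := by
      refine le_trans ?_ hc
      have e3 : ((p * (2 * h) : ℕ) : ℝ) ≤ v := by
        refine le_trans ?_ hyv
        push_cast
        calc (p : ℝ) * (2 * h) ≤ (2 * y ^ 800) * (2 * (y ^ 25 / 3)) := by gcongr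
          _ = 4 / 3 * (y ^ 25 * y ^ 800) := by ring
          _ = 4 / 3 * y ^ 825 := by rw [← pow_add]
          _ ≤ y * y ^ 825 := by
            apply mul_le_mul_of_nonneg_right _ (by positivity)
            linarith
          _ = y ^ 826 := by rw [← pow_succ']
          _ ≤ y ^ 1600 := pow_le_pow_right₀ hy1 (by norm_num)
      exact_mod_cast e3
    calc 16 * B * 2 ^ ι * G * (p * (2 * h)) ^ (4 * h)
        ≤ 16 * 2 ^ (2 * c + 5) * 2 ^ ι * 2 ^ g * (2 ^ c) ^ (4 * h) := by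
          apply Nat.mul_le_mul _ (Nat.pow_le_pow_left e2 _)
          apply Nat.mul_le_mul _ hG
          exact Nat.mul_le_mul_right _ (Nat.mul_le_mul_left _ hBc)
      _ = 2 ^ (2 * c + 9 + ι + g + c * (4 * h)) := by
          have f1 : 16 * 2 ^ (2 * c + 5) = 2 ^ (2 * c + 9) := by
            rw [pow_add 2 (2 * c) 9, pow_add 2 (2 * c) 5]
            ring
          rw [f1, ← pow_mul, ← pow_add, ← pow_add, ← pow_add]
      _ < 2 ^ p := by
          apply Nat.pow_lt_pow_right (by norm_num)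
          have e3 : ((2 * c + 9 + ι + g + c * (4 * h) : ℕ) : ℝ) < (p : ℝ) := by
            push_cast
            have e4 : (c : ℝ) * (4 * h) ≤ (y + 1) * (4 * (y ^ 25 / 3)) := by gcongr
            have e5 : (y + 1) * (4 * (y ^ 25 / 3)) ≤ 2 * y * (2 * y ^ 25) := by
              apply mul_le_mul _ _ (by positivity) (by positivity)
              · linarith
              · linarith
            have e6 : 2 * y * (2 * y ^ 25) = 4 * y ^ 26 := by ring
            have e9 : y ^ 26 ≤ y ^ 640 := pow_le_pow_right₀ hy1 (by norm_num)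
            have e10 : y ^ 16 ≤ y ^ 640 := pow_le_pow_right₀ hy1 (by norm_num)
            linarith
          exact_mod_cast e3
  · -- `d` and `n`
    intro i hi
    rw [hn]
    exact Nat.mul_le_mul_left _ (nu2_hd hi)
  · -- the error
    have e1 : ((16 * ((q + 1) * (q * 2 ^ s * G)) : ℕ) : ℝ) ≤ ((2 ^ (2 * h) : ℕ) : ℝ) := by
      exact_mod_cast hsz
    push_cast at e1
    have e2 : ((q + 1 : ℕ) : ℝ) * (q * 2 ^ s * G / 2 ^ (2 * h)) ≤ 1 / 16 := by
      rw [← mul_div_assoc, div_le_iff₀ (by positivity)]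
      push_cast
      linarith
    have e3 : ((q + 1 : ℕ) : ℝ) * ((q : ℝ) / (B : ℝ)) = 1 / 16 := by
      have e4 : (0 : ℝ) < (q : ℝ) + 1 := by positivity
      have e5 : (0 : ℝ) < (q : ℝ) := by linarith
      rw [hB]
      push_cast
      field_simp
    rw [mul_add, e3]
    linarith
  · -- the number of the windows
    have hk3 : (0 : ℝ) < k := by exact_mod_cast (by omega : 0 < k)
    have hbr : (0 : ℝ) < b := by exact_mod_cast hb0
    have e0 : (0 : ℝ) < 32 * ((k : ℝ) ^ 3 * (b : ℝ) ^ 2) * E := by positivity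
    have f1 : (n : ℝ) ≤ 384 * (q : ℝ) ^ 2 * ((d : ℝ) + 1) * y := by
      have f2 : (n : ℝ) ≤ ((128 * q ^ 2 * ((d + 1) * (2 * c + 7)) : ℕ) : ℝ) := by
        exact_mod_cast hn1
      push_cast at f2
      refine f2.trans ?_
      have f3 : 2 * (c : ℝ) + 7 ≤ 3 * y := by linarith
      calc 128 * (q : ℝ) ^ 2 * (((d : ℝ) + 1) * (2 * c + 7))
          ≤ 128 * (q : ℝ) ^ 2 * (((d : ℝ) + 1) * (3 * y)) := by gcongr
        _ = _ := by ring
    have f4 : (J : ℝ) ≤ 128 * (q : ℝ) ^ 2 * 2 ^ (s + r) := by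
      have f5 : (J : ℝ) ≤ ((128 * q ^ 2 * 2 ^ (s + r) : ℕ) : ℝ) := by exact_mod_cast hJ1
      push_cast at f5
      exact f5
    have f6 : ((J * (n * (4 * n)) + (q + 1) + n - 1 : ℕ) : ℝ) ≤ 150994944 * (T * y ^ 2) := by
      calc ((J * (n * (4 * n)) + (q + 1) + n - 1 : ℕ) : ℝ) ≤ ((8 * (J * n ^ 2) : ℕ) : ℝ) := by
            exact_mod_cast hM
        _ = 8 * ((J : ℝ) * (n : ℝ) ^ 2) := by
            push_cast
            ring
        _ ≤ 8 * ((128 * (q : ℝ) ^ 2 * 2 ^ (s + r)) *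
              (384 * (q : ℝ) ^ 2 * ((d : ℝ) + 1) * y) ^ 2) := by gcongr
        _ = 150994944 * (T * y ^ 2) := by
            rw [hT]
            ring
    have e2 : ((J * (n * (4 * n)) + (q + 1) + n - 1 : ℕ) : ℝ) *
        (32 * ((k : ℝ) ^ 3 * (b : ℝ) ^ 2) * E) ≤
        ((Q * A.card : ℕ) : ℝ) * (32 * ((k : ℝ) ^ 3 * (b : ℝ) ^ 2) * E) := by
      calc ((J * (n * (4 * n)) + (q + 1) + n - 1 : ℕ) : ℝ) *
          (32 * ((k : ℝ) ^ 3 * (b : ℝ) ^ 2) * E)
          ≤ (150994944 * (T * y ^ 2)) *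
            (32 * ((y ^ 50) ^ 3 * (16 / 3 * y ^ 825) ^ 2) * y) := by
            apply mul_le_mul f6 _ e0.le (by positivity)
            gcongr
        _ = 412316860416 / 3 * (y ^ 2 * y ^ 150 * y ^ 1650 * y) * T := by
            ring
        _ = 412316860416 / 3 * y ^ 1803 * T := by
            rw [← pow_add, ← pow_add, ← pow_succ]
        _ ≤ y ^ 3200 * T := by
            apply mul_le_mul_of_nonneg_right _ hT0.le
            have f1 : (412316860416 / 3 : ℝ) ≤ y ^ 6 := by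
              calc (412316860416 / 3 : ℝ) ≤ 100 ^ 6 := by norm_num
                _ ≤ y ^ 6 := pow_le_pow_left₀ (by norm_num) hy 6
            calc (412316860416 / 3 : ℝ) * y ^ 1803 ≤ y ^ 6 * y ^ 1803 :=
                  mul_le_mul_of_nonneg_right f1 (by positivity)
              _ = y ^ 1809 := by rw [← pow_add]
              _ ≤ y ^ 3200 := pow_le_pow_right₀ hy1 (by norm_num)
        _ = T * y ^ 3200 := mul_comm _ _
        _ ≤ (v : ℝ) ^ 2 := hmain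
        _ ≤ _ := hcard
        _ = _ := mul_comm _ _
    have e3 := le_of_mul_le_mul_right e2 e0
    exact_mod_cast e3

/-- **The parameters.** -/
theorem NU2_thm : Stmt_NU2 := by
  intro ε hε hε1
  obtain ⟨v₀, hv₀⟩ := Pool.Agent.NBC.num_ev ε hε
  refine ⟨v₀, fun v hv k N q s r G d ι hk hN hq hsr hι hG => ?_⟩
  obtain ⟨g1, g2, g3, g4⟩ := hv₀ v hv
  have hv1 : (1 : ℝ) ≤ v := by exact_mod_cast (by omega : 1 ≤ v)
  have hv0 : (0 : ℝ) < v := by linarith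
  obtain ⟨y, hydef⟩ : ∃ y : ℝ, y = (v : ℝ) ^ (ε / 1600) := ⟨_, rfl⟩
  rw [← hydef] at g1 g2 g3
  have hy0 : (0 : ℝ) < y := by linarith
  have hpow : ∀ j : ℕ, (v : ℝ) ^ (j * ε / 1600) = y ^ j := by
    intro j
    rw [hydef, ← Real.rpow_natCast, ← Real.rpow_mul hv0.le]
    congr 1
    ring
  have e50 : (v : ℝ) ^ (ε / 32) = y ^ 50 := by
    rw [← hpow 50]
    congr 1
    push_cast
    ring
  have hNv : (N : ℝ) ≤ (v : ℝ) ^ (2 : ℝ) := by
    have h3 : N ≤ v * v := by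
      rw [hN]
      exact (Nat.div_le_self _ _).trans (Nat.mul_le_mul_left _ (Nat.sub_le _ _))
    calc (N : ℝ) ≤ ((v * v : ℕ) : ℝ) := by exact_mod_cast h3
      _ = (v : ℝ) ^ (2 : ℝ) := by
        rw [Real.rpow_two, sq]
        push_cast
        rfl
  have hNe : (N : ℝ) ^ (1 - ε) ≤ (v : ℝ) ^ (2 - 2 * ε) := by
    calc (N : ℝ) ^ (1 - ε) ≤ ((v : ℝ) ^ (2 : ℝ)) ^ (1 - ε) :=
          Real.rpow_le_rpow (by positivity) hNv (by linarith)
      _ = _ := by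
          rw [← Real.rpow_mul hv0.le]
          congr 1
          ring
  have hNy : (N : ℝ) ^ (ε / 200) ≤ y ^ 16 := by
    calc (N : ℝ) ^ (ε / 200) ≤ ((v : ℝ) ^ (2 : ℝ)) ^ (ε / 200) :=
          Real.rpow_le_rpow (by positivity) hNv (by positivity)
      _ = y ^ 16 := by
          rw [← hpow 16, ← Real.rpow_mul hv0.le]
          congr 1
          push_cast
          ring
  have hNι : (N : ℝ) ^ (ε / 5) ≤ y ^ 640 := by
    calc (N : ℝ) ^ (ε / 5) ≤ ((v : ℝ) ^ (2 : ℝ)) ^ (ε / 5) :=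
          Real.rpow_le_rpow (by positivity) hNv (by positivity)
      _ = y ^ 640 := by
          rw [← hpow 640, ← Real.rpow_mul hv0.le]
          congr 1
          push_cast
          ring
  have hyv : y ^ 1600 ≤ (v : ℝ) := by
    rw [← hpow 1600]
    calc (v : ℝ) ^ (((1600 : ℕ) : ℝ) * ε / 1600) ≤ (v : ℝ) ^ (1 : ℝ) := by
          apply Real.rpow_le_rpow_of_exponent_le hv1
          push_cast
          linarith
      _ = v := Real.rpow_one _
  have hmain : (q : ℝ) ^ 6 * 2 ^ (s + r) * (d + 1) ^ 2 * y ^ 3200 ≤ (v : ℝ) ^ 2 := by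
    have h1 : (q : ℝ) ^ 6 * 2 ^ (s + r) * (d + 1) ^ 2 ≤ (v : ℝ) ^ (2 - 2 * ε) := by
      have h2 := hsr.trans hNe
      push_cast at h2
      exact h2
    calc (q : ℝ) ^ 6 * 2 ^ (s + r) * (d + 1) ^ 2 * y ^ 3200
        ≤ (v : ℝ) ^ (2 - 2 * ε) * y ^ 3200 := mul_le_mul_of_nonneg_right h1 (by positivity)
      _ = (v : ℝ) ^ (2 : ℝ) := by
          rw [← hpow 3200, ← Real.rpow_add hv0]
          congr 1
          push_cast
          ring
      _ = (v : ℝ) ^ 2 := Real.rpow_two _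
  have hclog : ((Nat.clog 2 v : ℕ) : ℝ) ≤ y + 1 := by
    have h7 : Nat.clog 2 v ≤ Nat.log 2 v + 1 := Nat.clog_le_of_le_pow
      (Nat.lt_pow_succ_log_self (by norm_num) v).le
    have h8 : ((Nat.log 2 v : ℕ) : ℝ) ≤ Real.logb 2 v := by
      have := Real.natLog_le_logb v 2
      exact_mod_cast this
    have h9 : ((Nat.clog 2 v : ℕ) : ℝ) ≤ ((Nat.log 2 v + 1 : ℕ) : ℝ) := by exact_mod_cast h7
    have h10 : Real.logb 2 v ≤ y := by
      rw [Real.logb, div_le_iff₀ (Real.log_pos (by norm_num))]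
      have h5 := Real.log_two_gt_d9
      nlinarith
    push_cast at h9
    linarith
  have hGg : G ≤ 2 ^ ⌈y ^ 16⌉₊ := by
    have h1 : (G : ℝ) ≤ ((2 ^ ⌈y ^ 16⌉₊ : ℕ) : ℝ) := by
      calc (G : ℝ) ≤ (2 : ℝ) ^ ((N : ℝ) ^ (ε / 200)) := hG.le
        _ ≤ (2 : ℝ) ^ ((⌈y ^ 16⌉₊ : ℕ) : ℝ) := by
            apply Real.rpow_le_rpow_of_exponent_le (by norm_num)
            exact hNy.trans (Nat.le_ceil _)
        _ = ((2 ^ ⌈y ^ 16⌉₊ : ℕ) : ℝ) := by
            rw [Real.rpow_natCast]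
            push_cast
            rfl
    exact_mod_cast h1
  refine nu2_core (y := y) (E := Real.exp (4 * √(Real.log (v : ℝ)))) (c := Nat.clog 2 v)
    (g := ⌈y ^ 16⌉₊) g1 hyv ?_ ?_ hq hmain (Nat.le_pow_clog (by norm_num) v) hclog hGg
    (Nat.ceil_lt_add_one (by positivity)).le (hι.trans hNι) (Real.exp_pos _) g3 ?_
  · rw [hk, ← e50]
    exact Nat.floor_le (by positivity)
  · rw [hk, ← e50]
    exact Nat.lt_floor_add_one _
  · intro b hb0 hk0 hKv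
    exact Pool.Agent.NEG72.params_explicit hb0 hk0 hKv

end Pool.Agent.S2C
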