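import Pool.Agent.S2C.Stmts

/-!
# S2C_PO2: the potential (helper43)
-/

set_option autoImplicit false

namespace Pool.Agent.S2C

open Finset Pool.Agent.NegLim Pool.Agent.NLM
open Pool.Agent.NBC (SameN)

open Classical in
/-- One term of the potential. -/
noncomputable def po2_term {E : Type} {s t : ℕ} (m : Mode s t) (C : NCirc E s t) (x : E → Bool) :
    ℕ :=
  (∑ u : Fin s → Bool, 2 * num C.gates x u (fun _ => false)) + if Ans2 m C x then 0 else 1

theorem po2_bd {E : Type} {s t r : ℕ} (m : Mode s t) (C : NCirc E s t) (hr : C.nots ≤ r)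
    (x : E → Bool) : po2_term m C x ≤ 2 ^ (s + r + 1) := by
  have h2 : 2 ^ C.gates.countP Gate.isNot ≤ 2 ^ r := Nat.pow_le_pow_right (by norm_num) hr
  have h1 : ∀ u : Fin s → Bool, 2 * num C.gates x u (fun _ => false) + 2 ≤ 2 ^ (r + 1) := by
    intro u
    have h1 := num_lt C.gates x u fun _ => false
    rw [pow_succ]
    omega
  have h3 : (∑ u : Fin s → Bool, 2 * num C.gates x u (fun _ => false)) + 2 ^ s * 2 ≤
      2 ^ (s + r + 1) := by
    have h4 : ∑ _u : Fin s → Bool, 2 = 2 ^ s * 2 := by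
      rw [Finset.sum_const, Finset.card_univ, Fintype.card_fun, Fintype.card_bool,
        Fintype.card_fin, smul_eq_mul]
    have h5 : ∑ _u : Fin s → Bool, 2 ^ (r + 1) = 2 ^ (s + r + 1) := by
      rw [Finset.sum_const, Finset.card_univ, Fintype.card_fun, Fintype.card_bool,
        Fintype.card_fin, smul_eq_mul, ← pow_add, add_assoc]
    rw [← h4, ← h5, ← Finset.sum_add_distrib]
    exact Finset.sum_le_sum fun u _ => h1 u
  have h6 : 0 < 2 ^ s := by positivity
  unfold po2_term
  split_ifs <;> omega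

theorem po2_cmp (hM : Stmt_MN2) {E : Type} {s t : ℕ} (m : Mode s t) (C : NCirc E s t)
    (hN : C.NotsFree) {x x' : E → Bool} (hx : ∀ e, x e = true → x' e = true) :
    po2_term m C x' ≤ po2_term m C x ∧ (po2_term m C x' = po2_term m C x →
      SameN C x x' ∧ (Ans2 m C x ↔ Ans2 m C x')) := by
  have hle : ∀ u ∈ (univ : Finset (Fin s → Bool)), 2 * num C.gates x' u (fun _ => false) ≤
      2 * num C.gates x u (fun _ => false) := fun u _ =>
    Nat.mul_le_mul_left 2 (num_le C.gates u (fun _ => false) hx)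
  rcases (Finset.sum_le_sum hle).lt_or_eq with h | h
  · have h3 : po2_term m C x' < po2_term m C x := by
      rw [← Finset.mul_sum, ← Finset.mul_sum] at h
      unfold po2_term
      rw [← Finset.mul_sum, ← Finset.mul_sum]
      split_ifs <;> omega
    exact ⟨h3.le, fun h4 => absurd h4 h3.ne⟩
  · have h4 := (Finset.sum_eq_sum_iff_of_le hle).1 h
    have hS : SameN C x x' := by
      intro u n hn
      have h5 := h4 u (mem_univ u)
      exact num_inj C.gates (show num C.gates x u (fun _ => false) =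
        num C.gates x' u (fun _ => false) by omega) n hn
    have h5 := (hM E s t C hN x x' x' hx fun e he => he).1 hS m
    unfold po2_term
    rw [h]
    by_cases hb : Ans2 m C x
    · have hb' := h5 hb
      rw [if_pos hb, if_pos hb']
      exact ⟨le_rfl, fun _ => ⟨hS, fun _ => hb', fun _ => hb⟩⟩
    · by_cases hb' : Ans2 m C x'
      · rw [if_neg hb, if_pos hb']
        exact ⟨by omega, fun h6 => by omega⟩
      · rw [if_neg hb, if_neg hb']
        exact ⟨le_rfl, fun _ => ⟨hS, fun h6 => absurd h6 hb, fun h6 => absurd h6 hb'⟩⟩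

theorem po2_eq {E : Type} {q s t : ℕ} (mo : Fin q → Mode s t) (C : Fin q → NCirc E s t)
    (x : E → Bool) : Pot2 mo C x = ∑ i, po2_term (mo i) (C i) x := rfl

theorem PO2_thm : Stmt_PO2 := by
  intro hM E q s t r mo C hN hr
  refine ⟨fun x => ?_, fun x x' hx => ?_⟩
  · rw [po2_eq]
    calc ∑ i, po2_term (mo i) (C i) x ≤ ∑ _i : Fin q, 2 ^ (s + r + 1) :=
          Finset.sum_le_sum fun i _ => po2_bd (mo i) (C i) (hr i) x
      _ = q * 2 ^ (s + r + 1) := by
          rw [Finset.sum_const, Finset.card_univ, Fintype.card_fin, smul_eq_mul]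
  · have h2 : ∀ i ∈ (univ : Finset (Fin q)), po2_term (mo i) (C i) x' ≤
        po2_term (mo i) (C i) x := fun i _ => (po2_cmp hM (mo i) (C i) (hN i) hx).1
    rw [po2_eq, po2_eq]
    refine ⟨Finset.sum_le_sum h2, fun h3 i => ?_⟩
    have h4 := (Finset.sum_eq_sum_iff_of_le h2).1 h3 i (mem_univ i)
    exact (po2_cmp hM (mo i) (C i) (hN i) hx).2 h4

end Pool.Agent.S2C
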