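import Pool.Agent.S2C.Stmts

/-!
# Module STW of the project S2C: the step in the second half, by duality
-/

set_option autoImplicit false

namespace Pool.Agent.S2C

open Finset Pool.Agent.NegLim Pool.Agent.NLM
open Pool.Agent.NBC (SameN St Tests flip neg)

lemma stw_neg {W E Xn Xp : Type} (T : Tests W E Xn Xp) (a b : W → St Xn Xp) :
    neg (T.inp a b) = T.inp b a := by
  funext e
  cases e with
  | inl e => simp [neg, Tests.inp]
  | inr e => simp [neg, Tests.inp]

theorem STW_thm : Stmt_STW := by
  classical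
  intro hD hX M n K q s t G d ι B k b h p E T mo C hP hdis hcl hfree hlen hd hι a b' e he hemp
  obtain ⟨h1, -, h3, h4⟩ := hD E q s t mo C
  have key := hX M n K q s t G d ι B k b h p E T (fun i => (!(mo i).1, (mo i).2))
    (fun i => flip (C i)) hP hdis hcl (fun i => h1 i (hfree i))
    (fun i => by rw [h3 i]; exact hlen i) hd hι b' a e he hemp
  have e1 : ∀ x y : Fin M → St (Fin k × Fin b → Fin (k - 1)) (Fin k → Fin b),
      SN (fun i => flip (C i)) (T.inp x a) (T.inp y a) ↔ SN C (T.inp a x) (T.inp a y) := by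
    intro x y
    have := (h4 (T.inp a x) (T.inp a y)).1
    rwa [stw_neg, stw_neg] at this
  have e2 : ∀ x y : Fin M → St (Fin k × Fin b → Fin (k - 1)) (Fin k → Fin b),
      Keep2 true (fun i => (!(mo i).1, (mo i).2)) (fun i => flip (C i)) (T.inp x a)
        (T.inp y a) ↔ Keep2 false mo C (T.inp a x) (T.inp a y) := by
    intro x y
    have := (h4 (T.inp a x) (T.inp a y)).2.1
    rwa [stw_neg, stw_neg] at this
  have e3 : ∀ x y : Fin M → St (Fin k × Fin b → Fin (k - 1)) (Fin k → Fin b),
      Same2 (fun i => (!(mo i).1, (mo i).2)) (fun i => flip (C i)) (T.inp x a)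
        (T.inp y a) ↔ Same2 mo C (T.inp a x) (T.inp a y) := by
    intro x y
    have := (h4 (T.inp a x) (T.inp a y)).2.2
    rwa [stw_neg, stw_neg] at this
  simp only [e1, e2, e3] at key
  exact key

end Pool.Agent.S2C
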