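import Pool.Agent.S2C.MAI
import Pool.Agent.S2C.MN2
import Pool.Agent.S2C.PO2
import Pool.Agent.S2C.GVL
import Pool.Agent.S2C.DU2
import Pool.Agent.S2C.APS
import Pool.Agent.S2C.SPR
import Pool.Agent.S2C.CND
import Pool.Agent.S2C.KXA
import Pool.Agent.S2C.KXC
import Pool.Agent.S2C.NXC
import Pool.Agent.S2C.STQ
import Pool.Agent.S2C.STW
import Pool.Agent.S2C.RSM
import Pool.Agent.S2C.CFA
import Pool.Agent.S2C.CFB
import Pool.Agent.S2C.AVG
import Pool.Agent.S2C.GM2
import Pool.Agent.S2C.CO2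
import Pool.Agent.S2C.CN2
import Pool.Agent.S2C.NU2
import Pool.Agent.NBC.TEL

/-!
# The lower bound for Boolean combinations of Sigma_2 and Pi_2 answers
-/

set_option autoImplicit false

namespace Pool.Agent.S2C

open Finset Pool.Agent.NegLim Pool.Agent.NLM

theorem stepX : StepX :=
  STQ_thm MN2_thm GVL_thm APS_thm CND_thm SPR_thm KXA_thm KXC_thm NXC_thm

theorem lower2 : Lower2 :=
  MAI_thm MN2_thm PO2_thm stepX (STW_thm DU2_thm stepX) RSM_thm CFA_thm CFB_thm AVG_thm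
    Pool.Agent.NBC.TEL_thm GM2_thm CO2_thm CN2_thm NU2_thm

end Pool.Agent.S2C
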