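import Pool.Agent.S2C.Defs

/-!
# The statements of the modules of the project S2C (MP_153864_lc)

PP is outside the Boolean closure of Sigma_2 and Pi_2 for circuits with few negations. Module `S2C_X`:
`theorem Pool.Agent.S2C.X_thm : Stmt_X` in `Pool/Agent/S2C/X.lean`; a statement of the form `Stmt_A → …`
uses `Stmt_A` as a hypothesis. The whole proof is described in `Pool/Agent/S2C/PAPER.md`. Notation:
`|Y| = K |Xp|` for `Y = Fin K × Xp`, `R` = the input `T.inp a b`.
-/

set_option autoImplicit false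

namespace Pool.Agent.S2C

open Finset Pool.Agent.NegLim Pool.Agent.NLM
open Pool.Agent.NBC (SameN St Tests winT flip neg)

/-! ### circuits -/

/-- MN2 (80 lines). Monotonicity. PROOF. Let `x ≤ x' ≤ x''`. (1) If `SameN C x x'` then by
`NBC.MNT_thm` (`NBC/MNT.lean`) `out2 C x p ≤ out2 C x' p` for all `p`, so `Sig` and `Pie` grow. (2) Let
`SameN C x x''`. For every `u` the numbers `num` at `x` and `x''` are equal, because `num` is determined by
the values of the NOT gates (see its definition in `NegLim/Basic.lean`; if there is no such lemma prove it by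
induction on the list of the gates from the right), `num_le` gives `num x'' ≤ num x' ≤ num x`, so all three
are equal and `num_inj` gives the claim (compare `good_guess`, `NegLim/Transfer.lean`). Alternative for
(2): gates from the left, if a NOT gate has the same input value at `x` and `x''` and all earlier NOT gates
have the same outputs at `x`, `x'`, `x''` then its input value at `x'` is between them. (3) symmetric and
transitive: from the definition. -/
def Stmt_MN2 : Prop :=
  ∀ (E : Type) (s t : ℕ) (C : NCirc E s t), C.NotsFree → ∀ x x' x'' : E → Bool,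
    (∀ e, x e = true → x' e = true) → (∀ e, x' e = true → x'' e = true) →
    (SameN C x x' → ∀ m : Mode s t, Ans2 m C x → Ans2 m C x') ∧
    (SameN C x x'' → SameN C x x' ∧ SameN C x' x'')

/-- PO2 (130 lines). The potential. Port of `NBC/POT.lean`. PROOF. For each `i` the term is at most
`2 ^ s * 2 * (2 ^ r - 1) + 1 ≤ 2 ^ (s + r + 1)` (`num_lt`). Let `x ≤ x'`. By `num_le` every number at `x'` is
at most the number at `x`; if the sum of the numbers of the circuit `i` is smaller, the term drops by at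
least `1` (`2 * …`, the answer costs at most `1`); if it is equal then all numbers are equal, so the NOT
gates have the same outputs (`num_inj`, `SameN`), by MN2 the answer at `x` implies the answer at `x'` and the
term does not grow. If the potentials are equal then all terms are equal; a term with a smaller sum of
numbers drops by at least `1`, so the numbers and then the answers are equal. -/
def Stmt_PO2 : Prop := Stmt_MN2 →
  ∀ (E : Type) (q s t r : ℕ) (mo : Fin q → Mode s t) (C : Fin q → NCirc E s t),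
    (∀ i, (C i).NotsFree) → (∀ i, (C i).nots ≤ r) →
    (∀ x, Pot2 mo C x ≤ q * 2 ^ (s + r + 1)) ∧
    ∀ x x' : E → Bool, (∀ e, x e = true → x' e = true) →
      Pot2 mo C x' ≤ Pot2 mo C x ∧ (Pot2 mo C x' = Pot2 mo C x → Same2 mo C x x')

/-- GVL (120 lines). Programs for the inputs above `R`. PROOF. `z u = guess C R u`
(`NegLim/Transfer.lean`); `f p y = C.out.val y u w (gvals (z u) C.gates y u w)` for `p = (u, w)`,
`h u y = chkO (z u) C.gates y u (fun _ => false)`; programs: `prog` (`NegLim/Prog.lean`, with `o = true`, the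
identity as substitution; compare `prg_progs` in `NBC/PRG.lean`). If `SameN C R y` then `Good (z u) …` at `y`
for all `w` (`prg_good_y` in `NBC/PRG.lean`), so `gvals = vals` (`Good.gvals`) and `chkO = false`
(`chkO_of_good`). Conversely, for `R ≤ y`, `chkO = false` gives `gvals = vals` by `keyO` (`prg_good_R`), and
at a NOT gate `gvals` is the guess (`prg_gvals_not`), so `SameN` (compare `prg_same`). -/
def Stmt_GVL : Prop :=
  ∀ (E : Type) (s t G : ℕ) (C : NCirc E s t), C.NotsFree → C.gates.length ≤ G → ∀ R : E → Bool,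
    ∃ (f : (Fin s ⊕ Fin t → Bool) → (E → Bool) → Bool) (h : (Fin s → Bool) → (E → Bool) → Bool),
      (∀ p, MonSize (f p) G) ∧ (∀ u, MonSize (h u) G) ∧
      (∀ y, SameN C R y → ∀ p, out2 C y p = f p y) ∧
      ∀ y, (∀ e, R e = true → y e = true) → (SameN C R y ↔ ∀ u, h u y = false)

/-- DU2 (100 lines). The dual circuits. Port of `NBC/DUA.lean` (its lemmas `dua_out'`, `dua_sameN` can be
used). `out2 (flip C) (neg x) p = !(out2 C x p)`, so `Sig I (flip C) (neg x) ↔ ¬ Pie I C x`,
`Pie I (flip C) (neg x) ↔ ¬ Sig I C x`, `Ans2 (!κ, I) (flip C) (neg x) ↔ ¬ Ans2 (κ, I) C x`. -/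
def Stmt_DU2 : Prop :=
  ∀ (E : Type) (q s t : ℕ) (mo : Fin q → Mode s t) (C : Fin q → NCirc (E ⊕ E) s t),
    (∀ i, (C i).NotsFree → (flip (C i)).NotsFree) ∧ (∀ i, (flip (C i)).nots = (C i).nots) ∧
    (∀ i, (flip (C i)).gates.length = (C i).gates.length) ∧
    ∀ x x' : E ⊕ E → Bool,
      (SN (fun i => flip (C i)) (neg x) (neg x') ↔ SN C x x') ∧
      (Keep2 true (fun i => (!(mo i).1, (mo i).2)) (fun i => flip (C i)) (neg x) (neg x') ↔
        Keep2 false mo C x x') ∧
      (Same2 (fun i => (!(mo i).1, (mo i).2)) (fun i => flip (C i)) (neg x) (neg x') ↔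
        Same2 mo C x x')

/-! ### approximation, all windows at once -/

open Classical in
/-- APS (220 lines). The approximation for all windows at once. `P` are positive tests: `pos π w` is the
positive test in the window `w` (if any), only windows in `D` are used. PROOF. Apply
`Pool.Agent.NPP.APP_thm PLK_thm : Stmt_APP` (see `NBC/DIC.lean`, which is the case of one window) with
`V = W × (Fin k × Fin b)`, `c = k - 1`, `K π` = the set of the `(w, x)` with `pos π w = some τ` and
`τ x.1 = x.2`, colourings of `V` = `Fin k × Fin b → Fin (k - 1)` for every window (currying; only the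
windows in `D` are used), `pos`, `neg` = the inputs of the statement. The family of the variable `e`: if
`e ∈ T.B w` for some `w ∈ D` (only one, `T.Dis`) and the second case of `CliqueLike` holds for `w`, `e` with
`x`, `y`: `{{(w, x), (w, y)}}`, otherwise `∅`. The condition for the sets is the hypothesis (the set of the
`π` with `Y ⊆ K π`). APP gives `A`, `BP`, `BN`. (a) Suppose more than half of the `π` are accepted. If all
`X ∈ A` had at least two elements, the accepted `π` would be in `BP` (at most `|P| / 4` as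
`4 S ≤ 2 ^ (2 h)`) or contain some `X ∈ A`, at most `∑_{a ≥ 2} (2 h p / b)^a |P| ≤ |P| / 8` (`DICM.fam_sum`
in `NBC/DIC.lean`, `2 h p / b ≤ 1 / 4`), a contradiction (`|P| > 0` as some `π` is accepted). So `A` has a
set with at most one element, all colourings are accepted by `A`, and those with the value `false` are in
`BN`. (b) Suppose less than a quarter of the colourings have the value `true`. If `A` had an element `X`
(`|X| ≤ 2 h`): at least half of the colourings are injective on `X` (at most `h (2 h - 1)` pairs, each has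
equal colours for the part `1 / (k - 1)` of the colourings, `card_eq_color` in `NEG72/Pluck.lean` with
`S = univ`; `2 h (2 h - 1) ≤ k - 1`), at most a quarter is in `BN`, a contradiction. So `A = ∅` and all
accepted `π` are in `BP`. -/
def Stmt_APS : Prop :=
  ∀ (W E P : Type) [Fintype W] [DecidableEq W] [Fintype P] (k b h p S : ℕ)
    (T : Tests W E (Fin k × Fin b → Fin (k - 1)) (Fin k → Fin b)), T.Dis → CliqueLike T →
    1 ≤ h → 2 ≤ k → 2 * h * (2 * h - 1) ≤ k - 1 → 2 ≤ p → 4 * (p * (2 * h)) ≤ b →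
    ∀ (D : Finset W) (pos : P → W → Option (Fin k → Fin b)), (∀ π w, w ∉ D → pos π w = none) →
    (∀ Y : Finset (W × (Fin k × Fin b)), ((univ : Finset P).filter fun π =>
        ∀ y ∈ Y, ∃ τ, pos π y.1 = some τ ∧ τ y.2.1 = y.2.2).card * b ^ Y.card ≤
      Fintype.card P) →
    ∀ f : (E → Bool) → Bool, MonSize f S →
      -- (a)
      (4 * S ≤ 2 ^ (2 * h) →
        Fintype.card P < 2 * ((univ : Finset P).filter fun π => f (fun e => decide
          (∃ w, e ∈ T.B w ∧ ∃ τ, pos π w = some τ ∧ T.pos w τ e = true)) = true).card →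
        ((univ : Finset (W → Fin k × Fin b → Fin (k - 1))).filter fun χ => f (fun e => decide
          (∃ w ∈ D, e ∈ T.B w ∧ T.neu w (χ w) e = true)) = false).card * 2 ^ p ≤
          S * (4 * (p * (2 * h)) ^ (4 * h)) *
            Fintype.card (W → Fin k × Fin b → Fin (k - 1))) ∧
      -- (b)
      (16 * S * (p * (2 * h)) ^ (4 * h) ≤ 2 ^ p →
        4 * ((univ : Finset (W → Fin k × Fin b → Fin (k - 1))).filter fun χ => f (fun e => decide
          (∃ w ∈ D, e ∈ T.B w ∧ T.neu w (χ w) e = true)) = true).card <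
          Fintype.card (W → Fin k × Fin b → Fin (k - 1)) →
        ((univ : Finset P).filter fun π => f (fun e => decide
          (∃ w, e ∈ T.B w ∧ ∃ τ, pos π w = some τ ∧ T.pos w τ e = true)) = true).card *
            2 ^ (2 * h) ≤ S * Fintype.card P)

open Classical in
/-- SPR (130 lines). The spread subset. PROOF. For a set `I` of coordinates and `v : Fin n → Y` let
`m (I, v) = #{y ∈ S | y = v on I} * |Y| ^ |I| * 2 ^ (n - |I|)`. Take `(I, v)` with the largest value; `S' =
{y ∈ S | y = v on I}`. `m (∅, v) = |S| 2 ^ n > 0`, so `S'` is not empty, and `#S' ≤ |Y| ^ (n - |I|)` (injective on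
the other coordinates) gives `|S| 2 ^ n ≤ |Y| ^ n 2 ^ (n - |I|) ≤ B |S| 2 ^ (n - |I|)`, so `2 ^ |I| ≤ B`. For
`J` disjoint from `I` and `u` the value at `(I ∪ J, v on I, u on J)` is at most the one at `(I, v)`, which
gives the last claim. -/
def Stmt_SPR : Prop :=
  ∀ (n B : ℕ) (Y : Type) [Fintype Y] [Nonempty Y] (S : Finset (Fin n → Y)),
    S.Nonempty → Fintype.card Y ^ n ≤ B * S.card →
    ∃ (I : Finset (Fin n)) (v : Fin n → Y), (S.filter fun y => ∀ i ∈ I, y i = v i).Nonempty ∧
      2 ^ I.card ≤ B ∧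
      ∀ (J : Finset (Fin n)) (u : Fin n → Y), Disjoint J I →
        ((S.filter fun y => ∀ i ∈ I, y i = v i).filter fun y => ∀ i ∈ J, y i = u i).card *
          Fintype.card Y ^ J.card ≤ 2 ^ J.card * (S.filter fun y => ∀ i ∈ I, y i = v i).card

open Classical in
/-- CND (150 lines). The number of the `y ∈ P` which contain a given set of vertices. PROOF. Let `J` be the
set of the cells which `Z` meets (`x.1.1` for `x ∈ Z`). If `J` meets `I` the number is `0`, if `J = ∅` then
`Z = ∅`. Otherwise let `U` be the set of the `u : Fin n → Fin K × (Fin k → Fin b)` (arbitrary fixed value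
outside `J`) with `(u x.1.1).1 = x.1.2`, `(u x.1.1).2 x.2.1 = x.2.2` for all `x ∈ Z`; if it is not empty then
`#U = ∏_{c ∈ J} b ^ (k - |Z_c|) = b ^ (k |J| - |Z|)` (`Z_c` = the part of `Z` in the cell `c` lies in one window
and has at most one vertex for every `i : Fin k`; compare `DICM.count` in `NBC/DIC.lean`, `≤` is enough; the
total is at most `b ^ (k |J|) / b ^ |Z|`). The number in question is at most the sum over `u ∈ U` of the
number of the `y ∈ P` with `y = u` on `J`, which is at most `K ^ |J| |P| / (K b ^ k) ^ |J|`. -/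
def Stmt_CND : Prop :=
  ∀ (n K k b : ℕ) (I : Finset (Fin n)) (P : Finset (Fin n → Fin K × (Fin k → Fin b))),
    0 < K → 0 < b →
    (∀ (J : Finset (Fin n)) (u : Fin n → Fin K × (Fin k → Fin b)), J.Nonempty → Disjoint J I →
      (P.filter fun y => ∀ c ∈ J, y c = u c).card * (K * b ^ k) ^ J.card ≤ K ^ J.card * P.card) →
    ∀ Z : Finset ((Fin n × Fin K) × (Fin k × Fin b)),
      (P.filter fun y => ∀ x ∈ Z, x.1.1 ∉ I ∧ (y x.1.1).1 = x.1.2 ∧
        (y x.1.1).2 x.2.1 = x.2.2).card * b ^ Z.card ≤ P.card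

open Classical in
/-- KXA (180 lines). The core, second half. PROOF. Let `D` = the windows `(c, j)` with `c ∉ I`,
`j ≠ (y0 c).1`, and `f' z = f (z or T.xin v_I)`, where `v_I` is the state of the cells with the positive tests
`(v c).2` in the windows `(c, (v c).1)`, `c ∈ I`, and `emp` elsewhere (`MonSize.comp`, `IsProj`). For `y ∈ P`:
`T.xin (sA y)` is the union of `T.xin v_I` and the positive tests of the cells `c ∉ I`, which are in windows of
`D`, so `f'` accepts the positive test `pos y` := (`some (y c).2` in the window `(c, (y c).1)`, `c ∉ I`,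
`none` in the others). For every `χ` the input `f' z`, `z` = the neutral tests `χ` in the windows of `D`, has
(`z` or `T.xin v_I`) below `T.xin (sB y0 i χ)` (as `i ∉ I` and `y0 = v` on `I`), so
`f (T.xin (sB y0 i χ)) = false` implies `f' z = false` (`MonSize.monotone`, `NNDT/Core.lean`). APS (a) with
`W = Fin n × Fin K`, `P` = the subtype of `P` (all accepted; the condition for the sets is CND): the number of
the `χ` with `f' z = false` times `2 ^ p` is at most `G 4 (2 h p) ^ (4 h)` times the number of all `χ`, so with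
`Par.hp2` the claim follows (the number of all `χ` is positive as `k ≥ 2`). -/
def Stmt_KXA : Prop := Stmt_APS → Stmt_CND →
  ∀ (n K G d ι B k b h p : ℕ) (E : Type)
    (T : Tests (Fin n × Fin K) E (Fin k × Fin b → Fin (k - 1)) (Fin k → Fin b))
    (f : (E → Bool) → Bool), Par n K G d ι B k b h p → T.Dis → CliqueLike T → MonSize f G →
    ∀ (I : Finset (Fin n)) (v y0 : Fin n → Fin K × (Fin k → Fin b))
      (P : Finset (Fin n → Fin K × (Fin k → Fin b))) (i : Fin n), i ∉ I → P.Nonempty →
      (∀ c ∈ I, y0 c = v c) →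
      (∀ y ∈ P, (∀ c ∈ I, y c = v c) ∧ (∀ c, c ∉ I → (y c).1 ≠ (y0 c).1) ∧
        f (T.xin (sA y)) = true) →
      (∀ (J : Finset (Fin n)) (u : Fin n → Fin K × (Fin k → Fin b)), J.Nonempty → Disjoint J I →
        (P.filter fun y => ∀ c ∈ J, y c = u c).card * (K * b ^ k) ^ J.card ≤
          K ^ J.card * P.card) →
      4 * B * 2 ^ ι * ((univ : Finset (Fin n × Fin K → Fin k × Fin b → Fin (k - 1))).filter
        fun χ => f (T.xin (sB y0 i χ)) = false).card <
        Fintype.card (Fin n × Fin K → Fin k × Fin b → Fin (k - 1))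

open Classical in
/-- KXC (200 lines). THE CORE. `f a w` are small monotone functions (`a` outer, `w` inner witness). The
probability that some `a` accepts (for all `w`) the input with the positive tests `y`, but all `a` reject
(for some `w`) the input `sB y i χ` is at most `1 / B`. PROOF. Suppose it is larger. Write `Pr` for the
uniform distributions of `y`, `i`, `χ`; `Bob a w y i χ` := (`f a w (T.xin (sB y i χ)) = false`).
(1) `S` = the `y` with (`∃ a, ∀ w, f a w (T.xin (sA y)) = true`) and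
`Pr_{i, χ} [∀ a, ∃ w, Bob a w y i χ] ≥ 1 / (2 B)`. Then `Pr [S] ≥ 1 / (2 B)`. (2) For some `a` the set
`S_a = {y ∈ S | ∀ w, f a w (T.xin (sA y)) = true}` has `|Y| ^ n ≤ 2 B 2 ^ d |S_a|`. (3) SPR for `S_a` gives
`I`, `v`, `S'`, with `2 ^ |I| ≤ 2 B 2 ^ d`, so `4 B |I| ≤ n` (`Par.hd`). (4) Fix `y0 ∈ S'` (so `y0 = v` on
`I`). As `Pr_i [i ∈ I] ≤ 1 / (4 B)` there is `i ∉ I` with `Pr_χ [∀ a, ∃ w, Bob a w y0 i χ] ≥ 1 / (4 B)`. So
there is `w` with `Pr_χ [Bob a w y0 i χ] ≥ 1 / (4 B 2 ^ ι)` (our `a`). (5) `S'' = {y ∈ S' | (y c).1 ≠ (y0 c).1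
for all c ∉ I}`. By SPR for `J = {c}` the part of `S'` with `y c = (κ, τ)` is at most `2 / (K b ^ k)`, so (sum
over `τ`) the part with `(y c).1 = (y0 c).1` is at most `2 / K`, and `2 n / K ≤ 1 / 2` (`Par.hK`):
`|S''| ≥ |S'| / 2 > 0`. For `J ≠ ∅` the number of the `y ∈ S''` with `y = u` on `J` is at most
`2 ^ |J| |S'| / (K b ^ k) ^ |J| ≤ 2 ^ (|J| + 1) |S''| / (K b ^ k) ^ |J| ≤ K ^ |J| |S''| / (K b ^ k) ^ |J|` as
`2 ^ (|J| + 1) ≤ 4 ^ |J| ≤ K ^ |J|`. (6) KXA for `f a w`, `P = S''` contradicts (4). -/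
def Stmt_KXC : Prop := Stmt_APS → Stmt_CND → Stmt_SPR → Stmt_KXA →
  ∀ (n K G d ι B k b h p : ℕ) (E Oa Iw : Type) [Fintype Oa] [Fintype Iw]
    (T : Tests (Fin n × Fin K) E (Fin k × Fin b → Fin (k - 1)) (Fin k → Fin b))
    (f : Oa → Iw → (E → Bool) → Bool), Par n K G d ι B k b h p → T.Dis → CliqueLike T →
    (∀ a w, MonSize (f a w) G) → Fintype.card Oa ≤ 2 ^ d → Fintype.card Iw ≤ 2 ^ ι →
    B * ((univ : Finset ((Fin n → Fin K × (Fin k → Fin b)) × Fin n ×
        (Fin n × Fin K → Fin k × Fin b → Fin (k - 1)))).filter fun z =>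
      (∃ a, ∀ w, f a w (T.xin (sA z.1)) = true) ∧
        ∀ a, ∃ w, f a w (T.xin (sB z.1 z.2.1 z.2.2)) = false).card ≤
      Fintype.card ((Fin n → Fin K × (Fin k → Fin b)) × Fin n ×
        (Fin n × Fin K → Fin k × Fin b → Fin (k - 1)))

open Classical in
/-- NXC (120 lines). A family of small monotone functions: if less than a quarter of the neutral fillings
of the cells is accepted by some function of the family, then few positive tests are. PROOF. For every `m`
APS (b) with `W = Fin n × Fin K`, `D = univ`, `P = Fin n → Fin K × Xp`, `pos y (c, j) = some (y c).2` if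
`j = (y c).1`, `none` otherwise; the inputs are `T.xin (sA y)` and `T.xin (sN χ)`. The condition for the
sets is CND with `P = univ`, `I = ∅` (the number of the `y` with `y = u` on `J` is `(K b ^ k) ^ (n - |J|)`).
`Par.hp2` gives `16 G (2 h p) ^ (4 h) ≤ 2 ^ p`. Sum over `m`. -/
def Stmt_NXC : Prop := Stmt_APS → Stmt_CND →
  ∀ (n K G d ι B k b h p : ℕ) (E Mx : Type) [Fintype Mx]
    (T : Tests (Fin n × Fin K) E (Fin k × Fin b → Fin (k - 1)) (Fin k → Fin b))
    (f : Mx → (E → Bool) → Bool), Par n K G d ι B k b h p → T.Dis → CliqueLike T →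
    (∀ m, MonSize (f m) G) →
    4 * ((univ : Finset (Fin n × Fin K → Fin k × Fin b → Fin (k - 1))).filter fun χ =>
        ∃ m, f m (T.xin (sN (Xp := Fin k → Fin b) χ)) = true).card <
      Fintype.card (Fin n × Fin K → Fin k × Fin b → Fin (k - 1)) →
    ((univ : Finset (Fin n → Fin K × (Fin k → Fin b))).filter fun y =>
        ∃ m, f m (T.xin (sA y)) = true).card * 2 ^ (2 * h) ≤
      Fintype.card Mx * G * Fintype.card (Fin n → Fin K × (Fin k → Fin b))

/-! ### one step -/

open Classical in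
/-- The bounds for one step in the first half: `inp a' = T.inp a' b'`, `a` is empty in the cells. -/
def StepX : Prop :=
  ∀ (M n K q s t G d ι B k b h p : ℕ) (E : Type)
    (T : Tests (Fin M) E (Fin k × Fin b → Fin (k - 1)) (Fin k → Fin b))
    (mo : Fin q → Mode s t) (C : Fin q → NCirc (E ⊕ E) s t), Par n K G d ι B k b h p → T.Dis →
    CliqueLike T → (∀ i, (C i).NotsFree) → (∀ i, (C i).gates.length ≤ G) →
    (∀ i, s + t ≤ (mo i).2.card + d) → (∀ i, (mo i).2.card ≤ ι) →
    ∀ (a b' : Fin M → St (Fin k × Fin b → Fin (k - 1)) (Fin k → Fin b))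
      (e : Fin n × Fin K → Fin M), Function.Injective e → (∀ x, a (e x) = St.emp) →
      ((((univ : Finset (Fin n → Fin K × (Fin k → Fin b))).filter fun y =>
          ¬ SN C (T.inp a b') (T.inp (put e (sA y) a) b')).card : ℝ) ≤
        (4 * (((univ : Finset (Fin n × Fin K → Fin k × Fin b → Fin (k - 1))).filter fun χ =>
          ¬ SN C (T.inp a b') (T.inp (put e (sN χ) a) b')).card : ℝ) /
            Fintype.card (Fin n × Fin K → Fin k × Fin b → Fin (k - 1)) +
          q * 2 ^ s * G / 2 ^ (2 * h)) *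
            Fintype.card (Fin n → Fin K × (Fin k → Fin b))) ∧
      (((univ : Finset ((Fin n → Fin K × (Fin k → Fin b)) × Fin n ×
          (Fin n × Fin K → Fin k × Fin b → Fin (k - 1)))).filter fun z =>
          SN C (T.inp a b') (T.inp (put e (sA z.1) a) b') ∧
          Same2 mo C (T.inp (put e (sM z.1 z.2.1) a) b')
            (T.inp (put e (sB z.1 z.2.1 z.2.2) a) b') ∧
          ¬ Keep2 true mo C (T.inp (put e (sM z.1 z.2.1) a) b')
            (T.inp (put e (sA z.1) a) b')).card : ℝ) ≤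
        q / B * Fintype.card ((Fin n → Fin K × (Fin k → Fin b)) × Fin n ×
          (Fin n × Fin K → Fin k × Fin b → Fin (k - 1)))

/-- STQ (220 lines). PROOF. The tests of the cells are `T' = ⟨fun x => T.B (e x), fun x => T.neu (e x),
fun x => T.pos (e x)⟩` (`Dis` as `e` is injective, `CliqueLike`). For every state `st` of the cells
`T.inp (put e st a) b'` is the image of `T'.xin st` under the substitution `z ↦ Sum.elim (fun e => z e ||
T.xin a e) (fun e => !(T.xin b' e))` (`IsProj`; `a` is `emp` on the cells, `Function.Injective.extend_apply`,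
`Function.extend_apply'`). GVL for every `C i` at `R = T.inp a b'` gives `f i p`, `h i u`; inputs
`T.inp (put e st a) b'` are above `R`. First bound: if the right-hand side is at least `|P|` nothing is to
show, otherwise less than a quarter of the `χ` have `¬ SN`, i.e. some `h i u = true`; NXC with
`Mx = Fin q × (Fin s → Bool)`. Second bound: a `z` in the set has an `i` with `(mo i).1 = true` and different
answers at `M = inp (sM ..)` and `A = inp (sA ..)`. `R ≤ M ≤ A` and `SN C R A` give (MN2) `SN C R M`,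
`SN C M A`, the answer grows, so it is `false` at `M` and `true` at `A`; by `Same2` it is `false` at
`inp (sB ..)`, and `SN C R (inp (sB ..))`. So with `Oa` = the values of the outer bits (`{j // j ∉ (mo i).2} →
Bool`, at most `2 ^ d`), `Iw` = the values of the inner bits, and `f' a w = f i (the bits a, w)` after the
substitution, `z` is in the set of KXC. Sum over `i`: at most `q / B`. (`G`: `MonSize.comp` does not change
the size.) -/
def Stmt_STQ : Prop := Stmt_MN2 → Stmt_GVL → Stmt_APS → Stmt_CND → Stmt_SPR → Stmt_KXA → Stmt_KXC →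
  Stmt_NXC → StepX

open Classical in
/-- The bounds for one step in the second half. -/
def StepZ2 : Prop :=
  ∀ (M n K q s t G d ι B k b h p : ℕ) (E : Type)
    (T : Tests (Fin M) E (Fin k × Fin b → Fin (k - 1)) (Fin k → Fin b))
    (mo : Fin q → Mode s t) (C : Fin q → NCirc (E ⊕ E) s t), Par n K G d ι B k b h p → T.Dis →
    CliqueLike T → (∀ i, (C i).NotsFree) → (∀ i, (C i).gates.length ≤ G) →
    (∀ i, s + t ≤ (mo i).2.card + d) → (∀ i, (mo i).2.card ≤ ι) →
    ∀ (a b' : Fin M → St (Fin k × Fin b → Fin (k - 1)) (Fin k → Fin b))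
      (e : Fin n × Fin K → Fin M), Function.Injective e → (∀ x, b' (e x) = St.emp) →
      ((((univ : Finset (Fin n → Fin K × (Fin k → Fin b))).filter fun y =>
          ¬ SN C (T.inp a b') (T.inp a (put e (sA y) b'))).card : ℝ) ≤
        (4 * (((univ : Finset (Fin n × Fin K → Fin k × Fin b → Fin (k - 1))).filter fun χ =>
          ¬ SN C (T.inp a b') (T.inp a (put e (sN χ) b'))).card : ℝ) /
            Fintype.card (Fin n × Fin K → Fin k × Fin b → Fin (k - 1)) +
          q * 2 ^ s * G / 2 ^ (2 * h)) *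
            Fintype.card (Fin n → Fin K × (Fin k → Fin b))) ∧
      (((univ : Finset ((Fin n → Fin K × (Fin k → Fin b)) × Fin n ×
          (Fin n × Fin K → Fin k × Fin b → Fin (k - 1)))).filter fun z =>
          SN C (T.inp a b') (T.inp a (put e (sA z.1) b')) ∧
          Same2 mo C (T.inp a (put e (sM z.1 z.2.1) b'))
            (T.inp a (put e (sB z.1 z.2.1 z.2.2) b')) ∧
          ¬ Keep2 false mo C (T.inp a (put e (sM z.1 z.2.1) b'))
            (T.inp a (put e (sA z.1) b'))).card : ℝ) ≤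
        q / B * Fintype.card ((Fin n → Fin K × (Fin k → Fin b)) × Fin n ×
          (Fin n × Fin K → Fin k × Fin b → Fin (k - 1)))

/-- STW (80 lines). PROOF. Apply `StepX` to the circuits `flip (C i)` and the modes `(!(mo i).1, (mo i).2)`,
with `a` and `b'` exchanged; `neg (T.inp a b) = T.inp b a` (see `NBC/STX.lean`); DU2. -/
def Stmt_STW : Prop := Stmt_DU2 → StepX → StepZ2

/-! ### the random chain -/

/-- RSM (60 lines). Averaging again over some coordinates. PROOF. The map `(f, x) ↦ (f changed to x on the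
range of ι, f ∘ ι)` is a bijection of `(W → X) × (A → X)`; the left-hand side is the sum of `F (x, f changed
to x)` by the hypothesis. Or: `(W → X) ≃ (range → X) × (complement → X)`. Compare `NBC/RES.lean`. -/
def Stmt_RSM : Prop :=
  ∀ (A W X : Type) [Fintype A] [Fintype W] [DecidableEq A] [DecidableEq W] [Fintype X] (ι : A → W),
    Function.Injective ι → ∀ F : (A → X) → (W → X) → ℝ,
    (∀ x f f', (∀ w, (∀ a, ι a ≠ w) → f w = f' w) → F x f = F x f') →
    ∑ f : W → X, ∑ x : A → X, F x f =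
      Fintype.card X ^ Fintype.card A * ∑ f : W → X, F (fun a => f (ι a)) f

/-- CFA (170 lines). The configurations `conf` and the cells. `R = conf m ω g l`, `e = cel hM ω`, for
`κ : Fin n → Fin K` the positive tests are `y c = (κ c, ω.2.2 (e (c, κ c)))`, and `χ = ω.2.1 ∘ e`.
PROOF. (0) from the definition (the roles `g + c K + j` are not below `g` and below `m`). (1) Let `σ` be the
permutation which exchanges the role `g + c K + κ c` with the role `m + l + ρ c`, for all `c`, where
`ρ = Equiv.swap i (n - 1)` (last element), and fixes all other roles (the `2 n` roles are different; define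
`σ` as an involution by cases, or as a product of swaps, or by `Equiv.Perm.viaEmbedding`). The window `w`
has in `ω' = (ω.1 * σ, ω.2)` the role `σ.symm (ω.1.symm w)`. Compare both sides at every `w`
(`w = e x` or not; `Function.Injective.extend_apply`, `Function.extend_apply'`). (2) The same permutation
without the exchange for `c = i`; the states `sB` have neutral tests in the roles `g, …, g + n K - 1` of
`ω'` except those `g + c K + κ c`, `c ≠ i`, which are empty. (3) no permutation. (4) order: from the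
definition. (5) number of the positive tests: they are in the windows of the roles `m, …, m + l - 1`. -/
def Stmt_CFA : Prop :=
  ∀ (M n K m g l : ℕ) (Xn Xp : Type) (hM : g + n * K ≤ M), 0 < n → 0 < K → g + n * K ≤ m →
    m + l + n ≤ M →
    -- (0)
    (∀ (ω : Ply M Xn Xp), Function.Injective (cel hM ω) ∧
      (∀ x, conf m ω g l (cel hM ω x) = St.emp)) ∧
    (∀ (π : Equiv.Perm (Fin M)) (χ χ' : Fin M → Xn) (τ τ' : Fin M → Xp),
      (∀ w, (∀ x, cel (Xn := Xn) (Xp := Xp) hM (π, χ, τ) x ≠ w) → χ w = χ' w ∧ τ w = τ' w) →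
        conf m (π, χ, τ) g l = conf m (π, χ', τ') g l) ∧
    -- (1)
    (∀ (κ : Fin n → Fin K) (i : Fin n), ∃ σ : Equiv.Perm (Fin M), ∀ ω : Ply M Xn Xp,
      put (cel hM ω) (sA fun c => (κ c, ω.2.2 (cel hM ω (c, κ c)))) (conf m ω g l) =
        conf m (ω.1 * σ, ω.2) g (l + n) ∧
      put (cel hM ω) (sM (fun c => (κ c, ω.2.2 (cel hM ω (c, κ c)))) i) (conf m ω g l) =
        conf m (ω.1 * σ, ω.2) g (l + n - 1)) ∧
    -- (2)
    (∀ (κ : Fin n → Fin K) (i : Fin n), ∃ σ : Equiv.Perm (Fin M), ∀ ω : Ply M Xn Xp,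
      put (cel hM ω) (sM (fun c => (κ c, ω.2.2 (cel hM ω (c, κ c)))) i) (conf m ω g l) =
        conf m (ω.1 * σ, ω.2) g (l + n - 1) ∧
      Sb (conf m (ω.1 * σ, ω.2) g (l + n - 1))
        (put (cel hM ω) (sB (fun c => (κ c, ω.2.2 (cel hM ω (c, κ c)))) i
          fun x => ω.2.1 (cel hM ω x)) (conf m ω g l)) ∧
      Sb (put (cel hM ω) (sB (fun c => (κ c, ω.2.2 (cel hM ω (c, κ c)))) i
          fun x => ω.2.1 (cel hM ω x)) (conf m ω g l))
        (conf m (ω.1 * σ, ω.2) (g + n * K) (l + n - 1))) ∧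
    -- (3)
    ∀ ω : Ply M Xn Xp, put (cel hM ω) (sN fun x => ω.2.1 (cel hM ω x)) (conf m ω g l) =
      conf m ω (g + n * K) l

/-- CFB (80 lines). Order and number of positive tests. PROOF. From the definitions; the windows with a
positive test are the `ω.1 ρ`, `m ≤ ρ < m + l`. -/
def Stmt_CFB : Prop :=
  ∀ (M m : ℕ) (Xn Xp : Type) (ω : Ply M Xn Xp) (g g' l l' : ℕ), g ≤ g' → g' ≤ m → l ≤ l' →
    m + l' ≤ M → Sb (conf m ω g l) (conf m ω g' l') ∧ cnt (conf m ω g l) = l

open Classical in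
/-- AVG (250 lines). One step of the random chain, one half. PROOF. Let `N = |Ply|`,
`R ω = conf m ω g l`, `e ω = cel hM ω`. For `κ : Fin n → Fin K`, `i : Fin n` write `A, M, Bχ` for the three
states of CFA (with `y c = (κ c, ω.2.2 (e (c, κ c)))`, `χ = ω.2.1 ∘ e`). By CFA (1) and the bijection
`ω ↦ (ω.1 * σ, ω.2)` the left-hand side is the number of the `ω` with `¬ X M A`, which is at most
`#(¬ S0 R A) + #(¬ Q M Bχ) + #(S0 R A ∧ Q M Bχ ∧ ¬ X M A)`. Sum over the `K ^ n n` pairs `(κ, i)`.
First term: by RSM for the coordinates `c ↦ e (c, κ c)` of `ω.2.2` (`R ω` does not depend on them, CFA (0))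
it is `n |Xp| ^ (-n) ∑_ω #{y | ¬ S0 (R ω) (put e (sA y) R)}`, by hypothesis at most
`n K ^ n ∑_ω (4 #{χ | ¬ Q (R ω) (put e (sN χ) R)} / |Xn| ^ (n K) + δ₁)`, and by RSM for the coordinates `e x`
of `ω.2.1` and CFA (3) the sum of the first terms is `4 #{ω | ¬ Q (conf g l) (conf (g + n K) l)}`. Second
term: for every `(κ, i)` at most `#{ω | ¬ Q (conf g (l + n - 1)) (conf (g + n K) (l + n - 1))}` by CFA (2), the
bijection and the hypothesis on `Q`. Third term: RSM for both, at most `K ^ n n δ₂ N`. -/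
def Stmt_AVG : Prop := Stmt_RSM → Stmt_CFA →
  ∀ (M n K m : ℕ) (Xn Xp : Type) [Fintype Xn] [Fintype Xp] [Nonempty Xn] [Nonempty Xp]
    (δ₁ δ₂ : ℝ) (S0 Q X : (Fin M → St Xn Xp) → (Fin M → St Xn Xp) → Prop), 0 < n → 0 < K →
    (∀ (a : Fin M → St Xn Xp) (e : Fin n × Fin K → Fin M), Function.Injective e →
      (∀ x, a (e x) = St.emp) →
      (((univ : Finset (Fin n → Fin K × Xp)).filter fun y => ¬ S0 a (put e (sA y) a)).card : ℝ) ≤
        (4 * (((univ : Finset (Fin n × Fin K → Xn)).filter fun χ =>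
            ¬ Q a (put e (sN χ) a)).card : ℝ) / Fintype.card (Fin n × Fin K → Xn) + δ₁) *
          Fintype.card (Fin n → Fin K × Xp)) →
    (∀ (a : Fin M → St Xn Xp) (e : Fin n × Fin K → Fin M), Function.Injective e →
      (∀ x, a (e x) = St.emp) →
      (((univ : Finset ((Fin n → Fin K × Xp) × Fin n × (Fin n × Fin K → Xn))).filter fun z =>
          S0 a (put e (sA z.1) a) ∧
          Q (put e (sM z.1 z.2.1) a) (put e (sB z.1 z.2.1 z.2.2) a) ∧
          ¬ X (put e (sM z.1 z.2.1) a) (put e (sA z.1) a)).card : ℝ) ≤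
        δ₂ * Fintype.card ((Fin n → Fin K × Xp) × Fin n × (Fin n × Fin K → Xn))) →
    (∀ a a' a'' : Fin M → St Xn Xp, Sb a a' → Sb a' a'' → Q a a'' → Q a a') →
    ∀ g l : ℕ, g + n * K ≤ m → m + l + n ≤ M →
      (((univ : Finset (Ply M Xn Xp)).filter fun ω =>
          ¬ X (conf m ω g (l + n - 1)) (conf m ω g (l + n))).card : ℝ) ≤
        4 * (((univ : Finset (Ply M Xn Xp)).filter fun ω =>
          ¬ Q (conf m ω g l) (conf m ω (g + n * K) l)).card : ℝ) +
        (((univ : Finset (Ply M Xn Xp)).filter fun ω =>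
          ¬ Q (conf m ω g (l + n - 1)) (conf m ω (g + n * K) (l + n - 1))).card : ℝ) +
        (δ₁ + δ₂) * Fintype.card (Ply M Xn Xp)

open Classical in
/-- The bound of AVG for a potential. -/
def StepB {M : ℕ} {Xn Xp : Type} [Fintype Xn] [Fintype Xp] (n K m L : ℕ) (δ : ℝ)
    (Φ : (Fin M → St Xn Xp) → ℕ)
    (X : (Fin M → St Xn Xp) → (Fin M → St Xn Xp) → Prop) : Prop :=
  ∀ g l : ℕ, g + n * K ≤ m → l < L →
    (((univ : Finset (Ply M Xn Xp)).filter fun ω =>
        ¬ X (conf m ω g (l + n - 1)) (conf m ω g (l + n))).card : ℝ) ≤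
      4 * (((univ : Finset (Ply M Xn Xp)).filter fun ω =>
        Φ (conf m ω (g + n * K) l) ≠ Φ (conf m ω g l)).card : ℝ) +
      (((univ : Finset (Ply M Xn Xp)).filter fun ω =>
        Φ (conf m ω (g + n * K) (l + n - 1)) ≠ Φ (conf m ω g (l + n - 1))).card : ℝ) +
      δ * Fintype.card (Ply M Xn Xp)

/-- GM2 (250 lines). The random chain. Port of `NBC/GAM.lean`. PROOF. Let `N` be the number of the plays,
`m = J * (n * K)`; for the group number `g < J` the number of the neutral windows is `g * (n * K)`,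
`h = J - 1 - g`. `TEL` (`NBC/TEL.lean`) for the `4 L` functions `V (g, h)` = mean over `(ω, ω')` of
`Φ (conf ω (g n K) u) (conf ω' (h n K) u')` with `(u, u') = (l, l + n - 1)`, `(l + n - 1, l + n - 1)` (X step
number `l`) and `(l + n, l)`, `(l + n, l + n - 1)` (Z step number `l`), `l < L`, gives `g < J` with the sum of the
`V (g, J - g) - V (g + 1, J - 1 - g)` at most `4 L P / J ≤ 1 / 8`. The number of the `(ω, ω')` with
`Φ (conf ω ((g+1) n K) u) (conf ω' (h n K) u') ≠ Φ (conf ω (g n K) u) (conf ω' (h n K) u')` is at most the sum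
of the differences (integers, `Φ` decreases in the first argument), at most
`N ^ 2 (V (g, J - g) - V (g + 1, J - 1 - g))` as `Φ` grows in the second argument (CFB). In the same way for
the Z steps. By `StepB` (for fixed `ω'`, resp. for fixed `ω`; with `h` in place of `g` in the second half)
the number of the `(ω, ω')` with some bad step is at most `N ^ 2 (4 * 4 L P / J + 2 L δ) < N ^ 2`. Take
`(ω, ω')` without bad steps, `a l = conf ω (g n K) (l + n - 1)`, `b l = conf ω' (h n K) (l + n - 1)`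
(`l + 1 + n - 1 = l + n`). -/
def Stmt_GM2 : Prop := Pool.Agent.NBC.Stmt_TEL → Stmt_CFB →
  ∀ (M n K L J P : ℕ) (Xn Xp : Type) [Fintype Xn] [Fintype Xp] [Nonempty Xn] [Nonempty Xp] (δ : ℝ)
    (Φ : (Fin M → St Xn Xp) → (Fin M → St Xn Xp) → ℕ)
    (X Z : (Fin M → St Xn Xp) → (Fin M → St Xn Xp) → (Fin M → St Xn Xp) → Prop),
    0 < n → 0 < K → 0 < J → J * (n * K) + L + n - 1 ≤ M →
    (∀ a b, Φ a b ≤ P) → (∀ a a' b, Sb a a' → Φ a' b ≤ Φ a b) →
    (∀ a b b', Sb b b' → Φ a b ≤ Φ a b') →
    (∀ b, StepB n K (J * (n * K)) L δ (fun a => Φ a b) fun a a' => X a b a') →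
    (∀ a, StepB n K (J * (n * K)) L δ (fun b => Φ a b) fun b b' => Z a b b') →
    0 ≤ δ → 32 * (L * P) ≤ J → 4 * (L * δ) < 1 →
    ∃ a b : ℕ → Fin M → St Xn Xp,
      (∀ l ≤ L, cnt (a l) = l + n - 1 ∧ cnt (b l) = l + n - 1) ∧
      ∀ l < L, Sb (a l) (a (l + 1)) ∧ Sb (b l) (b (l + 1)) ∧
        X (a l) (b l) (a (l + 1)) ∧ Z (a (l + 1)) (b l) (b (l + 1))

/-- CO2 (130 lines). The chain is short. Port of `NBC/CONN.lean`. PROOF. Let `n l` be the number of the `i`
with `(mo i).1 = false` and `Ans2 (mo i) (C i) (T.inp (a l) (b l))`. In the step from `(a l, b l)` to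
`(a (l+1), b l)` the function `Fn` changes from `false` to `true`, so some answer changes, and its kind is
`false` because of `Keep2 true`; the input grows (`Sb`), the NOT gates do not change, so by MN2 no answer
changes from `true` to `false`; so the number grows by at least one. In the step to `(a (l+1), b (l+1))` it
does not change by `Keep2 false`. So `n l ≥ l`, and `n L ≤ q`. -/
def Stmt_CO2 : Prop := Stmt_MN2 →
  ∀ (M n L q s t : ℕ) (E Xn Xp : Type) (T : Tests (Fin M) E Xn Xp) (mo : Fin q → Mode s t)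
    (C : Fin q → NCirc (E ⊕ E) s t) (D : (Fin q → Prop) → Prop) (Fn : (E ⊕ E → Bool) → Prop),
    0 < n → (∀ i, (C i).NotsFree) → (∀ x, Fn x ↔ D fun i => Ans2 (mo i) (C i) x) →
    (∀ a b, Fn (T.inp a b) ↔ cnt b < cnt a) →
    ∀ a b : ℕ → Fin M → St Xn Xp, (∀ l ≤ L, cnt (a l) = l + n - 1 ∧ cnt (b l) = l + n - 1) →
    (∀ l < L, Sb (a l) (a (l + 1)) ∧
      Keep2 true mo C (T.inp (a l) (b l)) (T.inp (a (l + 1)) (b l)) ∧
      Keep2 false mo C (T.inp (a (l + 1)) (b l)) (T.inp (a (l + 1)) (b (l + 1)))) → L ≤ q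

/-! ### cliques and numbers -/

/-- CN2 (80 lines). The windows of the clique problem, one index. PROOF. `Dis` and the count: from
`NBC.CNT_thm` (`NBC/CNT.lean`) with `K = 1`, `φ' w = φ w.1` on `Fin M × Fin 1`; the inputs of `a` and of
`a ∘ Prod.fst` are the same and `cntP (a ∘ Prod.fst) = cnt a`. Or copy the proof of CNT. `CliqueLike`: if
`e.1.1 = vx (x)` and `e.1.2 = vx (y)` for some `x ≠ y` then the second case (`tpos`, `tneg`, `vx_inj`, see
`NBC/DIC.lean`), otherwise no positive test contains `e`. -/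
def Stmt_CN2 : Prop :=
  ∀ (v k Q b M : ℕ) (hv : k * (2 * Q) * b ≤ v) (A : Finset ℕ) (φ : Fin M → ℕ × ℕ)
    (hφ : ∀ w, ∀ i < k, (φ w).1 + i * (φ w).2 < 2 * Q), 2 ≤ k → 0 < b →
    ThreeAPFree (A : Set ℕ) → Function.Injective φ → (∀ w, φ w ∈ Finset.range Q ×ˢ A) →
    (winT hv φ hφ).Dis ∧ CliqueLike (winT hv φ hφ) ∧
    ∀ a b', More v k ((winT hv φ hφ).inp a b') ↔ cnt b' < cnt a

/-- NU2 (300 lines, may be split). The parameters. Port of `NBC/NUM.lean`. PROOF. `x = v ^ (ε / 64)`;
`h = ⌊x / 3⌋` (`2 h (2 h - 1) ≤ 4 x² / 9 ≤ k - 1` for large `v`), `p = ⌈v ^ (ε / 2)⌉`, `b = 8 h p`,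
`B = 16 q (q + 1)` (so `4 (q + 1) q / B = 1 / 4`), `n = 4 B (d + 2 + Nat.log 2 B)`
(`2 ^ i ≤ 2 ^ (d + 1) B` gives `i ≤ d + 1 + Nat.log 2 B`), `K = 4 n`, `J = 32 (q + 1) q 2 ^ (s + r + 1)`, `Q`, `A`
from `Pool.Agent.NEG72.params_explicit` (`NEG72/WinU.lean`). From
`q ^ 6 2 ^ (s+r) (d+1) ^ 2 ≤ N ^ (1-ε)`, `N ≤ v ² / 2`: `q, d + 1, 2 ^ s ≤ v ^ 2`, so `Nat.log 2 B ≤ C log v`.
`G < 2 ^ (v ^ (ε / 100))` (`N ^ (ε/200) ≤ v ^ (ε / 100)`), so `4 G ≤ 2 ^ (2 h)` and
`4 (q + 1) q 2 ^ s G / 2 ^ (2 h) ≤ 1 / 4` since `2 h ≥ v ^ (ε / 64) / 2` is larger than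
`v ^ (ε / 100) + O(log v)`; `hp2`: `log2` of the left-hand side is at most
`O(log v) + ι + v ^ (ε / 100) + 4 h log2 (2 h p) ≤ O(log v) + v ^ (2 ε / 5) + v ^ (ε / 50) < v ^ (ε / 2)` as
`ι ≤ N ^ (ε / 5) ≤ v ^ (2 ε / 5)`. The number of the windows is at most
`J n K + n + q ≤ C q ^ 2 2 ^ (s + r) (q ^ 2 (d + 1) log v) ^ 2 ≤ C (log v) ^ 2 N ^ (1 - ε)`,
`32 k³ b² ≤ C' v ^ (6 ε / 64 + 2 ε / 64 + ε)`, the product is at most `C'' v ^ (2 - 2 ε + 9 ε / 8) (log v) ^ 2`, and
`e ^ (4 √(log v)) ≤ v ^ (ε / 64)`. -/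
def Stmt_NU2 : Prop :=
  ∀ ε : ℝ, 0 < ε → ε ≤ 1 → ∃ v₀ : ℕ, ∀ v ≥ v₀, ∀ k N q s r G d ι : ℕ,
    k = ⌊(v : ℝ) ^ (ε / 32)⌋₊ → N = v * (v - 1) / 2 → 1 ≤ q →
    ((q ^ 6 * 2 ^ (s + r) * (d + 1) ^ 2 : ℕ) : ℝ) ≤ (N : ℝ) ^ (1 - ε) →
    (ι : ℝ) ≤ (N : ℝ) ^ (ε / 5) → (G : ℝ) < (2 : ℝ) ^ ((N : ℝ) ^ (ε / 200)) →
    ∃ (n K B h p b J Q : ℕ) (A : Finset ℕ), Par n K G d ι B k b h p ∧ 0 < b ∧ 0 < J ∧
      32 * ((q + 1) * (q * 2 ^ (s + r + 1))) ≤ J ∧
      4 * (((q + 1 : ℕ) : ℝ) * (q * 2 ^ s * G / 2 ^ (2 * h) + q / B)) < 1 ∧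
      ThreeAPFree (A : Set ℕ) ∧
      (∀ w ∈ Finset.range Q ×ˢ A, ∀ i < k, w.1 + i * w.2 < 2 * Q) ∧ k * (2 * Q) * b ≤ v ∧
      J * (n * K) + (q + 1) + n - 1 ≤ Q * A.card

/-- The lower bound. -/
def Lower2 : Prop :=
  ∀ ε : ℝ, 0 < ε → ε ≤ 1 → ∃ v₀ : ℕ, ∀ v ≥ v₀, ∀ k N q s t r G d ι : ℕ,
    k = ⌊(v : ℝ) ^ (ε / 32)⌋₊ → N = v * (v - 1) / 2 →
    ((q ^ 6 * 2 ^ (s + r) * (d + 1) ^ 2 : ℕ) : ℝ) ≤ (N : ℝ) ^ (1 - ε) →
    (ι : ℝ) ≤ (N : ℝ) ^ (ε / 5) → (G : ℝ) < (2 : ℝ) ^ ((N : ℝ) ^ (ε / 200)) →
    ∀ (mo : Fin q → Mode s t) (C : Fin q → NCirc (Edge v ⊕ Edge v) s t) (D : (Fin q → Prop) → Prop),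
      (∀ i, (C i).NotsFree) → (∀ i, (C i).nots ≤ r) → (∀ i, (C i).gates.length ≤ G) →
      (∀ i, s + t ≤ (mo i).2.card + d) → (∀ i, (mo i).2.card ≤ ι) →
      ¬ ∀ x, More v k x ↔ D fun i => Ans2 (mo i) (C i) x

open Classical in
/-- UPS (200 lines). The function in the PP mode with few coins. PROOF. `t` coins with
`v.choose k ≤ 2 ^ t` (an injection `g` of the `k`-subsets of `Fin v` into `Fin t → Bool`), and one more coin
(the coin number `0`). For a code `c : Fin t → Bool` let `bo c e` = (`c = g S` for some `S` which contains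
both ends of `e`) and `va c` = (`c` is in the range of `g`), functions of the coins, i.e. wires `Wire.wit`.
Gates: for every edge `e`: `Q e = (¬ bo e) ∨ x e`, and the conjunction of all `Q e` (`clq`); for every edge
`e`: `P e = bo e ∧ z e`, and the disjunction of all `P e` (`ed`). Output: (coin `0` is `false`, `va` and
`clq`) or (coin `0` is `true` and (not `va`, or `ed`)). `4 N + 4` gates at most for `N` edges, no NOT gates.
The number of the accepted coins is `cliques + (2 ^ t - indeps)` (for `va c`, `c = g S`: `ed` is `false` iff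
`S` is independent), which is more than half of `2 ^ (t + 1)` iff `indeps < cliques`. Build the list of the
gates recursively over the list of all edges, or use the lemmas of `NLM/Pp.lean` (module of the version
with `v + 1` coins). -/
def Stmt_UPS : Prop :=
  ∀ v k t : ℕ, v.choose k ≤ 2 ^ t →
    ∃ C : NCirc (Edge v ⊕ Edge v) 0 (t + 1), C.nots = 0 ∧ C.gates.length ≤ 2 * v ^ 2 + 8 ∧
      ∀ x, Maj C x ↔ More v k x

/-- MAI (200 lines). The assembly. Port of `NBC/Main.lean`. PROOF. `q = 0`: then `More` would be constant,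
but it is `false` if the first graph has no edges (no cliques, `k ≥ 2`) and `true` for the pair of complete graphs
(`indeps = 0 < cliques`; `2 ≤ k ≤ v`, see `NBC/Main.lean`). `q ≥ 1`: parameters from NU2; `M` windows,
`M = J (n K) + (q + 1) + n - 1`, `φ` injective into `range Q ×ˢ A`; `T = winT hv φ hφ`, CN2.
`Φ a b = Pot2 mo C (T.inp a b)`, `X a b a' = Keep2 true mo C (T.inp a b) (T.inp a' b)`,
`Z a b b' = Keep2 false mo C (T.inp a b) (T.inp a b')`. `StepB` for `X`: AVG with
`S0 a a' = SN C (T.inp a b) (T.inp a' b)`, `Q a a' = Same2 mo C (T.inp a b) (T.inp a' b)` (`¬ SN → ¬ Same2`), the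
two bounds from `StepX`; the sandwich property of `Q` by MN2; `¬ Q` implies different potentials by PO2.
The same for `Z` with `StepZ2`. GM2 with `L = q + 1`, `P = q 2 ^ (s + r + 1)`,
`δ = q 2 ^ s G / 2 ^ (2 h) + q / B` gives the chain, CO2 gives `q + 1 ≤ q`. -/
def Stmt_MAI : Prop := Stmt_MN2 → Stmt_PO2 → StepX → StepZ2 → Stmt_RSM → Stmt_CFA → Stmt_CFB →
  Stmt_AVG → Pool.Agent.NBC.Stmt_TEL → Stmt_GM2 → Stmt_CO2 → Stmt_CN2 → Stmt_NU2 → Lower2

end Pool.Agent.S2C
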