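import Pool.Agent.S2C.Stmts
import Pool.Agent.NLM.Pp

/-!
# S2C, module UPS: the function in the PP mode with few coins
-/

set_option autoImplicit false

namespace Pool.Agent.S2C

open Finset Pool.Agent.NegLim Pool.Agent.NLM

/-- From a program without negations to a circuit. -/
lemma ups_of_makes {E : Type} {s t K : ℕ} {f : Fn E s t} (h : Makes ∅ K {f}) :
    ∃ C : NCirc E s t, C.gates.length ≤ K ∧ C.nots = 0 ∧ ∀ x u w, outp C x u w = f x u w := by
  obtain ⟨M, h1, h2, h3⟩ := h [] (by simp)
  have h4 := h2 0 Prg.nil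
  rw [List.append_nil] at h4
  have h5 := h3 f rfl
  rw [List.append_nil] at h5
  obtain ⟨C, c1, c2, c3, _⟩ := conv h4
  obtain ⟨a, ha⟩ := conv_wire h5
  refine ⟨⟨C, a⟩, by rw [c1]; exact h1, c2, fun x u w => ?_⟩
  show a.val x u w (vals C x u w) = f x u w
  rw [c3, ha]

section

variable {v k t : ℕ}

/-- the sets with `k` elements -/
abbrev UpsS (v k : ℕ) : Type := {S : Finset (Fin v) // S.card = k}

lemma ups_count (g : UpsS v k → (Fin t → Bool)) (hg : Function.Injective g)
    (P : Finset (Fin v) → Prop) (Q : (Fin t → Bool) → Prop)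
    [DecidablePred fun S : Finset (Fin v) => S.card = k ∧ P S] [DecidablePred Q]
    (h : ∀ c, Q c ↔ ∃ S : UpsS v k, g S = c ∧ P S.1) :
    (univ.filter fun c => Q c).card =
      (univ.filter fun S : Finset (Fin v) => S.card = k ∧ P S).card := by
  symm
  apply Finset.card_bij (fun S hS => g ⟨S, (mem_filter.1 hS).2.1⟩)
  · intro S hS
    exact mem_filter.2 ⟨mem_univ _, (h _).2 ⟨⟨S, (mem_filter.1 hS).2.1⟩, rfl,
      (mem_filter.1 hS).2.2⟩⟩
  · intro S hS S' hS' e
    exact congrArg Subtype.val (hg e)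
  · intro c hc
    obtain ⟨S, hS, hP⟩ := (h c).1 (mem_filter.1 hc).2
    exact ⟨S.1, mem_filter.2 ⟨mem_univ _, S.2, hP⟩, hS⟩

open Classical in
/-- the code is the code of a set -/
noncomputable def upsVa (g : UpsS v k → (Fin t → Bool)) (c : Fin t → Bool) : Bool :=
  decide (∃ S, g S = c)

open Classical in
/-- the code is the code of a set which contains both ends of the edge -/
noncomputable def upsBo (g : UpsS v k → (Fin t → Bool)) (c : Fin t → Bool) (e : Edge v) : Bool :=
  decide (∃ S, g S = c ∧ e.1.1 ∈ S.1 ∧ e.1.2 ∈ S.1)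

/-- the test of the first graph -/
noncomputable def upsA (g : UpsS v k → (Fin t → Bool)) : Fn (Edge v ⊕ Edge v) 0 (t + 1) :=
  fun x _ w => upsVa g (fun i => w i.succ) &&
    (el v).all fun e => !(upsBo g (fun i => w i.succ) e) || x (Sum.inl e)

/-- the test of the second graph -/
noncomputable def upsO (g : UpsS v k → (Fin t → Bool)) : Fn (Edge v ⊕ Edge v) 0 (t + 1) :=
  fun x _ w => !(upsVa g (fun i => w i.succ)) ||
    (el v).any fun e => upsBo g (fun i => w i.succ) e && x (Sum.inr e)

/-- the output -/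
noncomputable def upsP (g : UpsS v k → (Fin t → Bool)) : Fn (Edge v ⊕ Edge v) 0 (t + 1) :=
  fun x u w => (!(w 0) && upsA g x u w) || (w 0 && upsO g x u w)

lemma ups_makes (g : UpsS v k → (Fin t → Bool)) : Makes ∅ (2 * v ^ 2 + 8) {upsP g} := by
  have t3 := Makes.any (el v) (fun (e : Edge v) _ =>
    (Makes.wit (∅ : Set (Fn (Edge v ⊕ Edge v) 0 (t + 1)))
      (fun _ w => upsBo g (fun i => w i.succ) e)).and (Makes.inp ∅ (Sum.inr e)))
  have t4 := Makes.all (el v) (fun (e : Edge v) _ =>
    (Makes.wit (∅ : Set (Fn (Edge v ⊕ Edge v) 0 (t + 1)))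
      (fun _ w => !(upsBo g (fun i => w i.succ) e))).or (Makes.inp ∅ (Sum.inl e)))
  have w1 : Makes (∅ : Set (Fn (Edge v ⊕ Edge v) 0 (t + 1))) 0 {fun _ _ w => !(w 0)} :=
    Makes.wit _ (fun _ w => !(w 0))
  have w2 : Makes (∅ : Set (Fn (Edge v ⊕ Edge v) 0 (t + 1))) 0 {fun _ _ w => w 0} :=
    Makes.wit _ (fun _ w => w 0)
  have w3 : Makes (∅ : Set (Fn (Edge v ⊕ Edge v) 0 (t + 1))) 0
      {fun _ _ w => upsVa g (fun i => w i.succ)} := Makes.wit _ (fun _ w => upsVa g fun i => w i.succ)
  have w4 : Makes (∅ : Set (Fn (Edge v ⊕ Edge v) 0 (t + 1))) 0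
      {fun _ _ w => !(upsVa g (fun i => w i.succ))} :=
    Makes.wit _ (fun _ w => !(upsVa g fun i => w i.succ))
  have t6 := (w1.and (w3.and t4)).or (w2.and (w4.or t3))
  refine (t6.le ?_).subset (fun f hf => hf)
  have he := el_length v
  have h3 : 2 * v ^ 2 = 2 * (v * v) := by ring
  rw [h3]
  omega

variable {g : UpsS v k → (Fin t → Bool)} {x : Edge v ⊕ Edge v → Bool} {u : Fin 0 → Bool}

lemma ups_bo (hg : Function.Injective g) (S : UpsS v k) (e : Edge v) :
    upsBo g (g S) e = true ↔ e.1.1 ∈ S.1 ∧ e.1.2 ∈ S.1 := by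
  unfold upsBo
  rw [decide_eq_true_iff]
  constructor
  · rintro ⟨S', h1, h2⟩
    rw [← hg h1]
    exact h2
  · intro h
    exact ⟨S, rfl, h⟩

lemma ups_va (c : Fin t → Bool) : upsVa g c = true ↔ ∃ S, g S = c := by
  unfold upsVa
  rw [decide_eq_true_iff]

lemma ups_vA (hg : Function.Injective g) (b : Bool) (c : Fin t → Bool) :
    upsA g x u (Fin.cons b c) = true ↔ ∃ S, g S = c ∧
      ∀ e : Edge v, e.1.1 ∈ S.1 → e.1.2 ∈ S.1 → x (Sum.inl e) = true := by
  show (upsVa g c && (el v).all fun e => !(upsBo g c e) || x (Sum.inl e)) = true ↔ _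
  rw [Bool.and_eq_true, ups_va, List.all_eq_true]
  constructor
  · rintro ⟨⟨S, rfl⟩, h⟩
    refine ⟨S, rfl, fun e h1 h2 => ?_⟩
    have h3 := h e (mem_el e)
    rw [(ups_bo hg S e).2 ⟨h1, h2⟩, Bool.not_true, Bool.false_or] at h3
    exact h3
  · rintro ⟨S, rfl, h⟩
    refine ⟨⟨S, rfl⟩, fun e _ => ?_⟩
    cases h4 : upsBo g (g S) e with
    | false => rfl
    | true =>
      obtain ⟨h5, h6⟩ := (ups_bo hg S e).1 h4
      rw [Bool.not_true, Bool.false_or]
      exact h e h5 h6

lemma ups_vO (hg : Function.Injective g) (b : Bool) (c : Fin t → Bool) :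
    ¬ upsO g x u (Fin.cons b c) = true ↔ ∃ S, g S = c ∧
      ∀ e : Edge v, e.1.1 ∈ S.1 → e.1.2 ∈ S.1 → x (Sum.inr e) = false := by
  show ¬ (!(upsVa g c) || (el v).any fun e => upsBo g c e && x (Sum.inr e)) = true ↔ _
  rw [Bool.or_eq_true, not_or, Bool.not_eq_true', Bool.not_eq_false, ups_va, List.any_eq_true]
  constructor
  · rintro ⟨⟨S, rfl⟩, h⟩
    refine ⟨S, rfl, fun e h1 h2 => ?_⟩
    by_contra h3
    rw [Bool.not_eq_false] at h3
    exact h ⟨e, mem_el e, by rw [(ups_bo hg S e).2 ⟨h1, h2⟩, h3]; rfl⟩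
  · rintro ⟨S, rfl, h⟩
    refine ⟨⟨S, rfl⟩, ?_⟩
    rintro ⟨e, _, h3⟩
    rw [Bool.and_eq_true] at h3
    obtain ⟨h5, h6⟩ := (ups_bo hg S e).1 h3.1
    rw [h e h5 h6] at h3
    exact absurd h3.2 (by simp)

end

open Classical in
theorem UPS_thm : Stmt_UPS := by
  intro v k t hvt
  have hcard : Fintype.card (UpsS v k) ≤ Fintype.card (Fin t → Bool) := by
    rw [Fintype.card_finset_len, Fintype.card_fun, Fintype.card_bool, Fintype.card_fin,
      Fintype.card_fin]
    exact hvt
  obtain ⟨g, hg⟩ := Function.Embedding.nonempty_of_card_le hcard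
  obtain ⟨C, h1, h2, h3⟩ := ups_of_makes (ups_makes (v := v) (k := k) (t := t) g)
  refine ⟨C, h2, h1, fun x => ?_⟩
  have hA : (univ.filter fun c : Fin t → Bool => upsA g x default (Fin.cons false c) = true).card =
      cliques v k (fun e => x (Sum.inl e)) := by
    unfold cliques
    exact ups_count g hg (fun S => ∀ e : Edge v, e.1.1 ∈ S → e.1.2 ∈ S → x (Sum.inl e) = true)
      (fun c => upsA g x default (Fin.cons false c) = true) fun c => ups_vA hg false c
  have hO : (univ.filter fun c : Fin t → Bool => ¬ upsO g x default (Fin.cons true c) = true).card =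
      indeps v k (fun e => x (Sum.inr e)) := by
    unfold indeps
    exact ups_count g hg (fun S => ∀ e : Edge v, e.1.1 ∈ S → e.1.2 ∈ S → x (Sum.inr e) = false)
      (fun c => ¬ upsO g x default (Fin.cons true c) = true) fun c => ups_vO hg true c
  have hsum : (univ.filter fun c : Fin t → Bool =>
      upsO g x default (Fin.cons true c) = true).card +
      (univ.filter fun c : Fin t → Bool => ¬ upsO g x default (Fin.cons true c) = true).card =
        2 ^ t := by
    rw [Finset.card_filter_add_card_filter_not, Finset.card_univ, Fintype.card_fun,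
      Fintype.card_bool, Fintype.card_fin]
  have hcount : (univ.filter fun p : (Fin 0 → Bool) × (Fin (t + 1) → Bool) =>
      outp C x p.1 p.2 = true).card =
        (univ.filter fun c : Fin t → Bool => upsA g x default (Fin.cons false c) = true).card +
        (univ.filter fun c : Fin t → Bool => upsO g x default (Fin.cons true c) = true).card := by
    have hF : ∀ c : Fin t → Bool, upsP g x default (Fin.cons false c) =
        upsA g x default (Fin.cons false c) := by
      intro c
      simp [upsP]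
    have hT : ∀ c : Fin t → Bool, upsP g x default (Fin.cons true c) =
        upsO g x default (Fin.cons true c) := by
      intro c
      simp [upsP]
    rw [Finset.card_filter, Fintype.sum_prod_type, Fintype.sum_unique]
    simp only [h3]
    rw [← (Fin.consEquiv fun _ : Fin (t + 1) => Bool).sum_comp, Fintype.sum_prod_type,
      Fintype.sum_bool]
    show (∑ c : Fin t → Bool, if upsP g x default (Fin.cons true c) = true then 1 else 0) +
      (∑ c : Fin t → Bool, if upsP g x default (Fin.cons false c) = true then 1 else 0) = _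
    simp only [hF, hT]
    rw [Finset.card_filter, Finset.card_filter, add_comm]
  unfold Maj More
  rw [hcount, hA]
  rw [hO] at hsum
  have hp : 2 ^ (0 + (t + 1)) = 2 * 2 ^ t := by
    rw [zero_add, pow_succ]
    ring
  rw [hp]
  omega

end Pool.Agent.S2C
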